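import Pool.Agent.Y198.MC.Stm

/-!
# The nef cone of curves
-/

set_option autoImplicit false
set_option linter.unusedSectionVars false

namespace Pool.Agent.Y473.MCN

open MvPolynomial Pool.Agent.Y166.GM Pool.Agent.Y198.MC

section
variable {k : Type} [Field k] {N : ℕ}

theorem exp_nonneg [Infinite k] (p : Polynomial k) (K : k) (hK : K ≠ 0) (b : ℤ)
    (h : ∀ s : k, s ≠ 0 → p.eval s = s ^ b * K) : 0 ≤ b := by
  by_contra hcon
  push Not at hcon
  obtain ⟨n, hn⟩ : ∃ n : ℕ, b = -((n : ℤ) + 1) := ⟨(-b - 1).toNat, by omega⟩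
  have h1 : (Polynomial.X ^ (n + 1) * p - Polynomial.C K) * Polynomial.X = 0 := by
    apply Polynomial.funext
    intro s
    simp only [Polynomial.eval_mul, Polynomial.eval_sub, Polynomial.eval_pow, Polynomial.eval_X,
      Polynomial.eval_C, Polynomial.eval_zero]
    by_cases hs : s = 0
    · rw [hs, mul_zero]
    · rw [h s hs, hn, ← mul_assoc, ← zpow_natCast s (n + 1), ← zpow_add₀ hs]
      push_cast
      rw [add_neg_cancel, zpow_zero, one_mul, sub_self, zero_mul]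
  rcases mul_eq_zero.1 h1 with h2 | h2
  · have h3 := congrArg (Polynomial.eval 0) h2
    simp only [Polynomial.eval_mul, Polynomial.eval_sub, Polynomial.eval_pow, Polynomial.eval_X,
      Polynomial.eval_C, Polynomial.eval_zero, zero_pow (Nat.succ_ne_zero n), zero_mul,
      zero_sub] at h3
    exact hK (neg_eq_zero.1 h3)
  · exact Polynomial.X_ne_zero h2

/-- The restriction of a polynomial to a curve. -/
theorem exists_line {σ : Type} (P : MvPolynomial σ k) (f : σ → Polynomial k) :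
    ∃ p : Polynomial k, ∀ s, p.eval s = eval (fun i => (f i).eval s) P := by
  refine ⟨aeval f P, fun s => ?_⟩
  have h : ((Polynomial.aeval s : Polynomial k →ₐ[k] k).comp (aeval f)) =
      (aeval (fun i => (f i).eval s) : MvPolynomial σ k →ₐ[k] k) := by
    apply MvPolynomial.algHom_ext
    intro i
    rw [AlgHom.comp_apply, aeval_X, aeval_X]
    rfl
  have h2 := congrArg (fun φ : MvPolynomial σ k →ₐ[k] k => φ P) h
  rw [← aeval_eq_eval]
  exact h2

theorem cub_inj {u v : Fin N → k} (h : wdg u v ≠ 0) {c c' : Fin 4 → k}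
    (hc : cub u v c = cub u v c') : c = c' := by
  obtain ⟨⟨i, j⟩, hs⟩ := Function.ne_iff.1 h
  have hD : u i * v j - v i * u j ≠ 0 := hs
  have h3 : (u i * v j - v i * u j) ^ 3 ≠ 0 := pow_ne_zero 3 hD
  have e1 := congrFun hc (i, i, i)
  have e2 := congrFun hc (i, i, j)
  have e3 := congrFun hc (i, j, j)
  have e4 := congrFun hc (j, j, j)
  simp only [cub] at e1 e2 e3 e4
  funext l
  apply mul_left_cancel₀ h3
  fin_cases l
  · simp only [Fin.zero_eta]
    linear_combination v j ^ 3 * e1 - 3 * v j ^ 2 * v i * e2 + 3 * v j * v i ^ 2 * e3 -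
      v i ^ 3 * e4
  · simp only [Fin.mk_one]
    linear_combination -u j * v j ^ 2 * e1 + (v j ^ 2 * u i + 2 * v j * v i * u j) * e2 +
      (-2 * v j * v i * u i - v i ^ 2 * u j) * e3 + v i ^ 2 * u i * e4
  · simp only [Fin.reduceFinMk]
    linear_combination v j * u j ^ 2 * e1 + (-2 * v j * u i * u j - v i * u j ^ 2) * e2 +
      (v j * u i ^ 2 + 2 * v i * u i * u j) * e3 - v i * u i ^ 2 * e4
  · simp only [Fin.reduceFinMk]
    linear_combination -u j ^ 3 * e1 + 3 * u j ^ 2 * u i * e2 - 3 * u j * u i ^ 2 * e3 +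
      u i ^ 3 * e4

/-- The action of the matrices on the coefficients. -/
def tg (g : Matrix (Fin 2) (Fin 2) k) (c : Fin 4 → k) : Fin 4 → k :=
  ![c 0 * g 0 0 ^ 3 + 3 * c 1 * g 0 0 ^ 2 * g 0 1 + 3 * c 2 * g 0 0 * g 0 1 ^ 2 + c 3 * g 0 1 ^ 3,
    c 0 * g 0 0 ^ 2 * g 1 0 + c 1 * (g 0 0 ^ 2 * g 1 1 + 2 * g 0 0 * g 1 0 * g 0 1) +
      c 2 * (g 0 1 ^ 2 * g 1 0 + 2 * g 0 0 * g 0 1 * g 1 1) + c 3 * g 0 1 ^ 2 * g 1 1,
    c 0 * g 0 0 * g 1 0 ^ 2 + c 1 * (2 * g 0 0 * g 1 0 * g 1 1 + g 1 0 ^ 2 * g 0 1) +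
      c 2 * (2 * g 1 0 * g 0 1 * g 1 1 + g 0 0 * g 1 1 ^ 2) + c 3 * g 0 1 * g 1 1 ^ 2,
    c 0 * g 1 0 ^ 3 + 3 * c 1 * g 1 0 ^ 2 * g 1 1 + 3 * c 2 * g 1 0 * g 1 1 ^ 2 + c 3 * g 1 1 ^ 3]

theorem cub_bas (g : Matrix (Fin 2) (Fin 2) k) (u v : Fin N → k) (c : Fin 4 → k) :
    cub (bas0 g u v) (bas1 g u v) c = cub u v (tg g c) := by
  funext t
  simp only [cub, bas0, bas1, tg, Matrix.cons_val_zero, Matrix.cons_val_one, Matrix.cons_val]
  ring

/-- The discriminant. -/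
def dc (c : Fin 4 → k) : k :=
  c 0 ^ 2 * c 3 ^ 2 - 6 * (c 0 * c 1 * c 2 * c 3) + 4 * (c 0 * c 2 ^ 3) + 4 * (c 1 ^ 3 * c 3) -
    3 * (c 1 ^ 2 * c 2 ^ 2)

/-- The coefficients of the Hessian. -/
def hs0 (c : Fin 4 → k) : k := c 0 * c 2 - c 1 ^ 2

/-- The coefficients of the Hessian. -/
def hs1 (c : Fin 4 → k) : k := c 0 * c 3 - c 1 * c 2

/-- The coefficients of the Hessian. -/
def hs2 (c : Fin 4 → k) : k := c 1 * c 3 - c 2 ^ 2

theorem dc_hs (c : Fin 4 → k) : dc c = hs1 c ^ 2 - 4 * hs0 c * hs2 c := by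
  unfold dc hs0 hs1 hs2
  ring

theorem hs0_tg (g : Matrix (Fin 2) (Fin 2) k) (c : Fin 4 → k) :
    hs0 (tg g c) = (g 0 0 * g 1 1 - g 0 1 * g 1 0) ^ 2 *
      (hs0 c * g 0 0 ^ 2 + hs1 c * g 0 0 * g 0 1 + hs2 c * g 0 1 ^ 2) := by
  simp only [hs0, hs1, hs2, tg, Matrix.cons_val_zero, Matrix.cons_val_one, Matrix.cons_val]
  ring

theorem hs1_tg (g : Matrix (Fin 2) (Fin 2) k) (c : Fin 4 → k) :
    hs1 (tg g c) = (g 0 0 * g 1 1 - g 0 1 * g 1 0) ^ 2 *
      (2 * hs0 c * g 0 0 * g 1 0 + hs1 c * (g 0 0 * g 1 1 + g 0 1 * g 1 0) +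
        2 * hs2 c * g 0 1 * g 1 1) := by
  simp only [hs0, hs1, hs2, tg, Matrix.cons_val_zero, Matrix.cons_val_one, Matrix.cons_val]
  ring

theorem hs2_tg (g : Matrix (Fin 2) (Fin 2) k) (c : Fin 4 → k) :
    hs2 (tg g c) = (g 0 0 * g 1 1 - g 0 1 * g 1 0) ^ 2 *
      (hs0 c * g 1 0 ^ 2 + hs1 c * g 1 0 * g 1 1 + hs2 c * g 1 1 ^ 2) := by
  simp only [hs0, hs1, hs2, tg, Matrix.cons_val_zero, Matrix.cons_val_one, Matrix.cons_val]
  ring

theorem dc_tg (g : Matrix (Fin 2) (Fin 2) k) (c : Fin 4 → k) :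
    dc (tg g c) = g.det ^ 6 * dc c := by
  rw [Matrix.det_fin_two, dc_hs, dc_hs, hs0_tg, hs1_tg, hs2_tg]
  ring

theorem dc_smul (s : k) (c : Fin 4 → k) : dc (s • c) = s ^ 4 * dc c := by
  simp only [dc, Pi.smul_apply, smul_eq_mul]
  ring

end

theorem elim_smul {k : Type} [Field k] {N : ℕ} (u v : Fin N → k) (c : Fin 4 → k) (s : k) :
    (Sum.elim u (Sum.elim v (s • c)) : Fin N ⊕ (Fin N ⊕ Fin 4) → k) =
      fun i => ((Sum.elim (fun i => Polynomial.C (u i))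
        (Sum.elim (fun i => Polynomial.C (v i)) fun i => Polynomial.X * Polynomial.C (c i)) :
        Fin N ⊕ (Fin N ⊕ Fin 4) → Polynomial k) i).eval s := by
  funext i
  rcases i with i | i | i
  · simp only [Sum.elim_inl, Polynomial.eval_C]
  · simp only [Sum.elim_inl, Sum.elim_inr, Polynomial.eval_C]
  · simp only [Sum.elim_inr, Polynomial.eval_mul, Polynomial.eval_X, Polynomial.eval_C,
      Pi.smul_apply, smul_eq_mul]

theorem elim_smul' {k : Type} [Field k] {N : ℕ} (u v : Fin N → k) (c : Fin 4 → k) (s : k) :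
    (Sum.elim (s • u) (Sum.elim (s • v) c) : Fin N ⊕ (Fin N ⊕ Fin 4) → k) =
      fun i => ((Sum.elim (fun i => Polynomial.X * Polynomial.C (u i))
        (Sum.elim (fun i => Polynomial.X * Polynomial.C (v i)) fun i => Polynomial.C (c i)) :
        Fin N ⊕ (Fin N ⊕ Fin 4) → Polynomial k) i).eval s := by
  funext i
  rcases i with i | i | i
  · simp only [Sum.elim_inl, Polynomial.eval_mul, Polynomial.eval_X, Polynomial.eval_C,
      Pi.smul_apply, smul_eq_mul]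
  · simp only [Sum.elim_inl, Sum.elim_inr, Polynomial.eval_mul, Polynomial.eval_X,
      Polynomial.eval_C, Pi.smul_apply, smul_eq_mul]
  · simp only [Sum.elim_inr, Polynomial.eval_C]

/-- The first section. -/
noncomputable def F1 (k : Type) [Field k] {N : ℕ} (i0 i1 : Fin N) :
    MvPolynomial (Fin N ⊕ (Fin N ⊕ Fin 4)) k :=
  X (.inl i0) * X (.inr (.inl i1)) - X (.inr (.inl i0)) * X (.inl i1)

/-- The coefficients as variables. -/
noncomputable def cx (k : Type) [Field k] (N : ℕ) (i : Fin 4) :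
    MvPolynomial (Fin N ⊕ (Fin N ⊕ Fin 4)) k := X (Sum.inr (Sum.inr i))

/-- The second section. -/
noncomputable def F2 (k : Type) [Field k] (N : ℕ) : MvPolynomial (Fin N ⊕ (Fin N ⊕ Fin 4)) k :=
  cx k N 0 ^ 2 * cx k N 3 ^ 2 - 6 * (cx k N 0 * cx k N 1 * cx k N 2 * cx k N 3) +
    4 * (cx k N 0 * cx k N 2 ^ 3) + 4 * (cx k N 1 ^ 3 * cx k N 3) -
    3 * (cx k N 1 ^ 2 * cx k N 2 ^ 2)

section
variable {k : Type} [Field k] {N : ℕ}

theorem ev1 (i0 i1 : Fin N) (u v : Fin N → k) (c : Fin 4 → k) :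
    eval (Sum.elim u (Sum.elim v c)) (F1 k i0 i1) = wdg u v (i0, i1) := by
  simp [F1, wdg]

theorem ev2 (u v : Fin N → k) (c : Fin 4 → k) :
    eval (Sum.elim u (Sum.elim v c)) (F2 k N) = dc c := by
  have h : ∀ i, eval (Sum.elim u (Sum.elim v c)) (cx k N i) = c i := fun i => by
    rw [cx, eval_X, Sum.elim_inr, Sum.elim_inr]
  simp only [F2, dc, map_sub, map_add, map_mul, map_pow, map_ofNat, h]

theorem F1_mem (i0 i1 : Fin N) : F1 k i0 i1 ∈ secX k N 1 0 := by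
  intro u v c _
  constructor
  · intro s _
    rw [ev1, ev1, zpow_zero, one_mul]
  · intro g c' _ _
    rw [ev1, ev1, zpow_one, Matrix.det_fin_two]
    simp only [wdg, bas0, bas1]
    ring

theorem F2_mem : F2 k N ∈ secX k N (-6) 4 := by
  intro u v c huv
  constructor
  · intro s _
    rw [ev2, ev2, dc_smul]
    norm_cast
  · intro g c' hg hc
    rw [ev2, ev2]
    rw [cub_bas] at hc
    have h3 := cub_inj huv hc
    have h4 : g.det ^ 6 ≠ 0 := pow_ne_zero 6 hg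
    have h5 : g.det ^ (-6 : ℤ) = (g.det ^ 6)⁻¹ := by
      rw [zpow_neg]
      norm_cast
    rw [← h3, dc_tg, h5, inv_mul_cancel_left₀ h4]

theorem F1_ne {i0 i1 : Fin N} (h01 : i0 ≠ i1) : F1 k i0 i1 ≠ 0 := by
  intro h0
  have := ev1 i0 i1 (Pi.single i0 (1 : k)) (Pi.single i1 (1 : k)) 0
  rw [h0, map_zero] at this
  simp [wdg, Pi.single_eq_of_ne h01] at this

theorem F2_ne : F2 k N ≠ 0 := by
  intro h0
  have := ev2 (N := N) (0 : Fin N → k) 0 ![1, 0, 0, 1]
  rw [h0, map_zero] at this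
  simp [dc] at this

end

theorem key {k : Type} [Field k] [Infinite k] {N : ℕ} {a b : ℤ} (i0 i1 : Fin N) (h01 : i0 ≠ i1)
    {Φ : MvPolynomial (Fin N ⊕ (Fin N ⊕ Fin 4)) k} (hΦ : Φ ∈ secX k N a b) (hne : Φ ≠ 0) :
    0 ≤ b ∧ 0 ≤ 2 * a + 3 * b := by
  have hprod : Φ * F1 k i0 i1 ≠ 0 := mul_ne_zero hne (F1_ne h01)
  have hex : ∃ z : Fin N ⊕ (Fin N ⊕ Fin 4) → k, eval z (Φ * F1 k i0 i1) ≠ 0 := by
    by_contra hcon
    push Not at hcon
    apply hprod
    apply MvPolynomial.funext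
    intro z
    rw [hcon z, map_zero]
  obtain ⟨z, hz⟩ := hex
  rw [map_mul] at hz
  obtain ⟨u, v, c, rfl⟩ : ∃ (u v : Fin N → k) (c : Fin 4 → k),
      z = Sum.elim u (Sum.elim v c) := by
    refine ⟨fun i => z (.inl i), fun i => z (.inr (.inl i)), fun i => z (.inr (.inr i)), ?_⟩
    funext i
    rcases i with i | i | i <;> rfl
  rw [ev1] at hz
  have hK := left_ne_zero_of_mul hz
  have huv : wdg u v ≠ 0 := fun h => (right_ne_zero_of_mul hz) (by rw [h]; rfl)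
  constructor
  · obtain ⟨p, hp⟩ := exists_line Φ (Sum.elim (fun i => Polynomial.C (u i))
      (Sum.elim (fun i => Polynomial.C (v i)) fun i => Polynomial.X * Polynomial.C (c i)))
    apply exp_nonneg p _ hK b
    intro s hs
    rw [hp, ← elim_smul]
    exact (hΦ u v c huv).1 s hs
  · obtain ⟨p, hp⟩ := exists_line Φ (Sum.elim (fun i => Polynomial.X * Polynomial.C (u i))
      (Sum.elim (fun i => Polynomial.X * Polynomial.C (v i)) fun i => Polynomial.C (c i)))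
    apply exp_nonneg p _ hK (2 * a + 3 * b)
    intro s hs
    rw [hp, ← elim_smul']
    have hg : (s • (1 : Matrix (Fin 2) (Fin 2) k)).det = s ^ 2 := by
      rw [Matrix.det_fin_two]
      simp
      ring
    have hb0 : bas0 (s • (1 : Matrix (Fin 2) (Fin 2) k)) u v = s • u := by
      funext i
      simp [bas0]
    have hb1 : bas1 (s • (1 : Matrix (Fin 2) (Fin 2) k)) u v = s • v := by
      funext i
      simp [bas1]
    have hs3 : (s ^ 3)⁻¹ ≠ 0 := inv_ne_zero (pow_ne_zero 3 hs)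
    have h4 := (hΦ u v c huv).2 (s • (1 : Matrix (Fin 2) (Fin 2) k)) ((s ^ 3)⁻¹ • c) (by
      rw [hg]
      exact pow_ne_zero 2 hs) (by
      rw [hb0, hb1]
      funext t
      simp only [cub, Pi.smul_apply, smul_eq_mul]
      field_simp)
    rw [hg, hb0, hb1] at h4
    have huv' : wdg (s • u) (s • v) ≠ 0 := by
      intro h0
      apply huv
      funext t
      have h5 := congrFun h0 t
      simp only [wdg, Pi.smul_apply, smul_eq_mul, Pi.zero_apply] at h5 ⊢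
      have h6 : s ^ 2 * (u t.1 * v t.2 - v t.1 * u t.2) = 0 := by
        rw [← h5]
        ring
      exact (mul_eq_zero.1 h6).resolve_left (pow_ne_zero 2 hs)
    have h5 := (hΦ (s • u) (s • v) c huv').1 _ hs3
    rw [h4] at h5
    have h6 : ((s ^ 3)⁻¹) ^ b = (s ^ (3 * b))⁻¹ := by
      rw [inv_zpow, ← zpow_natCast s 3, ← zpow_mul]
      norm_cast
    have h7 : (s ^ 2) ^ a = s ^ (2 * a) := by
      rw [← zpow_natCast s 2, ← zpow_mul]
      norm_cast
    rw [h6, h7] at h5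
    rw [zpow_add₀ hs]
    have h8 : s ^ (3 * b) ≠ 0 := zpow_ne_zero _ hs
    rw [eq_inv_mul_iff_mul_eq₀ h8] at h5
    rw [← h5]
    ring

theorem done : StmNefX := by
  intro k _ _ _ N hN
  have h01 : (⟨0, by omega⟩ : Fin N) ≠ ⟨1, by omega⟩ := by
    intro h
    have := congrArg Fin.val h
    simp at this
  apply Set.Subset.antisymm
  · intro β hβ
    have h1 := hβ 1 0 ⟨_, F1_mem ⟨0, by omega⟩ ⟨1, by omega⟩, F1_ne h01⟩
    have h2 := hβ (-6) 4 ⟨_, F2_mem, F2_ne⟩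
    constructor
    · push_cast at h1
      linarith
    · push_cast at h2
      linarith
  · rintro ⟨x, y⟩ ⟨hx, hy⟩ a b ⟨Φ, hΦ, hne⟩
    simp only at hx hy ⊢
    obtain ⟨hb, hab⟩ := key _ _ h01 hΦ hne
    have hbR : (0 : ℝ) ≤ b := by exact_mod_cast hb
    have habR : (0 : ℝ) ≤ 2 * a + 3 * b := by exact_mod_cast hab
    have h9 : 0 ≤ (b : ℝ) * (2 * y - 3 * x) := mul_nonneg hbR (by linarith)
    have h10 : 0 ≤ (2 * (a : ℝ) + 3 * b) * x := mul_nonneg habR hx
    linarith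

end Pool.Agent.Y473.MCN
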