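import Pool.Agent.Y198.MC.Stm
import Pool.Agent.Y166.GM.Sep

/-!
# The splitting type is semicontinuous
-/

set_option autoImplicit false
set_option linter.unusedSectionVars false

namespace Pool.Agent.Y473.MC

open Polynomial Pool.Agent.Y166.GM Pool.Agent.Y198.MC

section
variable {k : Type} [Field k]

/-- The polynomial with given coefficients. -/
noncomputable def pl {n : ℕ} (x : Fin (n + 1) → k) : k[X] := ∑ i : Fin (n + 1), C (x i) * X ^ (i : ℕ)

theorem pl_add {n : ℕ} (x y : Fin (n + 1) → k) : pl (x + y) = pl x + pl y := by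
  unfold pl
  rw [← Finset.sum_add_distrib]
  refine Finset.sum_congr rfl fun i _ => ?_
  rw [Pi.add_apply, C_add]
  ring

theorem pl_smul {n : ℕ} (s : k) (x : Fin (n + 1) → k) : pl (s • x) = s • pl x := by
  unfold pl
  rw [Finset.smul_sum]
  refine Finset.sum_congr rfl fun i _ => ?_
  rw [Pi.smul_apply, smul_eq_mul, C_mul, Polynomial.smul_eq_C_mul]
  ring

theorem pl_natDegree {n : ℕ} (x : Fin (n + 1) → k) : (pl x).natDegree ≤ n := by
  unfold pl
  refine Polynomial.natDegree_sum_le_of_forall_le _ _ fun i _ => ?_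
  refine (Polynomial.natDegree_C_mul_X_pow_le _ _).trans ?_
  have := i.2
  omega

theorem pl_coeff {n : ℕ} (x : Fin (n + 1) → k) (i : Fin (n + 1)) : (pl x).coeff i = x i := by
  unfold pl
  rw [Polynomial.finsetSum_coeff, Finset.sum_eq_single i]
  · rw [Polynomial.coeff_C_mul_X_pow, if_pos rfl]
  · intro j _ hj
    rw [Polynomial.coeff_C_mul_X_pow, if_neg]
    intro h
    exact hj (Fin.ext h.symm)
  · intro h
    exact absurd (Finset.mem_univ _) h

theorem pl_of {n : ℕ} (p : k[X]) (hp : p.natDegree ≤ n) :
    pl (fun i : Fin (n + 1) => p.coeff i) = p := by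
  unfold pl
  rw [Finset.sum_range (fun i => C (p.coeff i) * X ^ i) |>.symm]
  conv_rhs => rw [p.as_sum_range_C_mul_X_pow' (n := n + 1) (by omega)]

theorem pl_mul {n : ℕ} (p : k[X]) (hp : p.natDegree ≤ n) (s : k) :
    pl (fun i : Fin (n + 1) => p.coeff i * s) = s • p := by
  conv_rhs => rw [← pl_of p hp, ← pl_smul]
  congr 1
  funext i
  rw [Pi.smul_apply, smul_eq_mul, mul_comm]

variable {N e d a' : ℕ}

/-- The bilinear map. -/
noncomputable def Ph (N e d a' : ℕ) : ((Sg N × Fin (e + 1)) × (Ta N × Fin (d + 1)) → k) →ₗ[k]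
    (Fin N × Fin (a' + 1) → k) →ₗ[k]
      ((Fin N × Fin N × Fin N) × (Ta N × Fin (d + 1)) → k[X]) :=
  LinearMap.mk₂ k (fun γ x z =>
      pl (fun i => x (z.1.1, i)) * pl (fun i => γ (((z.1.2.1, z.1.2.2), i), z.2)) -
      pl (fun i => x (z.1.2.1, i)) * pl (fun i => γ (((z.1.1, z.1.2.2), i), z.2)) +
      pl (fun i => x (z.1.2.2, i)) * pl (fun i => γ (((z.1.1, z.1.2.1), i), z.2)))
    (by
      intro γ γ' x
      funext z
      have h : ∀ s : Sg N, pl (fun i => (γ + γ') ((s, i), z.2)) =
          pl (fun i => γ ((s, i), z.2)) + pl (fun i => γ' ((s, i), z.2)) := by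
        intro s
        rw [← pl_add]
        rfl
      simp only [h]
      simp only [Pi.add_apply]
      ring)
    (by
      intro s γ x
      funext z
      have h : ∀ t : Sg N, pl (fun i => (s • γ) ((t, i), z.2)) =
          s • pl (fun i => γ ((t, i), z.2)) := by
        intro t
        rw [← pl_smul]
        rfl
      simp only [h]
      simp only [Pi.smul_apply, Polynomial.smul_eq_C_mul]
      ring)
    (by
      intro γ x x'
      funext z
      have h : ∀ p : Fin N, pl (fun i => (x + x') (p, i)) =
          pl (fun i => x (p, i)) + pl (fun i => x' (p, i)) := by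
        intro p
        rw [← pl_add]
        rfl
      simp only [h]
      simp only [Pi.add_apply]
      ring)
    (by
      intro s γ x
      funext z
      have h : ∀ p : Fin N, pl (fun i => (s • x) (p, i)) =
          s • pl (fun i => x (p, i)) := by
        intro p
        rw [← pl_smul]
        rfl
      simp only [h]
      simp only [Pi.smul_apply, Polynomial.smul_eq_C_mul]
      ring)

theorem Ph_apply (γ : (Sg N × Fin (e + 1)) × (Ta N × Fin (d + 1)) → k)
    (x : Fin N × Fin (a' + 1) → k) (z : (Fin N × Fin N × Fin N) × (Ta N × Fin (d + 1))) :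
    Ph N e d a' γ x z =
      pl (fun i => x (z.1.1, i)) * pl (fun i => γ (((z.1.2.1, z.1.2.2), i), z.2)) -
      pl (fun i => x (z.1.2.1, i)) * pl (fun i => γ (((z.1.1, z.1.2.2), i), z.2)) +
      pl (fun i => x (z.1.2.2, i)) * pl (fun i => γ (((z.1.1, z.1.2.1), i), z.2)) := rfl

theorem wdg_deg {a b : ℕ} {u v : Fin N → k[X]} (hu : ∀ i, (u i).natDegree ≤ a)
    (hv : ∀ i, (v i).natDegree ≤ b) (s : Sg N) : (wdg u v s).natDegree ≤ a + b := by
  unfold wdg
  refine (Polynomial.natDegree_sub_le _ _).trans (max_le ?_ ?_)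
  · refine Polynomial.natDegree_mul_le.trans ?_
    have h1 := hu s.1
    have h2 := hv s.2
    omega
  · refine Polynomial.natDegree_mul_le.trans ?_
    have h1 := hu s.2
    have h2 := hv s.1
    omega

theorem Ph_cv {a b : ℕ} {u v : Fin N → k[X]} {c : Fin 4 → k[X]} (hab : a + b = e)
    (hu : ∀ i, (u i).natDegree ≤ a) (hv : ∀ i, (v i).natDegree ≤ b)
    (x : Fin N × Fin (a' + 1) → k) (z : (Fin N × Fin N × Fin N) × (Ta N × Fin (d + 1))) :
    Ph N e d a' (cv e d u v c) x z = C ((cub u v c z.2.1).coeff z.2.2) *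
      (pl (fun i => x (z.1.1, i)) * wdg u v (z.1.2.1, z.1.2.2) -
      pl (fun i => x (z.1.2.1, i)) * wdg u v (z.1.1, z.1.2.2) +
      pl (fun i => x (z.1.2.2, i)) * wdg u v (z.1.1, z.1.2.1)) := by
  rw [Ph_apply]
  have h : ∀ s : Sg N, pl (fun i => cv e d u v c ((s, i), z.2)) =
      C ((cub u v c z.2.1).coeff z.2.2) * wdg u v s := by
    intro s
    rw [← Polynomial.smul_eq_C_mul, ← pl_mul (n := e) (wdg u v s)]
    · rfl
    · rw [← hab]
      exact wdg_deg hu hv s
  rw [h, h, h]
  ring

/-- The Plücker coordinates generate the unit ideal. -/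
theorem unit_ideal [IsAlgClosed k] {u v : Fin N → k[X]}
    (h : ∀ t : k, wdg (fun i => (u i).eval t) (fun i => (v i).eval t) ≠ 0) :
    ∃ A : Sg N → k[X], ∑ s, A s * wdg u v s = 1 := by
  rw [← Ideal.mem_span_range_iff_exists_fun]
  have hI : (Ideal.span (Set.range (wdg u v))).IsPrincipal :=
    IsPrincipalIdealRing.principal _
  obtain ⟨g, hg⟩ := hI
  have hg' : Ideal.span (Set.range (wdg u v)) = Ideal.span {g} := hg
  by_cases hdeg : g.degree = 0
  · have hu : IsUnit g := Polynomial.isUnit_iff_degree_eq_zero.2 hdeg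
    rw [hg', Ideal.span_singleton_eq_top.2 hu]
    trivial
  · exfalso
    obtain ⟨t, ht⟩ := IsAlgClosed.exists_root g hdeg
    apply h t
    funext s
    have h1 : wdg u v s ∈ Ideal.span {g} := by
      rw [← hg']
      exact Ideal.subset_span ⟨s, rfl⟩
    obtain ⟨r, hr⟩ := Ideal.mem_span_singleton'.1 h1
    have h2 : (wdg u v s).eval t = 0 := by
      rw [← hr, Polynomial.eval_mul, ht, mul_zero]
    rw [Pi.zero_apply, ← h2]
    simp [wdg]

theorem wdg_zero {U V : Fin N → k} {x y : k} (hxy : x ≠ 0 ∨ y ≠ 0)
    (h : ∀ p, x * U p + y * V p = 0) : wdg U V = 0 := by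
  funext s
  rw [Pi.zero_apply]
  have h1 := h s.1
  have h2 := h s.2
  rcases hxy with hx | hy
  · apply mul_left_cancel₀ hx
    show x * (U s.1 * V s.2 - V s.1 * U s.2) = x * 0
    linear_combination V s.2 * h1 - V s.1 * h2
  · apply mul_left_cancel₀ hy
    show y * (U s.1 * V s.2 - V s.1 * U s.2) = y * 0
    linear_combination U s.1 * h2 - U s.2 * h1

theorem comb_zero {a b a' : ℕ} {u v w : Fin N → k[X]} {A B : k[X]} (hab : a ≤ b) (ha : a' < a)
    (hu : ∀ i, (u i).natDegree ≤ a) (hv : ∀ i, (v i).natDegree ≤ b)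
    (hw : ∀ i, (w i).natDegree ≤ a')
    (hinf : wdg (fun i => (u i).coeff a) (fun i => (v i).coeff b) ≠ 0)
    (h : ∀ p, w p = A * u p + B * v p) : ∀ p, w p = 0 := by
  by_cases hz : A = 0 ∧ B = 0
  · intro p
    rw [h p, hz.1, hz.2]
    ring
  exfalso
  apply hinf
  by_cases hcase : A ≠ 0 ∧ (B = 0 ∨ B.natDegree + b ≤ A.natDegree + a)
  · obtain ⟨hA, hB⟩ := hcase
    by_cases hB0 : B = 0
    · refine wdg_zero (x := A.coeff A.natDegree) (y := 0) (Or.inl ?_) fun p => ?_
      · exact Polynomial.leadingCoeff_ne_zero.2 hA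
      · have h1 := congrArg (fun P : k[X] => P.coeff (A.natDegree + a)) (h p)
        simp only [Polynomial.coeff_add] at h1
        rw [Polynomial.coeff_mul_add_eq_of_natDegree_le le_rfl (hu p), hB0, zero_mul,
          Polynomial.coeff_zero, Polynomial.coeff_eq_zero_of_natDegree_lt] at h1
        · rw [zero_mul, ← h1]
        · have := hw p
          omega
    · have hB' : B.natDegree + b ≤ A.natDegree + a := hB.resolve_left hB0
      refine wdg_zero (x := A.coeff A.natDegree) (y := B.coeff (A.natDegree + a - b))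
        (Or.inl ?_) fun p => ?_
      · exact Polynomial.leadingCoeff_ne_zero.2 hA
      · have h1 := congrArg (fun P : k[X] => P.coeff (A.natDegree + a)) (h p)
        simp only [Polynomial.coeff_add] at h1
        rw [Polynomial.coeff_mul_add_eq_of_natDegree_le le_rfl (hu p)] at h1
        have h2 : (B * v p).coeff (A.natDegree + a) =
            B.coeff (A.natDegree + a - b) * (v p).coeff b := by
          have h3 : A.natDegree + a = (A.natDegree + a - b) + b := by omega
          conv_lhs => rw [h3]
          exact Polynomial.coeff_mul_add_eq_of_natDegree_le (by omega) (hv p)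
        rw [h2, Polynomial.coeff_eq_zero_of_natDegree_lt] at h1
        · exact h1.symm
        · have := hw p
          omega
  · have hB0 : B ≠ 0 := by
      intro hB
      apply hcase
      refine ⟨fun hA => hz ⟨hA, hB⟩, Or.inl hB⟩
    by_cases hA0 : A = 0
    · refine wdg_zero (x := 0) (y := B.coeff B.natDegree) (Or.inr ?_) fun p => ?_
      · exact Polynomial.leadingCoeff_ne_zero.2 hB0
      · have h1 := congrArg (fun P : k[X] => P.coeff (B.natDegree + b)) (h p)
        simp only [Polynomial.coeff_add] at h1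
        rw [Polynomial.coeff_mul_add_eq_of_natDegree_le le_rfl (hv p), hA0, zero_mul,
          Polynomial.coeff_zero, Polynomial.coeff_eq_zero_of_natDegree_lt] at h1
        · rw [zero_mul, ← h1]
        · have := hw p
          omega
    · have hlt : A.natDegree + a ≤ B.natDegree + b := by
        by_contra hcon
        apply hcase
        exact ⟨hA0, Or.inr (by omega)⟩
      refine wdg_zero (x := A.coeff (B.natDegree + b - a)) (y := B.coeff B.natDegree)
        (Or.inr ?_) fun p => ?_
      · exact Polynomial.leadingCoeff_ne_zero.2 hB0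
      · have h1 := congrArg (fun P : k[X] => P.coeff (B.natDegree + b)) (h p)
        simp only [Polynomial.coeff_add] at h1
        rw [Polynomial.coeff_mul_add_eq_of_natDegree_le le_rfl (hv p)] at h1
        have h2 : (A * u p).coeff (B.natDegree + b) =
            A.coeff (B.natDegree + b - a) * (u p).coeff a := by
          have h3 : B.natDegree + b = (B.natDegree + b - a) + a := by omega
          conv_lhs => rw [h3]
          exact Polynomial.coeff_mul_add_eq_of_natDegree_le (by omega) (hu p)
        rw [h2, Polynomial.coeff_eq_zero_of_natDegree_lt] at h1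
        · exact h1.symm
        · have := hw p
          omega

end

theorem done : StmSep := by
  intro k _ _ N e d a b a' b' hab hle hab' hle' γ hγ hcl
  by_contra hcon
  push Not at hcon
  classical
  obtain ⟨u, v, c, hBd, hGd, hRep⟩ := hγ
  obtain ⟨m, P, hPh, h1, h2⟩ := sep (Ph N e d a' : _ →ₗ[k] _) (cv e d u v c) (by
    rw [injective_iff_map_eq_zero]
    intro x hx
    -- a nonzero coefficient
    have hne : ∃ y : Ta N × Fin (d + 1), (cub u v c y.1).coeff y.2 ≠ 0 := by
      by_contra hall
      push Not at hall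
      apply hRep.ne_zero
      funext y
      show (wdg u v y.1.1).coeff y.1.2 * (cub u v c y.2.1).coeff y.2.2 = 0
      rw [hall y.2, mul_zero]
    obtain ⟨y, hy⟩ := hne
    set w : Fin N → k[X] := fun p => pl (fun i => x (p, i)) with hw
    have hW : ∀ p q r : Fin N, w p * wdg u v (q, r) - w q * wdg u v (p, r) +
        w r * wdg u v (p, q) = 0 := by
      intro p q r
      have h := congrFun hx ((p, q, r), y)
      rw [Ph_cv hab hBd.hu hBd.hv] at h
      rcases mul_eq_zero.1 h with h3 | h3
      · rw [Polynomial.C_eq_zero] at h3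
        exact absurd h3 hy
      · exact h3
    obtain ⟨A, hA⟩ := unit_ideal hGd.fin
    have hcomb : ∀ p, w p = (∑ s : Sg N, A s * (w s.1 * v s.2 - w s.2 * v s.1)) * u p +
        (∑ s : Sg N, A s * (w s.2 * u s.1 - w s.1 * u s.2)) * v p := by
      intro p
      have h3 : w p = ∑ s : Sg N, (A s * wdg u v s) * w p := by
        rw [← Finset.sum_mul, hA, one_mul]
      conv_lhs => rw [h3]
      rw [Finset.sum_mul, Finset.sum_mul, ← Finset.sum_add_distrib]
      refine Finset.sum_congr rfl fun s _ => ?_
      have h4 := hW p s.1 s.2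
      simp only [wdg] at h4 ⊢
      linear_combination A s * h4
    have hw0 := comb_zero hle hcon hBd.hu hBd.hv (fun i => pl_natDegree _) hGd.inf hcomb
    funext z
    have h5 := hw0 z.1
    have h6 := congrArg (fun Q : k[X] => Q.coeff (z.2 : ℕ)) h5
    simp only [Polynomial.coeff_zero] at h6
    rw [pl_coeff] at h6
    exact h6)
  have h3 := (mem_closure_iff' _ _).1 hcl m P hPh (by
    rintro q ⟨u', v', c', hBd', hGd', hRep'⟩
    rw [← zero_iff hRep' hPh]
    apply h2
    refine ⟨fun z => (u' z.1).coeff z.2, ?_, ?_⟩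
    · intro h0
      apply hGd'.inf
      have hu0 : ∀ i, (u' i).coeff a' = 0 := by
        intro i
        have := congrFun h0 (i, Fin.last a')
        exact this
      funext s
      simp only [wdg, hu0, zero_mul, mul_zero, sub_self, Pi.zero_apply]
    · funext z
      rw [Ph_cv hab' hBd'.hu hBd'.hv]
      have h4 : ∀ p : Fin N, pl (fun i : Fin (a' + 1) => (u' p).coeff i) = u' p := fun p =>
        pl_of _ (hBd'.hu p)
      simp only [h4, wdg, Pi.zero_apply]
      ring)
  rw [← zero_iff hRep hPh] at h3
  exact h1 h3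

end Pool.Agent.Y473.MC
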