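import Pool.Agent.Y473.MC.Orb

/-!
# Automorphisms of `Orb` and their action on trace coordinates
-/

namespace Pool.Agent.Y473.MC

open Matrix Topology Filter

theorem tr_mul_comm (A B : SL2) : tr (A * B) = tr (B * A) := by
  simp only [tr]
  exact Matrix.trace_mul_comm _ _

theorem tr_mul_inv (A B : SL2) : tr (A * B⁻¹) = tr A * tr B - tr (A * B) := by
  have h : (A * B⁻¹).1 = tr B • A.1 - A.1 * B.1 := by
    show A.1 * (B⁻¹).1 = _
    rw [inv_eq, mul_sub, mul_smul_comm, mul_one]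
  show Matrix.trace (A * B⁻¹).1 = _
  rw [h, Matrix.trace_sub, Matrix.trace_smul, smul_eq_mul]
  show tr B * tr A - tr (A * B) = _
  ring

theorem tr_conj (A B : SL2) : tr (A * B * A⁻¹) = tr B := by
  rw [tr_mul_comm, ← mul_assoc, inv_mul_cancel, one_mul]

theorem tr_sq_mul (A B : SL2) : tr (A * (A * B)) = tr A * tr (A * B) - tr B := by
  have h := tr_mul_inv (A * B) A
  rw [tr_conj] at h
  rw [tr_mul_comm A (A * B)]
  linear_combination h

theorem tr_one : tr (1 : SL2) = 2 := by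
  simp [tr]

theorem tr_cm (A B : SL2) : tr (cm A B) =
    tr A ^ 2 + tr B ^ 2 + tr (A * B) ^ 2 - tr A * tr B * tr (A * B) - 2 := by
  have h1 : tr (cm A B) = tr (A * B * A⁻¹) * tr B - tr (A * B * A⁻¹ * B) := tr_mul_inv _ _
  have h2 : tr (A * B * A⁻¹ * B) = tr (B * (A * B) * A⁻¹) := by
    rw [tr_mul_comm]; congr 1; group
  have h3 : tr (B * (A * B) * A⁻¹) = tr (B * (A * B)) * tr A - tr (B * (A * B) * A) :=
    tr_mul_inv _ _
  have h4 : tr (B * (A * B)) = tr B * tr (A * B) - tr A := by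
    have e : tr (B * (A * B)) = tr (B * (B * A)) := by
      rw [tr_mul_comm]
      rw [show A * B * B = (A * B) * B by group, tr_mul_comm, tr_mul_comm B (A * B),
        show A * B * B = A * (B * B) by group, tr_mul_comm]
      congr 1; group
    rw [e, tr_sq_mul, tr_mul_comm B A]
  have h5 : tr (B * (A * B) * A) = tr (A * B) ^ 2 - 2 := by
    have e : tr (B * (A * B) * A) = tr ((A * B) * ((A * B) * 1)) := by
      rw [tr_mul_comm]; congr 1; group
    rw [e, tr_sq_mul, mul_one, tr_one]; ring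
  rw [h1, h2, h3, h4, h5, tr_conj]
  ring

theorem cube_eq_one {M : SL2} (h : tr M = -1) : M ^ 3 = 1 := by
  apply sl_ext
  have e : (M ^ 3).1 = M.1 * M.1 * M.1 := by
    rw [pow_succ, pow_two]; rfl
  rw [e, sq_eq, h, sub_mul, smul_mul_assoc, one_mul, sq_eq, h]
  have : ((1 : SL2)).1 = (1 : Matrix (Fin 2) (Fin 2) ℂ) := rfl
  rw [this]
  module

/-- the Markov type polynomial -/
def mk3 (w : ℂ × ℂ × ℂ) : ℂ := w.1 ^ 2 + w.2.1 ^ 2 + w.2.2 ^ 2 - w.1 * w.2.1 * w.2.2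

/-- all coordinates are real -/
def Re3 (w : ℂ × ℂ × ℂ) : Prop := w.1.im = 0 ∧ w.2.1.im = 0 ∧ w.2.2.im = 0

/-- representation with given matrices -/
def repOf (A B : SL2) (h : tr (cm A B) = -1) : Orb →* SL2 := Orb.hom A B (cube_eq_one h)

@[simp] theorem repOf_a (A B : SL2) (h : tr (cm A B) = -1) : repOf A B h Orb.a = A :=
  Orb.hom_a _ _ _

@[simp] theorem repOf_b (A B : SL2) (h : tr (cm A B) = -1) : repOf A B h Orb.b = B :=
  Orb.hom_b _ _ _

theorem crd_repOf (A B : SL2) (h : tr (cm A B) = -1) :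
    crd (repOf A B h) = (tr A, tr B, tr (A * B)) := by
  simp [crd, map_mul]

theorem exists_rep (w : ℂ × ℂ × ℂ) (h : mk3 w = 1) : ∃ ρ : Orb →* SL2, crd ρ = w := by
  obtain ⟨x, y, z⟩ := w
  obtain ⟨u, hu0, hu⟩ : ∃ u : ℂ, u ≠ 0 ∧ u + u⁻¹ = z := by
    obtain ⟨s, hs⟩ : ∃ s : ℂ, s ^ 2 = z ^ 2 - 4 := by
      obtain ⟨s, hs⟩ := IsAlgClosed.exists_pow_nat_eq (z ^ 2 - 4) (n := 2) (by norm_num)
      exact ⟨s, hs⟩
    have hp : ((z + s) / 2) * ((z - s) / 2) = 1 := by linear_combination (-1 / 4) * hs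
    have h0 : (z + s) / 2 ≠ 0 := left_ne_zero_of_mul_eq_one hp
    refine ⟨(z + s) / 2, h0, ?_⟩
    have : ((z + s) / 2)⁻¹ = (z - s) / 2 := inv_eq_of_mul_eq_one_right hp
    rw [this]; ring
  let A : SL2 := ⟨!![x, -1; 1, 0], by simp [Matrix.det_fin_two]⟩
  let B : SL2 := ⟨!![0, u⁻¹; -u, y], by simp [Matrix.det_fin_two, hu0]⟩
  have hA : tr A = x := by simp [tr, A, Matrix.trace_fin_two]
  have hB : tr B = y := by simp [tr, B, Matrix.trace_fin_two]
  have hAB : tr (A * B) = z := by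
    rw [← hu]
    simp [tr, A, B, Matrix.trace_fin_two]
  have hc : tr (cm A B) = -1 := by
    rw [tr_cm, hA, hB, hAB]
    simp only [mk3] at h
    linear_combination h
  refine ⟨repOf A B hc, ?_⟩
  rw [crd_repOf, hA, hB, hAB]

namespace Orb

theorem conj_cube {G : Type*} [Group G] {x y : G} (g : G) (h : y ^ 3 = 1) (e : x = g * y * g⁻¹) :
    x ^ 3 = 1 := by
  rw [e, conj_pow, h]; simp

theorem inv_cube {G : Type*} [Group G] {x y : G} (h : y ^ 3 = 1) (e : x = y⁻¹) :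
    x ^ 3 = 1 := by
  rw [e, inv_pow, h, inv_one]

/-- underlying homomorphism of the twist -/
def Dh : Orb →* Orb := hom a (a * b) (conj_cube a rel (by simp only [cm]; group))
/-- its inverse -/
def Dh' : Orb →* Orb := hom a (a⁻¹ * b) (conj_cube a⁻¹ rel (by simp only [cm]; group))
/-- underlying homomorphism of `F` -/
def Fh : Orb →* Orb := hom b (a * b) (inv_cube rel (by simp only [cm]; group))
/-- its inverse -/
def Fh' : Orb →* Orb := hom (b * a⁻¹) a (inv_cube rel (by simp only [cm]; group))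
/-- underlying homomorphism of the swap -/
def Sh : Orb →* Orb := hom b a (inv_cube rel (by simp only [cm]; group))

theorem Dh_a : Dh a = a := hom_a _ _ _
theorem Dh_b : Dh b = a * b := hom_b _ _ _
theorem Dh'_a : Dh' a = a := hom_a _ _ _
theorem Dh'_b : Dh' b = a⁻¹ * b := hom_b _ _ _
theorem Fh_a : Fh a = b := hom_a _ _ _
theorem Fh_b : Fh b = a * b := hom_b _ _ _
theorem Fh'_a : Fh' a = b * a⁻¹ := hom_a _ _ _
theorem Fh'_b : Fh' b = a := hom_b _ _ _
theorem Sh_a : Sh a = b := hom_a _ _ _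
theorem Sh_b : Sh b = a := hom_b _ _ _

/-- the twist `a ↦ a, b ↦ a b` -/
def D : MulAut Orb := MonoidHom.toMulEquiv Dh Dh'
  (hom_ext (by simp [Dh_a, Dh'_a]) (by simp [Dh_b, Dh'_b, Dh'_a]))
  (hom_ext (by simp [Dh_a, Dh'_a]) (by simp [Dh_b, Dh'_b, Dh_a]))

/-- `a ↦ b, b ↦ a b` -/
def F : MulAut Orb := MonoidHom.toMulEquiv Fh Fh'
  (hom_ext (by simp [Fh_a, Fh'_b]) (by simp [Fh_b, Fh'_b, Fh'_a]))
  (hom_ext (by simp [Fh_a, Fh'_a, Fh_b]) (by simp [Fh_a, Fh'_b]))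

/-- the swap `a ↔ b` -/
def S : MulAut Orb := MonoidHom.toMulEquiv Sh Sh
  (hom_ext (by simp [Sh_a, Sh_b]) (by simp [Sh_a, Sh_b]))
  (hom_ext (by simp [Sh_a, Sh_b]) (by simp [Sh_a, Sh_b]))

theorem D_a : D a = a := Dh_a
theorem D_b : D b = a * b := Dh_b
theorem F_a : F a = b := Fh_a
theorem F_b : F b = a * b := Fh_b
theorem Finv_a : F⁻¹ a = b * a⁻¹ := Fh'_a
theorem Finv_b : F⁻¹ b = a := Fh'_b
theorem S_a : S a = b := Sh_a
theorem S_b : S b = a := Sh_b

end Orb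

/-- `P` is the action of the automorphism `g` on trace coordinates -/
structure Adm (g : MulAut Orb) (P : ℂ × ℂ × ℂ → ℂ × ℂ × ℂ) : Prop where
  crd : ∀ ρ : Orb →* SL2, crd (ρ.comp g.toMonoidHom) = P (crd ρ)
  diff : Differentiable ℂ P
  inv : ∀ w, mk3 (P w) = mk3 w
  real : ∀ w, Re3 w → Re3 (P w)

theorem Adm.mul {g h : MulAut Orb} {P Q : ℂ × ℂ × ℂ → ℂ × ℂ × ℂ} (hP : Adm g P) (hQ : Adm h Q) :
    Adm (g * h) (Q ∘ P) where
  crd ρ := by
    have e : ρ.comp (g * h : MulAut Orb).toMonoidHom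
        = (ρ.comp g.toMonoidHom).comp h.toMonoidHom := rfl
    rw [e, hQ.crd, hP.crd]; rfl
  diff := hQ.diff.comp hP.diff
  inv w := by rw [Function.comp, hQ.inv, hP.inv]
  real w hw := hQ.real _ (hP.real _ hw)

theorem Adm.one : Adm 1 id where
  crd ρ := rfl
  diff := differentiable_id
  inv _ := rfl
  real _ h := h

theorem Adm.pow {g : MulAut Orb} {P : ℂ × ℂ × ℂ → ℂ × ℂ × ℂ} (hP : Adm g P) (n : ℕ) :
    Adm (g ^ n) (P^[n]) := by
  induction n with
  | zero => exact Adm.one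
  | succ n ih => rw [pow_succ, Function.iterate_succ']; exact ih.mul hP

/-- action of the twist -/
def PD (w : ℂ × ℂ × ℂ) : ℂ × ℂ × ℂ := (w.1, w.2.2, w.1 * w.2.2 - w.2.1)
/-- action of `F` -/
def PF (w : ℂ × ℂ × ℂ) : ℂ × ℂ × ℂ := (w.2.1, w.2.2, w.2.1 * w.2.2 - w.1)
/-- action of `F⁻¹` -/
def PG (w : ℂ × ℂ × ℂ) : ℂ × ℂ × ℂ := (w.1 * w.2.1 - w.2.2, w.1, w.2.1)
/-- action of the swap -/
def PS (w : ℂ × ℂ × ℂ) : ℂ × ℂ × ℂ := (w.2.1, w.1, w.2.2)

theorem PG_PF (w : ℂ × ℂ × ℂ) : PG (PF w) = w := by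
  obtain ⟨x, y, z⟩ := w
  simp [PG, PF]

theorem PF_PG (w : ℂ × ℂ × ℂ) : PF (PG w) = w := by
  obtain ⟨x, y, z⟩ := w
  simp [PG, PF]

theorem tr_bab (A B : SL2) : tr (B * (A * B)) = tr B * tr (A * B) - tr A := by
  have e : tr (B * (A * B)) = tr (B * (B * A)) := by
    rw [tr_mul_comm, show A * B * B = A * (B * B) by group, tr_mul_comm]
    congr 1; group
  rw [e, tr_sq_mul, tr_mul_comm B A]

theorem adm_D : Adm Orb.D PD where
  crd ρ := by
    have h : ∀ x, ρ.comp Orb.D.toMonoidHom x = ρ (Orb.D x) := fun x => rfl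
    simp only [crd, h, PD, map_mul, Orb.D_a, Orb.D_b, tr_sq_mul]
  diff := by unfold PD; fun_prop
  inv w := by simp only [mk3, PD]; ring
  real w hw := by
    obtain ⟨h1, h2, h3⟩ := hw
    refine ⟨h1, h3, ?_⟩
    simp [PD, h1, h2, h3]

theorem adm_F : Adm Orb.F PF where
  crd ρ := by
    have h : ∀ x, ρ.comp Orb.F.toMonoidHom x = ρ (Orb.F x) := fun x => rfl
    simp only [crd, h, PF, map_mul, Orb.F_a, Orb.F_b, tr_bab]
  diff := by unfold PF; fun_prop
  inv w := by simp only [mk3, PF]; ring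
  real w hw := by
    obtain ⟨h1, h2, h3⟩ := hw
    refine ⟨h2, h3, ?_⟩
    simp [PF, h1, h2, h3]

theorem adm_G : Adm Orb.F⁻¹ PG where
  crd ρ := by
    have h : ∀ x, ρ.comp (Orb.F⁻¹ : MulAut Orb).toMonoidHom x = ρ (Orb.F⁻¹ x) := fun x => rfl
    simp only [crd, h, PG, map_mul, Orb.Finv_a, Orb.Finv_b, map_inv]
    rw [tr_mul_inv, tr_mul_comm (ρ Orb.b) (ρ Orb.a), inv_mul_cancel_right]
    refine Prod.ext ?_ rfl
    ring
  diff := by unfold PG; fun_prop
  inv w := by simp only [mk3, PG]; ring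
  real w hw := by
    obtain ⟨h1, h2, h3⟩ := hw
    refine ⟨?_, h1, h2⟩
    simp [PG, h1, h2, h3]

theorem adm_S : Adm Orb.S PS where
  crd ρ := by
    have h : ∀ x, ρ.comp Orb.S.toMonoidHom x = ρ (Orb.S x) := fun x => rfl
    simp only [crd, h, PS, map_mul, Orb.S_a, Orb.S_b]
    rw [tr_mul_comm]
  diff := by unfold PS; fun_prop
  inv w := by simp only [mk3, PS]; ring
  real w hw := ⟨hw.2.1, hw.1, hw.2.2⟩

/-- a real point of the surface never has first coordinate `2` -/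
theorem real_ne_two {w : ℂ × ℂ × ℂ} (h : mk3 w = 1) (hr : Re3 w) : w.1 ≠ 2 := by
  intro h2
  obtain ⟨x, y, z⟩ := w
  obtain ⟨_, hy, hz⟩ := hr
  simp only at hy hz h2
  have e : (y - z) ^ 2 = -3 := by
    simp only [mk3, h2] at h
    linear_combination h
  have e1 := congrArg Complex.re e
  simp only [pow_two, Complex.mul_re, Complex.sub_re, Complex.sub_im, hy, hz] at e1
  norm_num at e1
  nlinarith [mul_self_nonneg (y.re - z.re)]

end Pool.Agent.Y473.MC
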