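import Pool.Agent.Y473.MC.Orient
import Pool.Agent.Y473.MC.Auto

/-!
# Surface groups as finite index subgroups of `Orb`
-/

namespace Pool.Agent.Y473.MC

open Equiv MulOpposite

/-- permutation of `K × X` -/
def wr {K X : Type*} [Group K] (c : X → K) (σ : Equiv.Perm X) : Equiv.Perm (K × X) where
  toFun p := (p.1 * c p.2, σ p.2)
  invFun p := (p.1 * (c (σ.symm p.2))⁻¹, σ.symm p.2)
  left_inv := by rintro ⟨h, x⟩; simp
  right_inv := by rintro ⟨h, x⟩; simp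

theorem wr_apply {K X : Type*} [Group K] (c : X → K) (σ : Equiv.Perm X) (h : K) (x : X) :
    wr c σ (h, x) = (h * c x, σ x) := rfl

theorem wr_inv_apply {K X : Type*} [Group K] (c : X → K) (σ : Equiv.Perm X) (h : K) (x : X) :
    (wr c σ)⁻¹ (h, x) = (h * (c (σ.symm x))⁻¹, σ.symm x) := rfl

theorem inj_of_action {G K X : Type*} [Group G] [Group K] (j : K →* G)
    (Φ : G →* (Equiv.Perm (K × X))ᵐᵒᵖ) (x0 : X) (S : Set K) (hS : Subgroup.closure S = ⊤)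
    (h : ∀ s ∈ S, ∀ k, (Φ (j s)).unop (k, x0) = (k * s, x0)) : Function.Injective j := by
  have key : ∀ γ : K, ∀ k, (Φ (j γ)).unop (k, x0) = (k * γ, x0) := by
    intro γ
    have hγ : γ ∈ Subgroup.closure S := by rw [hS]; trivial
    induction hγ using Subgroup.closure_induction with
    | mem x hx => exact h x hx
    | one => intro k; simp
    | mul x y _ _ hx hy =>
      intro k
      rw [map_mul, map_mul, MulOpposite.unop_mul, Equiv.Perm.mul_apply, hx, hy, mul_assoc]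
    | inv x _ hx =>
      intro k
      rw [map_inv, map_inv, MulOpposite.unop_inv, Equiv.Perm.inv_eq_iff_eq, hx]
      simp
  rw [injective_iff_map_eq_one]
  intro γ hγ
  have h1 := key γ 1
  rw [hγ, map_one] at h1
  have h2 := congrArg Prod.fst h1
  simpa using h2.symm

theorem finiteIndex_of {G : Type*} [Group G] (R : Subgroup G) (S : Set G)
    (hS : Subgroup.closure S = ⊤) (A : Set (G ⧸ R)) (hA : A.Finite) (hne : A.Nonempty)
    (h : ∀ s ∈ S, ∀ x ∈ A, s • x ∈ A) : R.FiniteIndex := by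
  have key : ∀ g : G, ∀ x : G ⧸ R, g • x ∈ A ↔ x ∈ A := by
    intro g
    have hg : g ∈ Subgroup.closure S := by rw [hS]; trivial
    induction hg using Subgroup.closure_induction with
    | mem s hs =>
      intro x
      refine ⟨fun hx => ?_, h s hs x⟩
      have hmap : Set.MapsTo (fun y : G ⧸ R => s • y) A A := fun y hy => h s hs y hy
      have : Finite A := hA.to_subtype
      have hf : Function.Injective hmap.restrict :=
        (Set.MapsTo.restrict_inj hmap).mpr (MulAction.injective s).injOn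
      obtain ⟨⟨y, hy⟩, hxy⟩ := Finite.surjective_of_injective hf ⟨s • x, hx⟩
      have hxy' : s • y = s • x := congrArg Subtype.val hxy
      have : y = x := MulAction.injective s hxy'
      rw [← this]; exact hy
    | one => intro x; simp
    | mul a b _ _ ha hb => intro x; rw [mul_smul, ha, hb]
    | inv a _ ha => intro x; rw [← ha, smul_inv_smul]
  obtain ⟨x0, hx0⟩ := hne
  have huniv : A = Set.univ := by
    rw [Set.eq_univ_iff_forall]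
    intro x
    obtain ⟨g, hg⟩ := MulAction.exists_smul_eq G x0 x
    rw [← hg, key]
    exact hx0
  rw [huniv] at hA
  have : Finite (G ⧸ R) := Set.finite_univ_iff.mp hA
  exact Subgroup.finiteIndex_of_finite_quotient

theorem Orb.closure_gen : Subgroup.closure ({Orb.a, Orb.b} : Set Orb) = ⊤ := by
  have h := PresentedGroup.closure_range_of ({oRel} : Set (FreeGroup Bool))
  rw [← h]
  congr 1
  ext x
  simp only [Set.mem_insert_iff, Set.mem_singleton_iff, Set.mem_range, Bool.exists_bool]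
  constructor
  · rintro (rfl | rfl)
    · left; rfl
    · right; rfl
  · rintro (h | h)
    · left; exact h.symm
    · right; exact h.symm

/-- images of the generators -/
def u2 (x : Gen 2) : Orb :=
  ![cond x.2 (Orb.b⁻¹ * Orb.a * Orb.b * Orb.a⁻¹ * Orb.a⁻¹) (Orb.a * Orb.b * Orb.a⁻¹),
    cond x.2 (Orb.b * Orb.b) (Orb.b⁻¹ * Orb.a * Orb.b)] x.1

/-- the embedding of the genus two surface group as a subgroup of index three -/
def j2 : Surf 2 →* Orb := Surf.hom u2 (by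
  rw [List.ofFn_succ, List.ofFn_succ, List.ofFn_zero]
  have h := Orb.rel
  simp only [List.prod_cons, List.prod_nil, mul_one]
  show cm (Orb.a * Orb.b * Orb.a⁻¹) (Orb.b⁻¹ * Orb.a * Orb.b * Orb.a⁻¹ * Orb.a⁻¹) *
    cm (Orb.b⁻¹ * Orb.a * Orb.b) (Orb.b * Orb.b) = 1
  rw [pow_succ, pow_two] at h
  rw [← h]
  simp only [cm]
  group)

theorem j2_gen (x : Gen 2) : j2 (Surf.gen x) = u2 x := Surf.hom_gen _ _ _

/-- standard generators of the genus two group -/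
def A1 : Surf 2 := Surf.gen (0, false)
/-- standard generators of the genus two group -/
def B1 : Surf 2 := Surf.gen (0, true)
/-- standard generators of the genus two group -/
def A2 : Surf 2 := Surf.gen (1, false)
/-- standard generators of the genus two group -/
def B2 : Surf 2 := Surf.gen (1, true)

theorem rel2 : cm A1 B1 * cm A2 B2 = 1 := by
  have h := Surf.rel 2
  rw [List.ofFn_succ, List.ofFn_succ, List.ofFn_zero] at h
  simp only [List.prod_cons, List.prod_nil, mul_one] at h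
  exact h

/-- transposition -/
def s01 : Equiv.Perm (Fin 3) := ⟨![1, 0, 2], ![1, 0, 2], by decide, by decide⟩
/-- transposition -/
def s02 : Equiv.Perm (Fin 3) := ⟨![2, 1, 0], ![2, 1, 0], by decide, by decide⟩

/-- right multiplication by `a` -/
def ra : Equiv.Perm (Surf 2 × Fin 3) := wr ![1, B1⁻¹ * A2, B2 * A2 * B2⁻¹] s01
/-- right multiplication by `b` -/
def rb : Equiv.Perm (Surf 2 × Fin 3) := wr ![1, A1, B2] s02

theorem ra_0 (h : Surf 2) : ra (h, 0) = (h, 1) := by rw [ra, wr_apply]; simp [s01]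
theorem ra_1 (h : Surf 2) : ra (h, 1) = (h * (B1⁻¹ * A2), 0) := by
  rw [ra, wr_apply]; simp [s01]
theorem ra_2 (h : Surf 2) : ra (h, 2) = (h * (B2 * A2 * B2⁻¹), 2) := by
  rw [ra, wr_apply]; simp [s01]
theorem rai_0 (h : Surf 2) : ra⁻¹ (h, 0) = (h * (B1⁻¹ * A2)⁻¹, 1) := by
  rw [Equiv.Perm.inv_eq_iff_eq, ra_1, inv_mul_cancel_right]
theorem rai_1 (h : Surf 2) : ra⁻¹ (h, 1) = (h, 0) := by
  rw [Equiv.Perm.inv_eq_iff_eq, ra_0]
theorem rai_2 (h : Surf 2) : ra⁻¹ (h, 2) = (h * (B2 * A2 * B2⁻¹)⁻¹, 2) := by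
  rw [Equiv.Perm.inv_eq_iff_eq, ra_2, inv_mul_cancel_right]
theorem rb_0 (h : Surf 2) : rb (h, 0) = (h, 2) := by rw [rb, wr_apply]; simp [s02]
theorem rb_1 (h : Surf 2) : rb (h, 1) = (h * A1, 1) := by rw [rb, wr_apply]; simp [s02]
theorem rb_2 (h : Surf 2) : rb (h, 2) = (h * B2, 0) := by rw [rb, wr_apply]; simp [s02]
theorem rbi_0 (h : Surf 2) : rb⁻¹ (h, 0) = (h * B2⁻¹, 2) := by
  rw [Equiv.Perm.inv_eq_iff_eq, rb_2]; simp
theorem rbi_1 (h : Surf 2) : rb⁻¹ (h, 1) = (h * A1⁻¹, 1) := by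
  rw [Equiv.Perm.inv_eq_iff_eq, rb_1]; simp
theorem rbi_2 (h : Surf 2) : rb⁻¹ (h, 2) = (h, 0) := by
  rw [Equiv.Perm.inv_eq_iff_eq, rb_0]

theorem rc_cube : (rb⁻¹ * ra⁻¹ * rb * ra) ^ 3 = 1 := by
  have c0 : ∀ h, (rb⁻¹ * ra⁻¹ * rb * ra) (h, 0) = (h * A1 * B2⁻¹, 2) := by
    intro h
    simp only [Equiv.Perm.mul_apply, ra_0, rb_1, rai_1, rbi_0]
  have c1 : ∀ h, (rb⁻¹ * ra⁻¹ * rb * ra) (h, 1) =
      (h * (B1⁻¹ * A2) * (B2 * A2 * B2⁻¹)⁻¹, 0) := by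
    intro h
    simp only [Equiv.Perm.mul_apply, ra_1, rb_0, rai_2, rbi_2]
  have c2 : ∀ h, (rb⁻¹ * ra⁻¹ * rb * ra) (h, 2) =
      (h * (B2 * A2 * B2⁻¹) * B2 * (B1⁻¹ * A2)⁻¹ * A1⁻¹, 1) := by
    intro h
    simp only [Equiv.Perm.mul_apply, ra_2, rb_2, rai_0, rbi_1]
  have hr := rel2
  have e0 : A1 * B2⁻¹ * (B2 * A2 * B2⁻¹) * B2 * (B1⁻¹ * A2)⁻¹ * A1⁻¹ * (B1⁻¹ * A2) *
      (B2 * A2 * B2⁻¹)⁻¹ = 1 := by
    rw [← hr]; simp only [cm]; group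
  have e1 : (B1⁻¹ * A2) * (B2 * A2 * B2⁻¹)⁻¹ * A1 * B2⁻¹ * (B2 * A2 * B2⁻¹) * B2 *
      (B1⁻¹ * A2)⁻¹ * A1⁻¹ = 1 := by
    have : (B1⁻¹ * A2) * (B2 * A2 * B2⁻¹)⁻¹ * A1 * B2⁻¹ * (B2 * A2 * B2⁻¹) * B2 *
      (B1⁻¹ * A2)⁻¹ * A1⁻¹ = ((B1⁻¹ * A2) * (B2 * A2 * B2⁻¹)⁻¹) * (A1 * B2⁻¹ *
      (B2 * A2 * B2⁻¹) * B2 * (B1⁻¹ * A2)⁻¹ * A1⁻¹ * (B1⁻¹ * A2) *
      (B2 * A2 * B2⁻¹)⁻¹) * ((B1⁻¹ * A2) * (B2 * A2 * B2⁻¹)⁻¹)⁻¹ := by group
    rw [this, e0]; group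
  have e2 : (B2 * A2 * B2⁻¹) * B2 * (B1⁻¹ * A2)⁻¹ * A1⁻¹ * (B1⁻¹ * A2) *
      (B2 * A2 * B2⁻¹)⁻¹ * A1 * B2⁻¹ = 1 := by
    have : (B2 * A2 * B2⁻¹) * B2 * (B1⁻¹ * A2)⁻¹ * A1⁻¹ * (B1⁻¹ * A2) *
      (B2 * A2 * B2⁻¹)⁻¹ * A1 * B2⁻¹ = (A1 * B2⁻¹)⁻¹ * (A1 * B2⁻¹ *
      (B2 * A2 * B2⁻¹) * B2 * (B1⁻¹ * A2)⁻¹ * A1⁻¹ * (B1⁻¹ * A2) *
      (B2 * A2 * B2⁻¹)⁻¹) * (A1 * B2⁻¹) := by group
    rw [this, e0]; group
  ext1 ⟨h, i⟩
  rw [pow_succ, pow_two, Equiv.Perm.mul_apply, Equiv.Perm.mul_apply, Equiv.Perm.one_apply]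
  fin_cases i
  · show (rb⁻¹ * ra⁻¹ * rb * ra) ((rb⁻¹ * ra⁻¹ * rb * ra) ((rb⁻¹ * ra⁻¹ * rb * ra) (h, 0))) = (h, 0)
    rw [c0, c2, c1]
    refine Prod.ext ?_ rfl
    simp only [mul_assoc] at e0 ⊢
    rw [e0, mul_one]
  · show (rb⁻¹ * ra⁻¹ * rb * ra) ((rb⁻¹ * ra⁻¹ * rb * ra) ((rb⁻¹ * ra⁻¹ * rb * ra) (h, 1))) = (h, 1)
    rw [c1, c0, c2]
    refine Prod.ext ?_ rfl
    simp only [mul_assoc] at e1 ⊢
    rw [e1, mul_one]
  · show (rb⁻¹ * ra⁻¹ * rb * ra) ((rb⁻¹ * ra⁻¹ * rb * ra) ((rb⁻¹ * ra⁻¹ * rb * ra) (h, 2))) = (h, 2)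
    rw [c2, c1, c0]
    refine Prod.ext ?_ rfl
    simp only [mul_assoc] at e2 ⊢
    rw [e2, mul_one]

/-- the action of `Orb` -/
def Φ2 : Orb →* (Equiv.Perm (Surf 2 × Fin 3))ᵐᵒᵖ := Orb.hom (op ra) (op rb) (by
  have h : cm (op ra) (op rb) = op (rb⁻¹ * ra⁻¹ * rb * ra) := by
    simp only [cm, ← op_inv, ← op_mul, mul_assoc]
  rw [h, ← op_pow, rc_cube, op_one])

theorem Φ2_a : Φ2 Orb.a = op ra := Orb.hom_a _ _ _
theorem Φ2_b : Φ2 Orb.b = op rb := Orb.hom_b _ _ _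

theorem j2_injective : Function.Injective j2 := by
  refine inj_of_action j2 Φ2 0 _ (Surf.closure_gen 2) ?_
  rintro s ⟨⟨i, c⟩, rfl⟩ k
  rw [j2_gen]
  fin_cases i <;> cases c
  · show (Φ2 (Orb.a * Orb.b * Orb.a⁻¹)).unop (k, 0) = (k * A1, 0)
    simp only [map_mul, map_inv, Φ2_a, Φ2_b, ← op_inv, ← op_mul, unop_op, Equiv.Perm.mul_apply,
      ra_0, rb_1, rai_1]
  · show (Φ2 (Orb.b⁻¹ * Orb.a * Orb.b * Orb.a⁻¹ * Orb.a⁻¹)).unop (k, 0) = (k * B1, 0)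
    simp only [map_mul, map_inv, Φ2_a, Φ2_b, ← op_inv, ← op_mul, unop_op, Equiv.Perm.mul_apply,
      rbi_0, ra_2, rb_2, rai_0, rai_1]
    refine Prod.ext ?_ rfl
    simp only
    group
  · show (Φ2 (Orb.b⁻¹ * Orb.a * Orb.b)).unop (k, 0) = (k * A2, 0)
    simp only [map_mul, map_inv, Φ2_a, Φ2_b, ← op_inv, ← op_mul, unop_op, Equiv.Perm.mul_apply,
      rbi_0, ra_2, rb_2]
    refine Prod.ext ?_ rfl
    simp only
    group
  · show (Φ2 (Orb.b * Orb.b)).unop (k, 0) = (k * B2, 0)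
    simp only [map_mul, map_inv, Φ2_a, Φ2_b, ← op_inv, ← op_mul, unop_op, Equiv.Perm.mul_apply,
      rb_0, rb_2]

theorem smul_mk {G : Type*} [Group G] (R : Subgroup G) (g x : G) :
    g • (QuotientGroup.mk x : G ⧸ R) = QuotientGroup.mk (g * x) := rfl

theorem j2_finiteIndex : j2.range.FiniteIndex := by
  have hU : Orb.a * Orb.b * Orb.a⁻¹ ∈ j2.range := ⟨A1, j2_gen _⟩
  have hW : Orb.b⁻¹ * Orb.a * Orb.b * Orb.a⁻¹ * Orb.a⁻¹ ∈ j2.range := ⟨B1, j2_gen _⟩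
  have hA : Orb.b⁻¹ * Orb.a * Orb.b ∈ j2.range := ⟨A2, j2_gen _⟩
  have hQ : Orb.b * Orb.b ∈ j2.range := ⟨B2, j2_gen _⟩
  have hP : Orb.a * Orb.a ∈ j2.range := by
    have := mul_mem (inv_mem hW) hA
    have e : (Orb.b⁻¹ * Orb.a * Orb.b * Orb.a⁻¹ * Orb.a⁻¹)⁻¹ * (Orb.b⁻¹ * Orb.a * Orb.b) =
      Orb.a * Orb.a := by rw [← pow_two]; group
    rwa [e] at this
  have hV : Orb.b * Orb.a * Orb.b⁻¹ ∈ j2.range := by
    have := mul_mem (mul_mem hQ hA) (inv_mem hQ)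
    have e : Orb.b * Orb.b * (Orb.b⁻¹ * Orb.a * Orb.b) * (Orb.b * Orb.b)⁻¹ =
      Orb.b * Orb.a * Orb.b⁻¹ := by group
    rwa [e] at this
  refine finiteIndex_of j2.range _ Orb.closure_gen
    {QuotientGroup.mk 1, QuotientGroup.mk Orb.a⁻¹, QuotientGroup.mk Orb.b⁻¹} (by simp)
    (by simp) ?_
  intro s hs x hx
  have heq : ∀ x y : Orb, x⁻¹ * y ∈ j2.range → (QuotientGroup.mk x : Orb ⧸ j2.range) =
      QuotientGroup.mk y := fun x y h => QuotientGroup.eq.mpr h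
  simp only [Set.mem_insert_iff, Set.mem_singleton_iff] at hs hx ⊢
  rcases hs with rfl | rfl <;> rcases hx with rfl | rfl | rfl
  · right; left
    rw [smul_mk]
    apply heq
    have e : (Orb.a * 1)⁻¹ * Orb.a⁻¹ = (Orb.a * Orb.a)⁻¹ := by group
    rw [e]; exact inv_mem hP
  · left
    rw [smul_mk]
    apply heq
    have e : (Orb.a * Orb.a⁻¹)⁻¹ * 1 = 1 := by group
    rw [e]; exact one_mem _
  · right; right
    rw [smul_mk]
    apply heq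
    have e : (Orb.a * Orb.b⁻¹)⁻¹ * Orb.b⁻¹ = (Orb.b * Orb.a * Orb.b⁻¹)⁻¹ := by group
    rw [e]; exact inv_mem hV
  · right; right
    rw [smul_mk]
    apply heq
    have e : (Orb.b * 1)⁻¹ * Orb.b⁻¹ = (Orb.b * Orb.b)⁻¹ := by group
    rw [e]; exact inv_mem hQ
  · right; left
    rw [smul_mk]
    apply heq
    have e : (Orb.b * Orb.a⁻¹)⁻¹ * Orb.a⁻¹ = (Orb.a * Orb.b * Orb.a⁻¹)⁻¹ := by group
    rw [e]; exact inv_mem hU
  · left
    rw [smul_mk]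
    apply heq
    have e : (Orb.b * Orb.b⁻¹)⁻¹ * 1 = 1 := by group
    rw [e]; exact one_mem _

end Pool.Agent.Y473.MC
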