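import Pool.Agent.Y473.MC.Cover

/-!
# Surface groups as finite index subgroups of `Orb`: cyclic covers
-/

namespace Pool.Agent.Y473.MC

open Equiv MulOpposite

theorem cmA2B2 : cm A2 B2 = B1 * A1 * B1⁻¹ * A1⁻¹ := by
  have h := rel2
  have : cm A2 B2 = (cm A1 B1)⁻¹ * (cm A1 B1 * cm A2 B2) := by group
  rw [this, h]
  simp only [cm]
  group

theorem conj_cm {G : Type*} [Group G] (x y g : G) :
    cm (g * x * g⁻¹) (g * y * g⁻¹) = g * cm x y * g⁻¹ := by
  simp only [cm]; group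

theorem prod_conj {G : Type*} [Group G] (t b : G) (n : ℕ) :
    (List.ofFn fun i : Fin n => t ^ (i : ℕ) * (b * t * b⁻¹ * t⁻¹) * (t ^ (i : ℕ))⁻¹).prod =
      b * t ^ n * b⁻¹ * (t ^ n)⁻¹ := by
  induction n with
  | zero => simp
  | succ n ih =>
    rw [List.ofFn_succ', List.prod_concat]
    simp only [Fin.val_castSucc, Fin.val_last]
    rw [ih, pow_succ, mul_inv_rev]
    simp only [mul_assoc, inv_mul_cancel_left]

/-- images of the generators -/
def uc (m : ℕ) (x : Gen (m + 2)) : Surf 2 :=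
  Fin.cases (motive := fun _ => Surf 2) (cond x.2 B1 (A1 ^ (m + 1)))
    (fun i => A1 ^ (i : ℕ) * (cond x.2 B2 A2) * (A1 ^ (i : ℕ))⁻¹) x.1

/-- the embedding of the genus `m+2` surface group in the genus two surface group -/
def cn (m : ℕ) : Surf (m + 2) →* Surf 2 := Surf.hom (uc m) (by
  rw [List.ofFn_succ, List.prod_cons]
  have h : (fun i : Fin (m + 1) => cm (uc m (i.succ, false)) (uc m (i.succ, true))) =
      fun i : Fin (m + 1) => A1 ^ (i : ℕ) * (B1 * A1 * B1⁻¹ * A1⁻¹) * (A1 ^ (i : ℕ))⁻¹ := by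
    funext i
    show cm (A1 ^ (i : ℕ) * A2 * (A1 ^ (i : ℕ))⁻¹) (A1 ^ (i : ℕ) * B2 * (A1 ^ (i : ℕ))⁻¹) = _
    rw [conj_cm, cmA2B2]
  rw [h, prod_conj]
  show cm (A1 ^ (m + 1)) B1 * _ = 1
  simp only [cm, mul_assoc, inv_mul_cancel_left, mul_inv_cancel_left, mul_inv_cancel])

theorem cn_gen (m : ℕ) (x : Gen (m + 2)) : cn m (Surf.gen x) = uc m x := Surf.hom_gen _ _ _

section
variable (m : ℕ)

/-- labels -/
def ct (k : Fin (m + 1)) : Surf (m + 2) := if k = Fin.last m then Surf.gen (0, false) else 1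

/-- commutators -/
def Cc (i : Fin (m + 1)) : Surf (m + 2) :=
  cm (Surf.gen (i.succ, false)) (Surf.gen (i.succ, true))

/-- labels -/
def Bn (k : ℕ) : Surf (m + 2) := ((List.ofFn (Cc m)).take k).prod⁻¹ * Surf.gen (0, true)

theorem Bn_succ (k : Fin (m + 1)) : Bn m (k + 1) = (Cc m k)⁻¹ * Bn m k := by
  unfold Bn
  have hk : (k : ℕ) < (List.ofFn (Cc m)).length := by rw [List.length_ofFn]; exact k.2
  rw [List.prod_take_succ _ _ hk, mul_inv_rev, mul_assoc]
  congr 3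
  rw [List.getElem_ofFn]

theorem Bn_zero : Bn m 0 = Surf.gen (0, true) := by simp [Bn]

theorem Bn_all : Bn m (m + 1) = Surf.gen (0, false) * Surf.gen (0, true) *
    (Surf.gen (0, false))⁻¹ := by
  have h := Surf.rel (m + 2)
  rw [List.ofFn_succ, List.prod_cons] at h
  have h1 : (List.ofFn (Cc m)).take (m + 1) = List.ofFn (Cc m) := by
    rw [List.take_of_length_le]
    rw [List.length_ofFn]
  have h2 : cm (Surf.gen (0, false)) (Surf.gen (0, true)) * (List.ofFn (Cc m)).prod = 1 := h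
  unfold Bn
  rw [h1, ← eq_inv_of_mul_eq_one_left h2]
  simp only [cm]
  group

/-- right multiplications -/
def rT : Equiv.Perm (Surf (m + 2) × Fin (m + 1)) := wr (ct m) (finRotate (m + 1))
/-- right multiplications -/
def rB : Equiv.Perm (Surf (m + 2) × Fin (m + 1)) := wr (fun k => Bn m k) 1
/-- right multiplications -/
def rC (c : Bool) : Equiv.Perm (Surf (m + 2) × Fin (m + 1)) :=
  wr (fun k => Surf.gen (k.succ, c)) 1

theorem rT_apply (h : Surf (m + 2)) (k : Fin (m + 1)) :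
    rT m (h, k) = (h * ct m k, finRotate (m + 1) k) := rfl
theorem rT_inv (h : Surf (m + 2)) (k : Fin (m + 1)) :
    (rT m)⁻¹ (h, finRotate (m + 1) k) = (h * (ct m k)⁻¹, k) := by
  rw [Equiv.Perm.inv_eq_iff_eq, rT_apply, inv_mul_cancel_right]
theorem rB_apply (h : Surf (m + 2)) (k : Fin (m + 1)) : rB m (h, k) = (h * Bn m k, k) := rfl
theorem rB_inv (h : Surf (m + 2)) (k : Fin (m + 1)) :
    (rB m)⁻¹ (h, k) = (h * (Bn m k)⁻¹, k) := rfl
theorem rC_apply (c : Bool) (h : Surf (m + 2)) (k : Fin (m + 1)) :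
    rC m c (h, k) = (h * Surf.gen (k.succ, c), k) := rfl
theorem rC_inv (c : Bool) (h : Surf (m + 2)) (k : Fin (m + 1)) :
    (rC m c)⁻¹ (h, k) = (h * (Surf.gen (k.succ, c))⁻¹, k) := rfl

theorem ct_ne {k : Fin (m + 1)} (h : k ≠ Fin.last m) : ct m k = 1 := if_neg h
theorem ct_last : ct m (Fin.last m) = Surf.gen (0, false) := if_pos rfl

theorem rTB (h : Surf (m + 2)) (k : Fin (m + 1)) :
    ((rB m)⁻¹ * (rT m)⁻¹ * rB m * rT m) (h, k) = (h * (Cc m k)⁻¹, k) := by
  simp only [Equiv.Perm.mul_apply, rT_apply, rB_apply, rT_inv, rB_inv]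
  refine Prod.ext ?_ rfl
  simp only
  have hs := Bn_succ m k
  by_cases hk : k = Fin.last m
  · subst hk
    rw [ct_last, finRotate_last, Fin.val_zero, Bn_zero]
    rw [Fin.val_last] at hs ⊢
    have h2 : Surf.gen (0, false) * Surf.gen (0, true) * (Surf.gen (0, false))⁻¹ =
        (Cc m (Fin.last m))⁻¹ * Bn m m := by rw [← hs, Bn_all]
    have h3 : h * Surf.gen (0, false) * Surf.gen (0, true) * (Surf.gen (0, false))⁻¹ * (Bn m m)⁻¹ =
        h * (Surf.gen (0, false) * Surf.gen (0, true) * (Surf.gen (0, false))⁻¹) * (Bn m m)⁻¹ := by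
      simp only [mul_assoc]
    rw [h3, h2]
    group
  · rw [ct_ne m hk, coe_finRotate_of_ne_last hk, hs]
    group

theorem rAB (h : Surf (m + 2)) (k : Fin (m + 1)) :
    ((rC m true)⁻¹ * (rC m false)⁻¹ * rC m true * rC m false) (h, k) = (h * Cc m k, k) := by
  simp only [Equiv.Perm.mul_apply, rC_apply, rC_inv]
  refine Prod.ext ?_ rfl
  simp only [Cc, cm, mul_assoc]

/-- the values of the action -/
def vc (x : Gen 2) : (Equiv.Perm (Surf (m + 2) × Fin (m + 1)))ᵐᵒᵖ :=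
  ![op (cond x.2 (rB m) (rT m)), op (rC m x.2)] x.1

/-- the action of the genus two group -/
def Φc : Surf 2 →* (Equiv.Perm (Surf (m + 2) × Fin (m + 1)))ᵐᵒᵖ := Surf.hom (vc m) (by
  rw [List.ofFn_succ, List.ofFn_succ, List.ofFn_zero]
  simp only [List.prod_cons, List.prod_nil, mul_one]
  show cm (op (rT m)) (op (rB m)) * cm (op (rC m false)) (op (rC m true)) = 1
  have h1 : cm (op (rT m)) (op (rB m)) = op ((rB m)⁻¹ * (rT m)⁻¹ * rB m * rT m) := by
    simp only [cm, ← op_inv, ← op_mul, mul_assoc]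
  have h2 : cm (op (rC m false)) (op (rC m true)) =
      op ((rC m true)⁻¹ * (rC m false)⁻¹ * rC m true * rC m false) := by
    simp only [cm, ← op_inv, ← op_mul, mul_assoc]
  rw [h1, h2, ← op_mul, ← op_one]
  congr 1
  ext1 ⟨h, k⟩
  rw [Equiv.Perm.mul_apply, rTB, rAB, inv_mul_cancel_right, Equiv.Perm.one_apply])

theorem Φc_gen (x : Gen 2) : Φc m (Surf.gen x) = vc m x := Surf.hom_gen _ _ _

theorem Φc_A1 : Φc m A1 = op (rT m) := Φc_gen m (0, false)
theorem Φc_B1 : Φc m B1 = op (rB m) := Φc_gen m (0, true)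
theorem Φc_A2 : Φc m A2 = op (rC m false) := Φc_gen m (1, false)
theorem Φc_B2 : Φc m B2 = op (rC m true) := Φc_gen m (1, true)

theorem rT_pow (h : Surf (m + 2)) (k : ℕ) (hk : k < m + 1) : (rT m ^ k) (h, 0) = (h, ⟨k, hk⟩) := by
  induction k with
  | zero => rfl
  | succ k ih =>
    have hk' : k < m := by omega
    rw [pow_succ', Equiv.Perm.mul_apply, ih (by omega), rT_apply, ct_ne, mul_one,
      finRotate_of_lt hk']
    intro hcon
    have := congrArg Fin.val hcon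
    simp only [Fin.val_last] at this
    omega

theorem rT_pow_last (h : Surf (m + 2)) : (rT m ^ (m + 1)) (h, 0) = (h * Surf.gen (0, false), 0) := by
  rw [pow_succ', Equiv.Perm.mul_apply, rT_pow m h m (by omega)]
  have : (⟨m, by omega⟩ : Fin (m + 1)) = Fin.last m := rfl
  rw [this, rT_apply, ct_last, finRotate_last]

theorem cn_injective : Function.Injective (cn m) := by
  refine inj_of_action (cn m) (Φc m) 0 _ (Surf.closure_gen (m + 2)) ?_
  rintro s ⟨⟨i, c⟩, rfl⟩ k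
  rw [cn_gen]
  refine Fin.cases ?_ (fun i => ?_) i
  · cases c
    · show (Φc m (A1 ^ (m + 1))).unop (k, 0) = _
      rw [map_pow, Φc_A1, ← op_pow, unop_op, rT_pow_last]
    · show (Φc m B1).unop (k, 0) = _
      rw [Φc_B1, unop_op, rB_apply, Fin.val_zero, Bn_zero]
  · have key : ∀ z : Surf 2, Φc m z = op (rC m c) → (Φc m (A1 ^ (i : ℕ) * z * (A1 ^ (i : ℕ))⁻¹)).unop
        (k, 0) = (k * Surf.gen (i.succ, c), 0) := by
      intro z hz
      rw [map_mul, map_mul, map_inv, map_pow, Φc_A1, hz]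
      simp only [← op_pow, ← op_inv, ← op_mul, unop_op, Equiv.Perm.mul_apply]
      rw [rT_pow m k i i.2, rC_apply, Equiv.Perm.inv_eq_iff_eq, rT_pow m _ i i.2]
    cases c
    · exact key A2 (Φc_A2 m)
    · exact key B2 (Φc_B2 m)

theorem cn_finiteIndex : (cn m).range.FiniteIndex := by
  have hT : A1 ^ (m + 1) ∈ (cn m).range := ⟨Surf.gen (0, false), cn_gen m _⟩
  have hB : B1 ∈ (cn m).range := ⟨Surf.gen (0, true), cn_gen m _⟩
  have hA : ∀ k : ℕ, k < m + 1 → A1 ^ k * A2 * (A1 ^ k)⁻¹ ∈ (cn m).range := fun k hk =>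
    ⟨Surf.gen ((⟨k, hk⟩ : Fin (m + 1)).succ, false), cn_gen m _⟩
  have hA' : ∀ k : ℕ, k < m + 1 → A1 ^ k * B2 * (A1 ^ k)⁻¹ ∈ (cn m).range := fun k hk =>
    ⟨Surf.gen ((⟨k, hk⟩ : Fin (m + 1)).succ, true), cn_gen m _⟩
  have hBk : ∀ k : ℕ, k < m + 1 → A1 ^ k * B1 * (A1 ^ k)⁻¹ ∈ (cn m).range := by
    intro k
    induction k with
    | zero => intro _; simpa using hB
    | succ k ih =>
      intro hk
      have h1 := ih (by omega)
      have h2 : A1 ^ k * cm A2 B2 * (A1 ^ k)⁻¹ ∈ (cn m).range := by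
        rw [← conj_cm]
        have a := hA k (by omega)
        have b := hA' k (by omega)
        exact mul_mem (mul_mem (mul_mem a b) (inv_mem a)) (inv_mem b)
      have h3 := mul_mem (inv_mem h2) h1
      have e : (A1 ^ k * cm A2 B2 * (A1 ^ k)⁻¹)⁻¹ * (A1 ^ k * B1 * (A1 ^ k)⁻¹) =
          A1 ^ (k + 1) * B1 * (A1 ^ (k + 1))⁻¹ := by
        rw [cmA2B2, pow_succ]
        group
      rwa [e] at h3
  refine finiteIndex_of (cn m).range _ (Surf.closure_gen 2)
    (Set.range fun k : Fin (m + 1) => (QuotientGroup.mk (A1 ^ (k : ℕ))⁻¹ : Surf 2 ⧸ (cn m).range))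
    (Set.finite_range _) (Set.range_nonempty _) ?_
  rintro s ⟨⟨i, c⟩, rfl⟩ x ⟨k, rfl⟩
  have heq : ∀ x y : Surf 2, x⁻¹ * y ∈ (cn m).range →
      (QuotientGroup.mk y : Surf 2 ⧸ (cn m).range) = QuotientGroup.mk x :=
    fun x y h => (QuotientGroup.eq.mpr h).symm
  have hfix : ∀ z : Surf 2, A1 ^ (k : ℕ) * z * (A1 ^ (k : ℕ))⁻¹ ∈ (cn m).range →
      z • (QuotientGroup.mk (A1 ^ (k : ℕ))⁻¹ : Surf 2 ⧸ (cn m).range) ∈
      Set.range fun k : Fin (m + 1) =>
        (QuotientGroup.mk (A1 ^ (k : ℕ))⁻¹ : Surf 2 ⧸ (cn m).range) := by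
    intro z hz
    refine ⟨k, ?_⟩
    simp only
    rw [smul_mk]
    apply heq
    have e : (z * (A1 ^ (k : ℕ))⁻¹)⁻¹ * (A1 ^ (k : ℕ))⁻¹ =
        (A1 ^ (k : ℕ) * z * (A1 ^ (k : ℕ))⁻¹)⁻¹ := by group
    rw [e]
    exact inv_mem hz
  fin_cases i <;> cases c
  · -- the letter `A1`
    show A1 • (QuotientGroup.mk (A1 ^ (k : ℕ))⁻¹ : Surf 2 ⧸ (cn m).range) ∈ _
    rcases Nat.eq_zero_or_pos (k : ℕ) with h0 | h0
    · refine ⟨Fin.last m, ?_⟩
      simp only [Fin.val_last]
      rw [smul_mk, h0]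
      apply heq
      have e : (A1 * (A1 ^ 0)⁻¹)⁻¹ * (A1 ^ m)⁻¹ = (A1 ^ (m + 1))⁻¹ := by
        rw [pow_zero, inv_one, mul_one, ← mul_inv_rev, ← pow_succ]
      rw [e]
      exact inv_mem hT
    · refine ⟨⟨(k : ℕ) - 1, by omega⟩, ?_⟩
      simp only
      rw [smul_mk]
      congr 1
      obtain ⟨j, hj⟩ : ∃ j, (k : ℕ) = j + 1 := ⟨(k : ℕ) - 1, by omega⟩
      rw [hj, Nat.add_sub_cancel, pow_succ, mul_inv_rev, mul_inv_cancel_left]
  · exact hfix B1 (hBk k k.2)
  · exact hfix A2 (hA k k.2)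
  · exact hfix B2 (hA' k k.2)

end

/-- injective with image of finite index -/
structure Nice {K G : Type*} [Group K] [Group G] (j : K →* G) : Prop where
  inj : Function.Injective j
  fin : j.range.FiniteIndex

theorem Nice.comp {K G H : Type*} [Group K] [Group G] [Group H] {f : G →* H} {j : K →* G}
    (hf : Nice f) (hj : Nice j) : Nice (f.comp j) where
  inj := hf.inj.comp hj.inj
  fin := by
    have h1 : (f.comp j).range = j.range.map f := MonoidHom.range_comp f j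
    rw [h1]
    constructor
    rw [Subgroup.index_map]
    have h2 := hf.fin.index_ne_zero
    have h3 := hj.fin
    have h4 : (j.range ⊔ f.ker).index ≠ 0 :=
      (Subgroup.finiteIndex_of_le (le_sup_left : j.range ≤ j.range ⊔ f.ker)).index_ne_zero
    exact mul_ne_zero h4 h2

theorem Nice.ofEquiv {G : Type*} [Group G] (θ : MulAut G) : Nice θ.toMonoidHom where
  inj := θ.injective
  fin := by
    have : θ.toMonoidHom.range = ⊤ := MonoidHom.range_eq_top.mpr θ.surjective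
    rw [this]
    infer_instance

/-- every surface group of genus at least two has a nice embedding in `Orb` -/
theorem exists_nice {g : ℕ} (hg : 2 ≤ g) : ∃ j : Surf g →* Orb, Nice j := by
  obtain ⟨m, rfl⟩ : ∃ m, g = m + 2 := ⟨g - 2, by omega⟩
  have h1 : Nice j2 := ⟨j2_injective, j2_finiteIndex⟩
  have h2 : Nice (cn m) := ⟨cn_injective m, cn_finiteIndex m⟩
  exact ⟨j2.comp (cn m), h1.comp h2⟩

end Pool.Agent.Y473.MC
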