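import Mathlib

/-!
# Positivity of roots for the Coxeter group of type `6, ∞`
-/

namespace Pool.Agent.Y473.MC

open CoxeterSystem

/-- the linear Coxeter diagram `0 -6- 1 -∞- 2` -/
def M3 : CoxeterMatrix (Fin 3) where
  M := !![1, 6, 2; 6, 1, 0; 2, 0, 1]

/-- the Coxeter group -/
abbrev W3 := M3.Group

/-- its Coxeter system -/
def cs3 : CoxeterSystem M3 W3 := M3.toCoxeterSystem

/-- vectors -/
abbrev V3 := ℝ × ℝ × ℝ

/-- reflections in coordinates -/
noncomputable def r3 (c : ℝ) (i : Fin 3) : V3 →ₗ[ℝ] V3 where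
  toFun v := ![(-v.1 + √3 * v.2.1, v.2.1, v.2.2),
    (v.1, -v.2.1 + √3 * v.1 + 2 * c * v.2.2, v.2.2),
    (v.1, v.2.1, -v.2.2 + 2 * c * v.2.1)] i
  map_add' v w := by
    obtain ⟨v1, v2, v3⟩ := v
    obtain ⟨w1, w2, w3⟩ := w
    fin_cases i <;> refine Prod.ext ?_ (Prod.ext ?_ ?_) <;> simp <;> ring
  map_smul' t v := by
    obtain ⟨v1, v2, v3⟩ := v
    fin_cases i <;> refine Prod.ext ?_ (Prod.ext ?_ ?_) <;> simp <;> ring

theorem r3_zero (c : ℝ) (v : V3) : r3 c 0 v = (-v.1 + √3 * v.2.1, v.2.1, v.2.2) := rfl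
theorem r3_one (c : ℝ) (v : V3) :
    r3 c 1 v = (v.1, -v.2.1 + √3 * v.1 + 2 * c * v.2.2, v.2.2) := rfl
theorem r3_two (c : ℝ) (v : V3) : r3 c 2 v = (v.1, v.2.1, -v.2.2 + 2 * c * v.2.1) := rfl

theorem sqrt3_sq : (√3 : ℝ) * √3 = 3 := Real.mul_self_sqrt (by norm_num)

theorem r3_sq (c : ℝ) (i : Fin 3) : r3 c i * r3 c i = 1 := by
  apply LinearMap.ext
  intro v
  obtain ⟨v1, v2, v3⟩ := v
  fin_cases i <;> refine Prod.ext ?_ (Prod.ext ?_ ?_) <;> simp [r3, Module.End.mul_apply] <;>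
    ring

theorem pow_swap {G : Type*} [Monoid G] {x y : G} (hy : y * y = 1) {n : ℕ}
    (h : (x * y) ^ n = 1) : (y * x) ^ n = 1 := by
  have h1 : (y * x) ^ n * y = y * (x * y) ^ n := by
    clear h
    induction n with
    | zero => simp
    | succ m ih => rw [pow_succ', pow_succ', mul_assoc, ih]; simp only [mul_assoc]
  calc (y * x) ^ n = (y * x) ^ n * (y * y) := by rw [hy, mul_one]
    _ = ((y * x) ^ n * y) * y := by rw [mul_assoc]
    _ = 1 := by rw [h1, h, mul_one, hy]

theorem r3_01 (c : ℝ) : (r3 c 0 * r3 c 1) ^ 6 = 1 := by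
  have h3 := sqrt3_sq
  have e1 : ∀ v, (r3 c 0 * r3 c 1) v = (2 * v.1 - √3 * v.2.1 + 2 * √3 * c * v.2.2,
      √3 * v.1 - v.2.1 + 2 * c * v.2.2, v.2.2) := by
    intro v
    rw [Module.End.mul_apply, r3_one, r3_zero]
    refine Prod.ext ?_ (Prod.ext ?_ rfl)
    · simp only; linear_combination v.1 * h3
    · simp only; ring
  have e2 : ∀ v, (r3 c 0 * r3 c 1) ((r3 c 0 * r3 c 1) v) =
      (v.1 - √3 * v.2.1 + 4 * √3 * c * v.2.2, √3 * v.1 - 2 * v.2.1 + 6 * c * v.2.2, v.2.2) := by
    intro v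
    rw [e1, e1]
    refine Prod.ext ?_ (Prod.ext ?_ rfl)
    · simp only; linear_combination (-v.1) * h3
    · simp only; linear_combination (-v.2.1 + 2 * c * v.2.2) * h3
  have e3 : ∀ v, (r3 c 0 * r3 c 1) ((r3 c 0 * r3 c 1) ((r3 c 0 * r3 c 1) v)) =
      (-v.1 + 4 * √3 * c * v.2.2, -v.2.1 + 8 * c * v.2.2, v.2.2) := by
    intro v
    rw [e2, e1]
    refine Prod.ext ?_ (Prod.ext ?_ rfl)
    · simp only; linear_combination (-v.1) * h3
    · simp only; linear_combination (-v.2.1 + 2 * c * v.2.2) * h3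
  have e6 : ∀ v, ((r3 c 0 * r3 c 1) ^ 3) v = (-v.1 + 4 * √3 * c * v.2.2,
      -v.2.1 + 8 * c * v.2.2, v.2.2) := by
    intro v
    rw [← e3 v, pow_succ, pow_succ, pow_one, Module.End.mul_apply, Module.End.mul_apply]
  have : (r3 c 0 * r3 c 1) ^ 6 = (r3 c 0 * r3 c 1) ^ 3 * (r3 c 0 * r3 c 1) ^ 3 := by
    rw [← pow_add]
  rw [this]
  apply LinearMap.ext
  intro v
  rw [Module.End.mul_apply, e6, e6, Module.End.one_apply]
  refine Prod.ext ?_ (Prod.ext ?_ rfl)
  · simp only; ring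
  · simp only; ring

theorem r3_02 (c : ℝ) : (r3 c 0 * r3 c 2) ^ 2 = 1 := by
  apply LinearMap.ext
  intro v
  rw [pow_two, Module.End.mul_apply, Module.End.mul_apply, Module.End.mul_apply, r3_two, r3_zero,
    r3_two, r3_zero, Module.End.one_apply]
  refine Prod.ext ?_ (Prod.ext rfl ?_)
  · simp only; ring
  · simp only; ring

theorem r3_liftable (c : ℝ) : M3.IsLiftable (r3 c) := by
  intro i j
  have h01 := r3_01 c
  have h10 := pow_swap (r3_sq c 1) h01
  have h02 := r3_02 c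
  have h20 := pow_swap (r3_sq c 2) h02
  have h0 : (r3 c 0 * r3 c 0) ^ 1 = 1 := by rw [pow_one]; exact r3_sq c 0
  have h1 : (r3 c 1 * r3 c 1) ^ 1 = 1 := by rw [pow_one]; exact r3_sq c 1
  have h2 : (r3 c 2 * r3 c 2) ^ 1 = 1 := by rw [pow_one]; exact r3_sq c 2
  fin_cases i <;> fin_cases j
  · exact h0
  · exact h01
  · exact h02
  · exact h10
  · exact h1
  · exact pow_zero _
  · exact h20
  · exact pow_zero _
  · exact h2

/-- the linear representation -/
noncomputable def L3 (c : ℝ) : W3 →* Module.End ℝ V3 := cs3.lift ⟨r3 c, r3_liftable c⟩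

theorem L3_simple (c : ℝ) (i : Fin 3) : L3 c (cs3.simple i) = r3 c i :=
  cs3.lift_apply_simple (r3_liftable c) i

/-- the basis -/
def b3 (i : Fin 3) : V3 := ![(1, 0, 0), (0, 1, 0), (0, 0, 1)] i

theorem b3_nonneg (i : Fin 3) : 0 ≤ b3 i := by
  fin_cases i <;> simp [b3, Prod.le_def]

/-- the coefficient in the rank two formulas -/
noncomputable def kap (c : ℝ) (i j : Fin 3) : ℝ :=
  (!![0, √3, 0; √3, 0, 2 * c; 0, 2 * c, 0] : Matrix (Fin 3) (Fin 3) ℝ) i j

theorem r3_comb (c : ℝ) (s t : Fin 3) (hst : s ≠ t) (α β : ℝ) :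
    r3 c t (α • b3 s + β • b3 t) = α • b3 s + (kap c s t * α - β) • b3 t := by
  fin_cases s <;> fin_cases t <;> simp [r3, b3, kap] at hst ⊢ <;> ring_nf

theorem r3_comb' (c : ℝ) (s t : Fin 3) (hst : s ≠ t) (α β : ℝ) :
    r3 c s (α • b3 s + β • b3 t) = (kap c s t * β - α) • b3 s + β • b3 t := by
  fin_cases s <;> fin_cases t <;> simp [r3, b3, kap] at hst ⊢ <;> ring_nf

/-- coefficients of alternating words -/
noncomputable def ab (κ : ℝ) : ℕ → ℝ × ℝ
  | 0 => (1, 0)
  | k + 1 => if Even k then ((ab κ k).1, κ * (ab κ k).1 - (ab κ k).2)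
      else (κ * (ab κ k).2 - (ab κ k).1, (ab κ k).2)

theorem ab_word (c : ℝ) (s t : Fin 3) (hst : s ≠ t) (k : ℕ) :
    L3 c (cs3.wordProd (alternatingWord s t k)) (b3 s) =
      (ab (kap c s t) k).1 • b3 s + (ab (kap c s t) k).2 • b3 t := by
  induction k with
  | zero => simp [ab, alternatingWord]
  | succ k ih =>
    rw [alternatingWord_succ', cs3.wordProd_cons, map_mul, Module.End.mul_apply, ih]
    by_cases hk : Even k
    · rw [if_pos hk, L3_simple, r3_comb c s t hst, ab, if_pos hk]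
    · rw [if_neg hk, L3_simple, r3_comb' c s t hst, ab, if_neg hk]

theorem ab_big {κ : ℝ} (hκ : 2 ≤ κ) (k : ℕ) :
    0 ≤ (ab κ k).1 ∧ 0 ≤ (ab κ k).2 ∧ (Even k → (ab κ k).2 ≤ (ab κ k).1) ∧
      (¬ Even k → (ab κ k).1 ≤ (ab κ k).2) := by
  induction k with
  | zero => simp [ab]
  | succ k ih =>
    obtain ⟨h1, h2, h3, h4⟩ := ih
    by_cases hk : Even k
    · have hk' : ¬ Even (k + 1) := by rw [Nat.even_add_one]; simpa using hk
      rw [ab, if_pos hk]
      have h5 := h3 hk
      simp only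
      have : (ab κ k).1 ≤ κ * (ab κ k).1 - (ab κ k).2 := by nlinarith
      exact ⟨h1, h1.trans this, fun h => absurd h hk', fun _ => this⟩
    · have hk' : Even (k + 1) := by rw [Nat.even_add_one]; exact hk
      rw [ab, if_neg hk]
      have h5 := h4 hk
      simp only
      have : (ab κ k).2 ≤ κ * (ab κ k).2 - (ab κ k).1 := by nlinarith
      exact ⟨h2.trans this, h2, fun _ => this, fun h => absurd hk' h⟩

theorem ab_nonneg (c : ℝ) (hc : 1 ≤ c) (s t : Fin 3) (hst : s ≠ t) (k : ℕ)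
    (hk : M3 s t = 0 ∨ k + 1 ≤ M3 s t) :
    0 ≤ (ab (kap c s t) k).1 ∧ 0 ≤ (ab (kap c s t) k).2 := by
  have h3 := sqrt3_sq
  have h3' : 0 ≤ √3 := Real.sqrt_nonneg _
  have six : ∀ k, k + 1 ≤ 6 → 0 ≤ (ab √3 k).1 ∧ 0 ≤ (ab √3 k).2 := by
    intro k hk
    have a0 : ab √3 0 = (1, 0) := rfl
    have a1 : ab √3 1 = (1, √3) := by rw [ab, if_pos (by decide), a0]; simp
    have a2 : ab √3 2 = (2, √3) := by
      rw [ab, if_neg (by decide), a1]
      refine Prod.ext ?_ rfl
      simp only; linarith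
    have a3 : ab √3 3 = (2, √3) := by
      rw [ab, if_pos (by decide), a2]
      refine Prod.ext rfl ?_
      simp only; ring
    have a4 : ab √3 4 = (1, √3) := by
      rw [ab, if_neg (by decide), a3]
      refine Prod.ext ?_ rfl
      simp only; linarith
    have a5 : ab √3 5 = (1, 0) := by
      rw [ab, if_pos (by decide), a4]
      refine Prod.ext rfl ?_
      simp only; ring
    have hk5 : k ≤ 5 := by omega
    interval_cases k
    · rw [a0]; norm_num
    · rw [a1]; exact ⟨by norm_num, h3'⟩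
    · rw [a2]; exact ⟨by norm_num, h3'⟩
    · rw [a3]; exact ⟨by norm_num, h3'⟩
    · rw [a4]; exact ⟨by norm_num, h3'⟩
    · rw [a5]; norm_num
  have two : ∀ k, k + 1 ≤ 2 → 0 ≤ (ab 0 k).1 ∧ 0 ≤ (ab 0 k).2 := by
    intro k hk
    have a0 : ab 0 0 = (1, 0) := rfl
    have a1 : ab 0 1 = (1, 0) := by rw [ab, if_pos (by decide), a0]; simp
    have hk5 : k ≤ 1 := by omega
    interval_cases k
    · rw [a0]; norm_num
    · rw [a1]; norm_num
  have inf : ∀ k, 0 ≤ (ab (2 * c) k).1 ∧ 0 ≤ (ab (2 * c) k).2 := fun k =>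
    ⟨(ab_big (by linarith) k).1, (ab_big (by linarith) k).2.1⟩
  have m01 : M3 0 1 = 6 := rfl
  have m10 : M3 1 0 = 6 := rfl
  have m02 : M3 0 2 = 2 := rfl
  have m20 : M3 2 0 = 2 := rfl
  have k01 : kap c 0 1 = √3 := rfl
  have k10 : kap c 1 0 = √3 := rfl
  have k02 : kap c 0 2 = 0 := rfl
  have k20 : kap c 2 0 = 0 := rfl
  have k12 : kap c 1 2 = 2 * c := rfl
  have k21 : kap c 2 1 = 2 * c := rfl
  fin_cases s <;> fin_cases t
  · exact absurd rfl hst
  · show 0 ≤ (ab (kap c 0 1) k).1 ∧ 0 ≤ (ab (kap c 0 1) k).2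
    rw [k01]; exact six k (hk.resolve_left (by rw [show M3 _ _ = 6 from rfl]; norm_num))
  · show 0 ≤ (ab (kap c 0 2) k).1 ∧ 0 ≤ (ab (kap c 0 2) k).2
    rw [k02]; exact two k (hk.resolve_left (by rw [show M3 _ _ = 2 from rfl]; norm_num))
  · show 0 ≤ (ab (kap c 1 0) k).1 ∧ 0 ≤ (ab (kap c 1 0) k).2
    rw [k10]; exact six k (hk.resolve_left (by rw [show M3 _ _ = 6 from rfl]; norm_num))
  · exact absurd rfl hst
  · show 0 ≤ (ab (kap c 1 2) k).1 ∧ 0 ≤ (ab (kap c 1 2) k).2
    rw [k12]; exact inf k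
  · show 0 ≤ (ab (kap c 2 0) k).1 ∧ 0 ≤ (ab (kap c 2 0) k).2
    rw [k20]; exact two k (hk.resolve_left (by rw [show M3 _ _ = 2 from rfl]; norm_num))
  · show 0 ≤ (ab (kap c 2 1) k).1 ∧ 0 ≤ (ab (kap c 2 1) k).2
    rw [k21]; exact inf k
  · exact absurd rfl hst

/-- Tits positivity -/
theorem pos3 (c : ℝ) (hc : 1 ≤ c) : ∀ (n : ℕ) (w : W3), cs3.length w = n → ∀ s : Fin 3,
    ¬ cs3.IsRightDescent w s → 0 ≤ L3 c w (b3 s) := by
  intro n
  induction n using Nat.strong_induction_on with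
  | _ n ih =>
  intro w hw s hs
  by_cases h1 : w = 1
  · rw [h1, map_one]; exact b3_nonneg s
  obtain ⟨t, ht⟩ := cs3.exists_rightDescent_of_ne_one h1
  have hst : s ≠ t := fun h => hs (h ▸ ht)
  -- minimal head
  have hex : ∃ m, ∃ (v : W3) (k : ℕ), w = v * cs3.wordProd (alternatingWord s t k) ∧
      cs3.length v + k = cs3.length w ∧ cs3.length v = m :=
    ⟨_, w, 0, by simp [alternatingWord], by simp, rfl⟩
  classical
  obtain ⟨v, k, hv1, hv2, hv3⟩ := Nat.find_spec hex
  have hmin : ∀ (v' : W3) (k' : ℕ), w = v' * cs3.wordProd (alternatingWord s t k') →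
      cs3.length v' + k' = cs3.length w → cs3.length v ≤ cs3.length v' := by
    intro v' k' a1 a2
    rw [hv3]
    exact Nat.find_min' hex ⟨v', k', a1, a2, rfl⟩
  have hk1 : 1 ≤ k := by
    have h := hmin (w * cs3.simple t) 1 (by simp [alternatingWord]) (by
      rw [cs3.isRightDescent_iff] at ht; exact ht)
    have h2 := ht
    rw [CoxeterSystem.IsRightDescent] at h2
    omega
  -- neither s nor t is a descent of v
  have hnext : ¬ cs3.IsRightDescent v (if Even k then t else s) := by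
    intro hd
    rw [cs3.isRightDescent_iff] at hd
    have := hmin (v * cs3.simple (if Even k then t else s)) (k + 1) (by
      rw [alternatingWord_succ', cs3.wordProd_cons, mul_assoc, cs3.simple_mul_simple_cancel_left]
      exact hv1) (by omega)
    omega
  have hprev : ¬ cs3.IsRightDescent v (if Even k then s else t) := by
    intro hd
    obtain ⟨j, rfl⟩ : ∃ j, k = j + 1 := ⟨k - 1, by omega⟩
    have e : (if Even (j + 1) then s else t) = (if Even j then t else s) := by
      by_cases hj : Even j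
      · rw [if_pos hj, if_neg (by rw [Nat.even_add_one]; simpa using hj)]
      · rw [if_neg hj, if_pos (by rw [Nat.even_add_one]; exact hj)]
    rw [e] at hd
    rw [alternatingWord_succ', cs3.wordProd_cons, ← mul_assoc] at hv1
    rw [CoxeterSystem.IsRightDescent] at hd
    have a1 := cs3.length_mul_le (v * cs3.simple (if Even j then t else s))
      (cs3.wordProd (alternatingWord s t j))
    have a2 := cs3.length_wordProd_le (alternatingWord s t j)
    rw [length_alternatingWord] at a2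
    rw [← hv1] at a1
    omega
  have hvs : ¬ cs3.IsRightDescent v s := by
    by_cases hk : Even k
    · rw [if_pos hk] at hprev; exact hprev
    · rw [if_neg hk] at hnext; exact hnext
  have hvt : ¬ cs3.IsRightDescent v t := by
    by_cases hk : Even k
    · rw [if_pos hk] at hnext; exact hnext
    · rw [if_neg hk] at hprev; exact hprev
  -- bound on k
  have hbound : M3 s t = 0 ∨ k + 1 ≤ M3 s t := by
    by_contra hcon
    rw [not_or, not_le] at hcon
    obtain ⟨c1, c2⟩ := hcon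
    have hM : M3 t s = M3 s t := M3.symmetric t s
    have hnr := cs3.not_isReduced_alternatingWord t s (m := k + 1) (by rw [hM]; exact c1)
      (by rw [hM]; exact c2)
    rw [alternatingWord_succ] at hnr
    apply hs
    rw [CoxeterSystem.IsRightDescent]
    have b1 : cs3.length (cs3.wordProd ((alternatingWord s t k).concat s)) < k + 1 := by
      refine lt_of_le_of_ne ?_ ?_
      · have := cs3.length_wordProd_le ((alternatingWord s t k).concat s)
        rwa [List.length_concat, length_alternatingWord] at this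
      · intro h
        apply hnr
        rw [CoxeterSystem.IsReduced, h, List.length_concat, length_alternatingWord]
    rw [cs3.wordProd_concat] at b1
    have b2 := cs3.length_mul_le v (cs3.wordProd (alternatingWord s t k) * cs3.simple s)
    rw [← mul_assoc, ← hv1] at b2
    have b3 := cs3.length_mul_simple_ne w s
    omega
  have hlt : cs3.length v < n := by omega
  have p1 := ih _ hlt v rfl s hvs
  have p2 := ih _ hlt v rfl t hvt
  obtain ⟨q1, q2⟩ := ab_nonneg c hc s t hst k hbound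
  rw [hv1, map_mul, Module.End.mul_apply, ab_word c s t hst k, map_add, map_smul, map_smul]
  exact add_nonneg (smul_nonneg q1 p1) (smul_nonneg q2 p2)

end Pool.Agent.Y473.MC
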