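import Mathlib

/-!
# Characters of closed surface groups in SL(2,ℂ): definitions

* `Surf g` : the fundamental group of the closed oriented surface of genus `g`
  (standard presentation by `a_i, b_i` with one relator `∏ [a_i, b_i]`).
* `CharVar g` : the space of characters of representations `Surf g → SL(2,ℂ)`
  with the topology of pointwise convergence.
* `OrientPres` : orientation preserving automorphisms.
* `modOrbit ρ` : the mapping class group orbit of the character of `ρ`.
* `unitaryChars`, `quasiFuchsianChars`.
-/

namespace Pool.Agent.Y473.MC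

open Matrix Topology

/-- the commutator `x y x⁻¹ y⁻¹` -/
def cm {G : Type*} [Group G] (x y : G) : G := x * y * x⁻¹ * y⁻¹

/-- index set of the standard generators: `(i, false)` is `a_i`, `(i, true)` is `b_i` -/
abbrev Gen (g : ℕ) := Fin g × Bool

/-- the word `[a_0, b_0] [a_1, b_1] ... [a_{g-1}, b_{g-1}]` -/
def surfRel (g : ℕ) : FreeGroup (Gen g) :=
  (List.ofFn fun i : Fin g =>
    cm (FreeGroup.of ((i, false) : Gen g)) (FreeGroup.of ((i, true) : Gen g))).prod

/-- the fundamental group of the closed oriented surface of genus `g` -/
abbrev Surf (g : ℕ) := PresentedGroup ({surfRel g} : Set (FreeGroup (Gen g)))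

/-- the standard generator of `Surf g` with index `x` -/
def Surf.gen {g : ℕ} (x : Gen g) : Surf g := PresentedGroup.of x

/-- the homology class of an element of `Surf g`, in the basis given by the generators -/
def Surf.cls (g : ℕ) : Surf g →* Multiplicative (Gen g → ℤ) :=
  PresentedGroup.toGroup (f := fun x => Multiplicative.ofAdd (Pi.single x (1 : ℤ)))
    (by
      intro r hr
      rw [Set.mem_singleton_iff.mp hr, surfRel, map_list_prod, List.map_ofFn]
      have : (⇑(FreeGroup.lift fun x : Gen g => Multiplicative.ofAdd (Pi.single x (1 : ℤ)))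
          ∘ fun i : Fin g => cm (FreeGroup.of ((i, false) : Gen g))
            (FreeGroup.of ((i, true) : Gen g))) = fun _ => 1 := by
        funext i
        simp only [Function.comp, cm, map_mul, map_inv]
        rw [mul_comm (FreeGroup.lift _ (FreeGroup.of ((i, false) : Gen g)))]
        simp
      rw [this]
      simp)

/-- the algebraic intersection form on `H_1 = ℤ^{2g}` -/
def inter {g : ℕ} (v w : Gen g → ℤ) : ℤ :=
  ∑ i : Fin g, (v (i, false) * w (i, true) - v (i, true) * w (i, false))

/-- an automorphism of the surface group is orientation preserving iff it preserves the algebraic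
intersection form on homology -/
def OrientPres {g : ℕ} (φ : MulAut (Surf g)) : Prop :=
  ∀ x y : Surf g, inter (Surf.cls g (φ x)).toAdd (Surf.cls g (φ y)).toAdd =
    inter (Surf.cls g x).toAdd (Surf.cls g y).toAdd

/-- representations of the surface group in `SL(2,ℂ)` -/
abbrev Rep (g : ℕ) := Surf g →* SpecialLinearGroup (Fin 2) ℂ

/-- the character `γ ↦ tr ρ(γ)` -/
def character {g : ℕ} (ρ : Rep g) : Surf g → ℂ :=
  fun γ => Matrix.trace (ρ γ : Matrix (Fin 2) (Fin 2) ℂ)

/-- the `SL(2,ℂ)`-character variety, as a topological space: the set of all characters, with the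
topology of pointwise convergence -/
abbrev CharVar (g : ℕ) := {χ : Surf g → ℂ // ∃ ρ : Rep g, character ρ = χ}

/-- the point `[ρ]` of the character variety -/
def pt {g : ℕ} (ρ : Rep g) : CharVar g := ⟨character ρ, ρ, rfl⟩

/-- the orbit of `[ρ]` under the mapping class group (orientation preserving automorphisms acting
by precomposition) -/
def modOrbit {g : ℕ} (ρ : Rep g) : Set (CharVar g) :=
  {p | ∃ φ : MulAut (Surf g), OrientPres φ ∧ p = pt (ρ.comp φ.toMonoidHom)}

/-- the set of unitary characters: characters of representations into `SU(2)` -/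
def unitaryChars (g : ℕ) : Set (CharVar g) :=
  {p | ∃ τ : Rep g, (∀ γ, (τ γ : Matrix (Fin 2) (Fin 2) ℂ) ∈
    Matrix.unitaryGroup (Fin 2) ℂ) ∧ p = pt τ}

/-- the length of an element of the surface group with respect to the standard generators -/
noncomputable def wordNorm {g : ℕ} (γ : Surf g) : ℕ :=
  sInf {n | ∃ l : List (Gen g × Bool),
    l.length = n ∧ PresentedGroup.mk {surfRel g} (FreeGroup.mk l) = γ}

/-- the sum of the squares of the absolute values of the entries; for `A ∈ SL(2,ℂ)` this is
`2 cosh d(j, A j)` for the base point `j` of hyperbolic 3-space -/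
noncomputable def frob (A : SpecialLinearGroup (Fin 2) ℂ) : ℝ :=
  ∑ i, ∑ j, ‖(A : Matrix (Fin 2) (Fin 2) ℂ) i j‖ ^ 2

/-- quasi-Fuchsian representations of a closed surface group: faithful (modulo `±1`), with
discrete image, and convex cocompact, i.e. the orbit map to hyperbolic 3-space is a
quasi-isometric embedding. -/
structure IsQuasiFuchsian {g : ℕ} (τ : Rep g) : Prop where
  /-- the composition with `SL(2,ℂ) → PSL(2,ℂ)` is injective -/
  faithful : ∀ γ, (τ γ = 1 ∨ τ γ = -1) → γ = 1
  /-- the image is discrete: only finitely many elements have bounded norm -/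
  discrete : ∀ R : ℝ, {γ : Surf g | frob (τ γ) ≤ R}.Finite
  /-- the orbit map is a quasi-isometric embedding -/
  undistorted : ∃ C : ℝ, ∀ γ : Surf g, (wordNorm γ : ℝ) ≤ C * (1 + Real.log (frob (τ γ)))

/-- the set of quasi-Fuchsian characters -/
def quasiFuchsianChars (g : ℕ) : Set (CharVar g) :=
  {p | ∃ τ : Rep g, IsQuasiFuchsian τ ∧ p = pt τ}

end Pool.Agent.Y473.MC
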