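import Pool.Agent.Y473.MC.Cox3

/-!
# Growth in the reflection group of type `∞, 6, ∞` in hyperbolic 3-space
-/

namespace Pool.Agent.Y473.MC

open CoxeterSystem

/-- the linear Coxeter diagram `0 -∞- 1 -6- 2 -∞- 3` -/
def M4 : CoxeterMatrix (Fin 4) where
  M := !![1, 0, 2, 2; 0, 1, 6, 2; 2, 6, 1, 0; 2, 2, 0, 1]

/-- the Coxeter group -/
abbrev W4 := M4.Group

/-- its Coxeter system -/
def cs4 : CoxeterSystem M4 W4 := M4.toCoxeterSystem

/-- a configuration of four hyperplanes -/
structure Conf (V : Type*) [AddCommGroup V] [Module ℝ V] where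
  /-- the form -/
  B : V →ₗ[ℝ] V →ₗ[ℝ] ℝ
  symm : ∀ v w, B v w = B w v
  /-- unit normals -/
  e : Fin 4 → V
  /-- first parameter -/
  c : ℝ
  /-- second parameter -/
  d : ℝ
  hc : 1 < c
  hd : 1 < d
  self : ∀ i, B (e i) (e i) = 1
  e01 : B (e 0) (e 1) = -d
  e12 : B (e 1) (e 2) = -(√3 / 2)
  e23 : B (e 2) (e 3) = -c
  e02 : B (e 0) (e 2) = 0
  e03 : B (e 0) (e 3) = 0
  e13 : B (e 1) (e 3) = 0
  /-- base point -/
  o : V
  /-- the points of hyperbolic space -/
  P : V → Prop
  Po : P o
  o_neg : ∀ i, B o (e i) < 0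
  P_refl : ∀ i v, P v → P (v - (2 * B v (e i)) • e i)
  P_causal : ∀ v τ, P v → B τ τ ≤ 0 → B o τ < 0 → B v τ ≤ 0
  P_pair : ∀ v w, P v → P w → B v w ≤ 0

variable {V : Type*} [AddCommGroup V] [Module ℝ V] (C : Conf V)

namespace Conf

/-- the reflection -/
noncomputable def R (i : Fin 4) : Module.End ℝ V where
  toFun v := v - (2 * C.B v (C.e i)) • C.e i
  map_add' v w := by
    rw [map_add, LinearMap.add_apply]
    module
  map_smul' t v := by
    rw [map_smul, LinearMap.smul_apply, smul_eq_mul, RingHom.id_apply]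
    module

theorem R_apply (i : Fin 4) (v : V) : C.R i v = v - (2 * C.B v (C.e i)) • C.e i := rfl

theorem B_R (i : Fin 4) (v w : V) : C.B (C.R i v) (C.R i w) = C.B v w := by
  rw [R_apply, R_apply]
  simp only [map_sub, map_smul, LinearMap.sub_apply, LinearMap.smul_apply, smul_eq_mul, C.self i]
  rw [C.symm (C.e i) w]
  ring

theorem R_R (i : Fin 4) : C.R i * C.R i = 1 := by
  apply LinearMap.ext
  intro v
  rw [Module.End.mul_apply, R_apply, R_apply, Module.End.one_apply]
  simp only [map_sub, map_smul, LinearMap.sub_apply, LinearMap.smul_apply, smul_eq_mul, C.self i]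
  module

theorem R_comm {i j : Fin 4} (h : C.B (C.e i) (C.e j) = 0) : (C.R i * C.R j) ^ 2 = 1 := by
  have h' : C.B (C.e j) (C.e i) = 0 := by rw [C.symm]; exact h
  have hc : C.R i * C.R j = C.R j * C.R i := by
    apply LinearMap.ext
    intro v
    rw [Module.End.mul_apply, Module.End.mul_apply, R_apply, R_apply, R_apply, R_apply]
    simp only [map_sub, map_smul, LinearMap.sub_apply, LinearMap.smul_apply, smul_eq_mul, h, h']
    module
  rw [pow_two]
  calc C.R i * C.R j * (C.R i * C.R j) = C.R i * C.R j * (C.R j * C.R i) := by rw [← hc]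
    _ = C.R i * (C.R j * C.R j) * C.R i := by simp only [mul_assoc]
    _ = 1 := by rw [R_R, mul_one, R_R]

theorem R_six : (C.R 1 * C.R 2) ^ 6 = 1 := by
  have h3 := sqrt3_sq
  have h21 : C.B (C.e 2) (C.e 1) = -(√3 / 2) := by rw [C.symm]; exact C.e12
  have t1 : ∀ v, (C.R 1 * C.R 2) v = v - (2 * (C.B v (C.e 1) + √3 * C.B v (C.e 2))) • C.e 1
      - (2 * C.B v (C.e 2)) • C.e 2 := by
    intro v
    rw [Module.End.mul_apply, R_apply, R_apply]
    simp only [map_sub, map_smul, LinearMap.sub_apply, LinearMap.smul_apply, smul_eq_mul, h21]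
    module
  have x1 : ∀ v, C.B ((C.R 1 * C.R 2) v) (C.e 1) = -C.B v (C.e 1) - √3 * C.B v (C.e 2) := by
    intro v
    rw [t1]
    simp only [map_sub, map_smul, LinearMap.sub_apply, LinearMap.smul_apply, smul_eq_mul, h21,
      C.self]
    ring
  have y1 : ∀ v, C.B ((C.R 1 * C.R 2) v) (C.e 2) = √3 * C.B v (C.e 1) + 2 * C.B v (C.e 2) := by
    intro v
    rw [t1]
    simp only [map_sub, map_smul, LinearMap.sub_apply, LinearMap.smul_apply, smul_eq_mul, C.e12,
      C.self]
    linear_combination C.B v (C.e 2) * h3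
  have p3 : ∀ (T : Module.End ℝ V) v, (T ^ 3) v = T (T (T v)) := by
    intro T v
    rw [pow_succ, pow_succ, pow_one, Module.End.mul_apply, Module.End.mul_apply]
  have x2 : ∀ v, C.B ((C.R 1 * C.R 2) ((C.R 1 * C.R 2) v)) (C.e 1) =
      -2 * C.B v (C.e 1) - √3 * C.B v (C.e 2) := by
    intro v
    simp only [x1, y1]
    linear_combination (-C.B v (C.e 1)) * h3
  have y2 : ∀ v, C.B ((C.R 1 * C.R 2) ((C.R 1 * C.R 2) v)) (C.e 2) =
      √3 * C.B v (C.e 1) + C.B v (C.e 2) := by
    intro v
    simp only [x1, y1]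
    linear_combination (-C.B v (C.e 2)) * h3
  have x3 : ∀ v, C.B (((C.R 1 * C.R 2) ^ 3) v) (C.e 1) = -C.B v (C.e 1) := by
    intro v
    rw [p3, x1, x2, y2]
    linear_combination (-C.B v (C.e 1)) * h3
  have y3 : ∀ v, C.B (((C.R 1 * C.R 2) ^ 3) v) (C.e 2) = -C.B v (C.e 2) := by
    intro v
    rw [p3, y1, x2, y2]
    linear_combination (-(C.B v (C.e 2))) * h3
  have t3 : ∀ v, ((C.R 1 * C.R 2) ^ 3) v = v - (8 * C.B v (C.e 1) + 4 * √3 * C.B v (C.e 2)) • C.e 1
      - (4 * √3 * C.B v (C.e 1) + 8 * C.B v (C.e 2)) • C.e 2 := by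
    intro v
    set T := C.R 1 * C.R 2 with hT
    have e0 : T (T (T v)) = v
        - ((2 * (C.B v (C.e 1) + √3 * C.B v (C.e 2))) + (2 * (C.B (T v) (C.e 1)
          + √3 * C.B (T v) (C.e 2))) + (2 * (C.B (T (T v)) (C.e 1)
          + √3 * C.B (T (T v)) (C.e 2)))) • C.e 1
        - (2 * C.B v (C.e 2) + 2 * C.B (T v) (C.e 2) + 2 * C.B (T (T v)) (C.e 2)) • C.e 2 := by
      have a1 := t1 v
      have a2 := t1 (T v)
      have a3 := t1 (T (T v))
      rw [a3]
      nth_rewrite 1 [a2]
      nth_rewrite 1 [a1]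
      module
    rw [p3, e0, x2, y2, x1, y1]
    congr 2
    · congr 1
      linear_combination (4 * C.B v (C.e 1)) * h3
    · ring
  have : (C.R 1 * C.R 2) ^ 6 = (C.R 1 * C.R 2) ^ 3 * (C.R 1 * C.R 2) ^ 3 := by
    rw [← pow_add]
  rw [this]
  apply LinearMap.ext
  intro v
  rw [Module.End.mul_apply, t3, x3, y3, t3, Module.End.one_apply]
  module

theorem liftable : M4.IsLiftable C.R := by
  intro i j
  have sq : ∀ i, (C.R i * C.R i) ^ 1 = 1 := fun i => by rw [pow_one]; exact C.R_R i
  fin_cases i <;> fin_cases j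
  · exact sq 0
  · exact pow_zero _
  · exact C.R_comm C.e02
  · exact C.R_comm C.e03
  · exact pow_zero _
  · exact sq 1
  · exact C.R_six
  · exact C.R_comm C.e13
  · exact C.R_comm (by rw [C.symm]; exact C.e02)
  · exact pow_swap (C.R_R 2) C.R_six
  · exact sq 2
  · exact pow_zero _
  · exact C.R_comm (by rw [C.symm]; exact C.e03)
  · exact C.R_comm (by rw [C.symm]; exact C.e13)
  · exact pow_zero _
  · exact sq 3

/-- the action of the Coxeter group -/
noncomputable def T : W4 →* Module.End ℝ V := cs4.lift ⟨C.R, C.liftable⟩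

theorem T_simple (i : Fin 4) : C.T (cs4.simple i) = C.R i := cs4.lift_apply_simple C.liftable i

theorem T_mul (w w' : W4) (v : V) : C.T (w * w') v = C.T w (C.T w' v) := by
  rw [map_mul, Module.End.mul_apply]

theorem T_inv (w : W4) (v : V) : C.T w⁻¹ (C.T w v) = v := by
  rw [← T_mul, inv_mul_cancel, map_one, Module.End.one_apply]

theorem T_inv' (w : W4) (v : V) : C.T w (C.T w⁻¹ v) = v := by
  rw [← T_mul, mul_inv_cancel, map_one, Module.End.one_apply]

theorem B_T (w : W4) (v v' : V) : C.B (C.T w v) (C.T w v') = C.B v v' := by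
  induction w using cs4.simple_induction_left with
  | one => simp
  | mul_simple_left w i ih => rw [T_mul, T_mul, T_simple, B_R, ih]

theorem B_adj (w : W4) (v v' : V) : C.B (C.T w v) v' = C.B v (C.T w⁻¹ v') := by
  rw [← C.B_T w v, T_inv']

theorem P_T (w : W4) {v : V} (hv : C.P v) : C.P (C.T w v) := by
  induction w using cs4.simple_induction_left with
  | one => simpa using hv
  | mul_simple_left w i ih => rw [T_mul, T_simple]; exact C.P_refl i _ ih

/-- embedding of the coordinates -/
noncomputable def emb (x : V3) : V := x.1 • C.e 1 + x.2.1 • C.e 2 + x.2.2 • C.e 3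

theorem emb_b3 (i : Fin 3) : C.emb (b3 i) = C.e i.succ := by
  fin_cases i <;> simp [emb, b3]

theorem R_emb (i : Fin 3) (x : V3) : C.R i.succ (C.emb x) = C.emb (r3 C.c i x) := by
  have h21 : C.B (C.e 2) (C.e 1) = -(√3 / 2) := by rw [C.symm]; exact C.e12
  have h31 : C.B (C.e 3) (C.e 1) = 0 := by rw [C.symm]; exact C.e13
  have h32 : C.B (C.e 3) (C.e 2) = -C.c := by rw [C.symm]; exact C.e23
  obtain ⟨x1, x2, x3⟩ := x
  fin_cases i
  · show C.R 1 _ = C.emb (r3 C.c 0 _)
    rw [R_apply, r3_zero]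
    simp only [emb, map_add, map_smul, LinearMap.add_apply, LinearMap.smul_apply, smul_eq_mul,
      h21, h31, C.self]
    module
  · show C.R 2 _ = C.emb (r3 C.c 1 _)
    rw [R_apply, r3_one]
    simp only [emb, map_add, map_smul, LinearMap.add_apply, LinearMap.smul_apply, smul_eq_mul,
      C.e12, h32, C.self]
    module
  · show C.R 3 _ = C.emb (r3 C.c 2 _)
    rw [R_apply, r3_two]
    simp only [emb, map_add, map_smul, LinearMap.add_apply, LinearMap.smul_apply, smul_eq_mul,
      C.e13, C.e23, C.self]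
    module

end Conf

/-- the inclusion of the special subgroup generated by `1, 2, 3` -/
def incl : W3 →* W4 := cs3.lift ⟨fun i => cs4.simple i.succ, by
  intro i j
  have h : M3 i j = M4 i.succ j.succ := by
    fin_cases i <;> fin_cases j <;> rfl
  rw [h]
  exact cs4.simple_mul_simple_pow _ _⟩

theorem incl_simple (i : Fin 3) : incl (cs3.simple i) = cs4.simple i.succ :=
  cs3.lift_apply_simple _ i

theorem incl_wordProd (β : List (Fin 3)) :
    incl (cs3.wordProd β) = cs4.wordProd (β.map Fin.succ) := by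
  induction β with
  | nil => simp
  | cons i β ih => rw [cs3.wordProd_cons, map_mul, incl_simple, ih, List.map_cons,
      cs4.wordProd_cons]

theorem reduced_of_map {β : List (Fin 3)} (h : cs4.IsReduced (β.map Fin.succ)) :
    cs3.IsReduced β := by
  obtain ⟨β', h1, h2⟩ := cs3.exists_isReduced (cs3.wordProd β)
  rw [CoxeterSystem.IsReduced] at h ⊢
  rw [CoxeterSystem.IsReduced] at h1
  rw [h2, h1]
  have h3 := cs4.length_wordProd_le (β'.map Fin.succ)
  rw [← incl_wordProd, ← h2, incl_wordProd, h, List.length_map, List.length_map] at h3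
  have h4 := cs3.length_wordProd_le β
  rw [h2, h1] at h4
  omega

namespace Conf

theorem T_emb (w : W3) (x : V3) : C.T (incl w) (C.emb x) = C.emb (L3 C.c w x) := by
  induction w using cs3.simple_induction_left with
  | one => simp
  | mul_simple_left w i ih =>
    rw [map_mul, T_mul, ih, incl_simple, T_simple, R_emb, map_mul, L3_simple,
      Module.End.mul_apply]

end Conf

theorem L3_fst (c : ℝ) (β : List (Fin 3)) (h : (0 : Fin 3) ∉ β) (v : V3) :
    (L3 c (cs3.wordProd β) v).1 = v.1 := by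
  induction β with
  | nil => simp
  | cons i β ih =>
    rw [List.mem_cons, not_or] at h
    rw [cs3.wordProd_cons, map_mul, Module.End.mul_apply, L3_simple]
    have hi : i = 1 ∨ i = 2 := by
      have := h.1
      fin_cases i <;> simp_all
    rcases hi with rfl | rfl
    · rw [r3_one]; exact ih h.2
    · rw [r3_two]; exact ih h.2

theorem not_desc_of_reduced {β : List (Fin 3)} {i : Fin 3} (h : cs3.IsReduced (i :: β)) :
    ¬ cs3.IsRightDescent (cs3.wordProd β.reverse) i := by
  have h1 : cs3.IsReduced (i :: β).reverse := h.reverse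
  rw [List.reverse_cons] at h1
  rw [CoxeterSystem.IsReduced, cs3.wordProd_append, cs3.wordProd_singleton,
    List.length_append] at h1
  rw [CoxeterSystem.IsRightDescent]
  have h2 := cs3.length_wordProd_le β.reverse
  simp only [List.length_cons, List.length_nil] at h1
  omega

namespace Conf

/-- the orbit of the first normal under the special subgroup -/
theorem orbit_e0 {β : List (Fin 3)} (h : cs3.IsReduced β) : ∃ x : V3, 0 ≤ x ∧
    C.T (cs4.wordProd (β.map Fin.succ)) (C.e 0) = C.e 0 + C.emb x ∧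
    ((0 : Fin 3) ∈ β → 2 * C.d ≤ x.1) := by
  induction β with
  | nil => exact ⟨0, le_rfl, by simp [emb], by simp⟩
  | cons i β ih =>
    have hβ : cs3.IsReduced β := by
      have := h.drop 1
      simpa using this
    obtain ⟨x, hx, hx', hx''⟩ := ih hβ
    have hpos : 0 ≤ L3 C.c (cs3.wordProd β.reverse) (b3 i) :=
      pos3 C.c C.hc.le _ _ rfl i (not_desc_of_reduced h)
    set y := L3 C.c (cs3.wordProd β.reverse) (b3 i) with hy
    have hd := C.hd
    have hB : C.B (C.T (cs4.wordProd (β.map Fin.succ)) (C.e 0)) (C.e i.succ) = -(C.d * y.1) := by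
      rw [B_adj, ← cs4.wordProd_reverse, ← List.map_reverse, ← incl_wordProd, ← emb_b3, T_emb,
        ← hy]
      simp only [emb, map_add, map_smul, smul_eq_mul, C.e01, C.e02, C.e03]
      ring
    refine ⟨x + (2 * (C.d * y.1)) • b3 i, ?_, ?_, ?_⟩
    · have : 0 ≤ y.1 := hpos.1
      exact add_nonneg hx (smul_nonneg (by positivity) (b3_nonneg i))
    · rw [List.map_cons, cs4.wordProd_cons, T_mul, T_simple, R_apply, hB, hx']
      have e : ∀ (x y : V3) (t : ℝ), C.emb (x + t • y) = C.emb x + t • C.emb y := by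
        intro x y t
        simp only [emb, Prod.fst_add, Prod.snd_add, Prod.smul_fst, Prod.smul_snd, smul_eq_mul]
        module
      rw [e, emb_b3]
      module
    · intro h0
      by_cases hi0 : (0 : Fin 3) ∈ β
      · have h1 := hx'' hi0
        have h2 : 0 ≤ ((2 * (C.d * y.1)) • b3 i).1 := by
          have : 0 ≤ y.1 := hpos.1
          exact (smul_nonneg (by positivity) (b3_nonneg i)).1
        simp only [Prod.fst_add]
        linarith
      · have hi : i = 0 := by
          rcases List.mem_cons.mp h0 with h | h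
          · exact h.symm
          · exact absurd h hi0
        subst hi
        have hy1 : y.1 = 1 := by
          rw [hy, L3_fst C.c _ (by simpa using hi0)]
          rfl
        have h1 : 0 ≤ x.1 := hx.1
        simp only [Prod.fst_add, Prod.smul_fst, smul_eq_mul, hy1]
        have : (b3 0).1 = 1 := rfl
        rw [this]
        linarith

theorem B_o_emb {x : V3} (hx : 0 ≤ x) : C.B C.o (C.emb x) ≤ 0 := by
  have h1 := C.o_neg 1
  have h2 := C.o_neg 2
  have h3 := C.o_neg 3
  have a1 : 0 ≤ x.1 := hx.1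
  have a2 : 0 ≤ x.2.1 := hx.2.1
  have a3 : 0 ≤ x.2.2 := hx.2.2
  simp only [emb, map_add, map_smul, smul_eq_mul]
  nlinarith

theorem B_o_orbit {β : List (Fin 3)} (h : cs3.IsReduced β) :
    C.B C.o (C.T (cs4.wordProd (β.map Fin.succ)) (C.e 0)) ≤ C.B C.o (C.e 0) := by
  obtain ⟨x, hx, hx', -⟩ := C.orbit_e0 h
  rw [hx', map_add]
  linarith [C.B_o_emb hx]

/-- growth factor -/
noncomputable def K : ℝ := 2 * C.d ^ 2 - 1

theorem K_gt : 1 < C.K := by
  have := C.hd
  unfold K; nlinarith

/-- distance from the base point to the first wall -/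
noncomputable def a0 : ℝ := -C.B C.o (C.e 0)

theorem a0_pos : 0 < C.a0 := by
  have := C.o_neg 0
  unfold a0; linarith

end Conf

end Pool.Agent.Y473.MC
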