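import Pool.Agent.Y473.MC.Growth

/-!
# Growth in the reflection group, continued
-/

namespace Pool.Agent.Y473.MC

open CoxeterSystem

variable {V : Type*} [AddCommGroup V] [Module ℝ V] (C : Conf V)

theorem split0 (ω : List (Fin 4)) : (∃ β : List (Fin 3), ω = β.map Fin.succ) ∨
    (∃ (β : List (Fin 3)) (ω' : List (Fin 4)), ω = β.map Fin.succ ++ 0 :: ω') := by
  induction ω with
  | nil => exact Or.inl ⟨[], rfl⟩
  | cons x ω ih =>
    by_cases hx : x = 0
    · exact Or.inr ⟨[], ω, by simp [hx]⟩
    · obtain ⟨i, rfl⟩ := Fin.exists_succ_eq.mpr hx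
      rcases ih with ⟨β, rfl⟩ | ⟨β, ω', rfl⟩
      · exact Or.inl ⟨i :: β, rfl⟩
      · exact Or.inr ⟨i :: β, ω', rfl⟩

theorem count_succ (β : List (Fin 3)) : (β.map Fin.succ).count (0 : Fin 4) = 0 := by
  rw [List.count_eq_zero]
  intro h
  obtain ⟨i, -, hi⟩ := List.mem_map.mp h
  exact Fin.succ_ne_zero i hi

theorem simple_comm (i j : Fin 4) (h : M4 i j = 2) :
    cs4.simple i * cs4.simple j = cs4.simple j * cs4.simple i := by
  have h1 := cs4.simple_mul_simple_pow i j
  rw [h, pow_two] at h1
  have h2 : (cs4.simple i * cs4.simple j)⁻¹ = cs4.simple i * cs4.simple j :=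
    inv_eq_of_mul_eq_one_left h1
  rw [mul_inv_rev, cs4.inv_simple, cs4.inv_simple] at h2
  exact h2.symm

theorem comm_of_not_mem (β : List (Fin 3)) (h : (0 : Fin 3) ∉ β) :
    cs4.simple 0 * cs4.wordProd (β.map Fin.succ) =
      cs4.wordProd (β.map Fin.succ) * cs4.simple 0 := by
  induction β with
  | nil => simp
  | cons i β ih =>
    rw [List.mem_cons, not_or] at h
    have hi : cs4.simple 0 * cs4.simple i.succ = cs4.simple i.succ * cs4.simple 0 := by
      apply simple_comm
      have := h.1
      fin_cases i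
      · exact absurd rfl this
      · rfl
      · rfl
    rw [List.map_cons, cs4.wordProd_cons, ← mul_assoc, hi, mul_assoc, ih h.2, mul_assoc]

/-- in a reduced word a letter `1` occurs between two consecutive letters `0` -/
theorem mem_of_reduced {β : List (Fin 3)} {ω : List (Fin 4)}
    (h : cs4.IsReduced (0 :: (β.map Fin.succ ++ 0 :: ω))) : (0 : Fin 3) ∈ β := by
  by_contra hcon
  have e : cs4.wordProd (0 :: (β.map Fin.succ ++ 0 :: ω)) =
      cs4.wordProd (β.map Fin.succ ++ ω) := by
    rw [cs4.wordProd_cons, cs4.wordProd_append, cs4.wordProd_cons, cs4.wordProd_append,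
      ← mul_assoc, comm_of_not_mem β hcon, mul_assoc, cs4.simple_mul_simple_cancel_left]
  rw [CoxeterSystem.IsReduced, e] at h
  have := cs4.length_wordProd_le (β.map Fin.succ ++ ω)
  simp only [List.length_append, List.length_cons, List.length_map] at this h
  omega

theorem reduced_append_left {ω ω' : List (Fin 4)} (h : cs4.IsReduced (ω ++ ω')) :
    cs4.IsReduced ω := by
  have := h.take ω.length
  rwa [List.take_left'] at this
  rfl

theorem reduced_append_right {ω ω' : List (Fin 4)} (h : cs4.IsReduced (ω ++ ω')) :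
    cs4.IsReduced ω' := by
  have := h.drop ω.length
  rwa [List.drop_left'] at this
  rfl

theorem reduced_tail {x : Fin 4} {ω : List (Fin 4)} (h : cs4.IsReduced (x :: ω)) :
    cs4.IsReduced ω := by
  have : cs4.IsReduced ([x] ++ ω) := h
  exact reduced_append_right this

namespace Conf

theorem B_R_self (i : Fin 4) (v : V) : C.B (C.R i v) (C.e i) = -C.B v (C.e i) := by
  rw [R_apply]
  simp only [map_sub, map_smul, LinearMap.sub_apply, LinearMap.smul_apply, smul_eq_mul, C.self i]
  ring

theorem B_quad (p q : V) (κ : ℝ) : C.B (p + κ • q) (p + κ • q) =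
    C.B p p + 2 * κ * C.B p q + κ ^ 2 * C.B q q := by
  simp only [map_add, map_smul, LinearMap.add_apply, LinearMap.smul_apply, smul_eq_mul]
  rw [C.symm q p]
  ring

theorem growth_aux : ∀ (n : ℕ) (ω : List (Fin 4)), ω.length = n → cs4.IsReduced (0 :: ω) →
    C.K ^ (ω.count 0) * C.a0 ≤ -C.B (C.T (cs4.wordProd ω) C.o) (C.e 0) := by
  intro n
  induction n using Nat.strong_induction_on with
  | _ n ih =>
  intro ω hω hr
  have ha0 := C.a0_pos
  have hK := C.K_gt
  rcases split0 ω with ⟨β, rfl⟩ | ⟨β, ω', rfl⟩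
  · rw [count_succ, pow_zero, one_mul, B_adj, ← cs4.wordProd_reverse, ← List.map_reverse]
    have hβ : cs3.IsReduced β := reduced_of_map (reduced_tail hr)
    have := C.B_o_orbit hβ.reverse
    unfold a0
    linarith
  · have h1 : cs4.IsReduced (β.map Fin.succ ++ 0 :: ω') := reduced_tail hr
    have hβ : cs3.IsReduced β := reduced_of_map (reduced_append_left h1)
    have h2 : cs4.IsReduced (0 :: ω') := reduced_append_right h1
    have hlen : ω'.length < n := by
      rw [← hω]; simp only [List.length_append, List.length_cons, List.length_map]; omega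
    have hih := ih _ hlen ω' rfl h2
    have hmem : (0 : Fin 3) ∈ β := mem_of_reduced hr
    set v := C.T (cs4.wordProd ω') C.o with hv
    have hPv : C.P v := C.P_T _ C.Po
    obtain ⟨x, hx, hx', hx''⟩ := C.orbit_e0 hβ.reverse
    have hx1 := hx'' (by simpa using hmem)
    have hd := C.hd
    set κ := C.d * x.1 - 1 with hκ
    have hκK : C.K ≤ κ := by unfold K; nlinarith
    have hbe : C.B (C.e 0 + C.emb x) (C.e 0) = -κ := by
      have e1 : C.B (C.e 1) (C.e 0) = -C.d := by rw [C.symm]; exact C.e01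
      have e2 : C.B (C.e 2) (C.e 0) = 0 := by rw [C.symm]; exact C.e02
      have e3 : C.B (C.e 3) (C.e 0) = 0 := by rw [C.symm]; exact C.e03
      simp only [emb, map_add, map_smul, LinearMap.add_apply, LinearMap.smul_apply, smul_eq_mul,
        C.self, e1, e2, e3]
      ring
    have hbb : C.B (C.e 0 + C.emb x) (C.e 0 + C.emb x) = 1 := by
      rw [← hx', B_T, C.self]
    have hτ : C.B (R C 0 v) ((C.e 0 + C.emb x) + κ • C.e 0) ≤ 0 := by
      apply C.P_causal _ _ (C.P_refl 0 v hPv)
      · rw [B_quad, hbb, hbe, C.self]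
        nlinarith
      · rw [map_add, map_add, map_smul, smul_eq_mul]
        have := C.B_o_emb hx
        have h0 := C.o_neg 0
        nlinarith
    rw [map_add, map_smul, smul_eq_mul, B_R_self] at hτ
    have e2 : -C.B (C.T (cs4.wordProd (β.map Fin.succ ++ 0 :: ω')) C.o) (C.e 0) =
        -C.B (R C 0 v) (C.e 0 + C.emb x) := by
      rw [cs4.wordProd_append, cs4.wordProd_cons, T_mul, T_mul, T_simple, B_adj,
        ← cs4.wordProd_reverse, ← List.map_reverse, hx']
    rw [e2, List.count_append, count_succ, List.count_cons_self, zero_add, pow_succ]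
    have hf : 0 ≤ -C.B v (C.e 0) := le_trans (by positivity) hih
    have h3 : C.K * -C.B v (C.e 0) ≤ κ * -C.B v (C.e 0) := mul_le_mul_of_nonneg_right hκK hf
    have h4 : C.K * (C.K ^ (List.count 0 ω') * C.a0) ≤ C.K * -C.B v (C.e 0) :=
      mul_le_mul_of_nonneg_left hih (by linarith)
    nlinarith

theorem growth0 {ω : List (Fin 4)} (hr : cs4.IsReduced ω) (h0 : 1 ≤ ω.count 0) :
    2 * C.a0 ^ 2 * C.K ^ (ω.count 0 - 1) ≤ -C.B (C.T (cs4.wordProd ω) C.o) C.o := by
  have ha0 := C.a0_pos
  have hK := C.K_gt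
  rcases split0 ω with ⟨β, rfl⟩ | ⟨β, ω', rfl⟩
  · rw [count_succ] at h0; omega
  · have hβ : cs3.IsReduced β := reduced_of_map (reduced_append_left hr)
    have h2 : cs4.IsReduced (0 :: ω') := reduced_append_right hr
    have hg := C.growth_aux _ ω' rfl h2
    set v := C.T (cs4.wordProd ω') C.o with hv
    have hPv : C.P v := C.P_T _ C.Po
    have hcount : (List.map Fin.succ β ++ 0 :: ω').count 0 - 1 = ω'.count 0 := by
      rw [List.count_append, count_succ, List.count_cons_self]; omega
    rw [hcount]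
    have e1 : C.B (C.T (cs4.wordProd (β.map Fin.succ ++ 0 :: ω')) C.o) C.o =
        C.B (C.R 0 v) (C.T (cs4.wordProd (β.map Fin.succ))⁻¹ C.o) := by
      rw [cs4.wordProd_append, cs4.wordProd_cons, T_mul, T_mul, T_simple, B_adj]
    rw [e1, R_apply, map_sub, map_smul, LinearMap.sub_apply, LinearMap.smul_apply, smul_eq_mul]
    have h3 : C.B v (C.T (cs4.wordProd (β.map Fin.succ))⁻¹ C.o) ≤ 0 :=
      C.P_pair _ _ hPv (C.P_T _ C.Po)
    have h4 : C.B (C.e 0) (C.T (cs4.wordProd (β.map Fin.succ))⁻¹ C.o) ≤ -C.a0 := by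
      rw [C.symm, B_adj, inv_inv]
      have := C.B_o_orbit hβ
      unfold a0
      linarith
    have h5 : 0 ≤ C.K ^ (List.count 0 ω') * C.a0 := by positivity
    have h6 : C.K ^ (List.count 0 ω') * C.a0 * C.a0 ≤ (-C.B v (C.e 0)) *
        (-C.B (C.e 0) (C.T (cs4.wordProd (β.map Fin.succ))⁻¹ C.o)) :=
      mul_le_mul hg (by linarith) ha0.le (h5.trans hg)
    nlinarith

/-- the action is faithful -/
theorem faithful {ω : List (Fin 4)} (hr : cs4.IsReduced ω)
    (hid : ∀ v, C.T (cs4.wordProd ω) v = v) : ω = [] := by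
  have ha0 := C.a0_pos
  have hK := C.K_gt
  rcases split0 ω with ⟨β, rfl⟩ | ⟨β, ω', rfl⟩
  · -- word in the special subgroup
    have hβ : cs3.IsReduced β := reduced_of_map hr
    rcases List.eq_nil_or_concat β with rfl | ⟨β', s, rfl⟩
    · rfl
    · exfalso
      rw [List.concat_eq_append] at hβ hid
      have hnd : ¬ cs3.IsRightDescent (cs3.wordProd β') s := by
        rw [CoxeterSystem.IsReduced, cs3.wordProd_append, cs3.wordProd_singleton,
          List.length_append] at hβ
        rw [CoxeterSystem.IsRightDescent]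
        have h2 := cs3.length_wordProd_le β'
        simp only [List.length_cons, List.length_nil] at hβ
        omega
      have hpos : 0 ≤ L3 C.c (cs3.wordProd β') (b3 s) := pos3 C.c C.hc.le _ _ rfl s hnd
      have h1 := hid (C.e s.succ)
      rw [← incl_wordProd, cs3.wordProd_append, cs3.wordProd_singleton, map_mul, T_mul,
        incl_simple, T_simple, R_apply, C.self] at h1
      have h2 : C.e s.succ - (2 * (1 : ℝ)) • C.e s.succ = -C.emb (b3 s) := by
        rw [emb_b3]; module
      rw [h2, map_neg, T_emb] at h1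
      have h3 := C.B_o_emb hpos
      have h4 := C.o_neg s.succ
      rw [← h1, map_neg] at h4
      linarith
  · exfalso
    have hβ : cs3.IsReduced β := reduced_of_map (reduced_append_left hr)
    have h2 : cs4.IsReduced (0 :: ω') := reduced_append_right hr
    have hg := C.growth_aux _ ω' rfl h2
    have h1 := hid C.o
    rw [cs4.wordProd_append, cs4.wordProd_cons, T_mul, T_mul, T_simple] at h1
    have h3 : C.T (cs4.wordProd ω') C.o =
        C.R 0 (C.T (cs4.wordProd (β.map Fin.succ))⁻¹ C.o) := by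
      have h4 := congrArg (C.T (cs4.wordProd (β.map Fin.succ))⁻¹) h1
      rw [T_inv] at h4
      rw [← h4]
      have := congrArg (fun f : Module.End ℝ V => f (C.T (cs4.wordProd ω') C.o)) (C.R_R 0)
      simpa [Module.End.mul_apply] using this.symm
    rw [h3, B_R_self, neg_neg, B_adj, inv_inv] at hg
    have h5 := C.B_o_orbit hβ
    have h6 := C.o_neg 0
    have h7 : 0 ≤ C.K ^ (List.count 0 ω') * C.a0 := by positivity
    linarith

/-- the reversed configuration -/
def rev : Conf V where
  B := C.B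
  symm := C.symm
  e i := C.e i.rev
  c := C.d
  d := C.c
  hc := C.hd
  hd := C.hc
  self i := C.self _
  e01 := by
    show C.B (C.e 3) (C.e 2) = _
    rw [C.symm]; exact C.e23
  e12 := by
    show C.B (C.e 2) (C.e 1) = _
    rw [C.symm]; exact C.e12
  e23 := by
    show C.B (C.e 1) (C.e 0) = _
    rw [C.symm]; exact C.e01
  e02 := by
    show C.B (C.e 3) (C.e 1) = _
    rw [C.symm]; exact C.e13
  e03 := by
    show C.B (C.e 3) (C.e 0) = _
    rw [C.symm]; exact C.e03
  e13 := by
    show C.B (C.e 2) (C.e 0) = _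
    rw [C.symm]; exact C.e02
  o := C.o
  P := C.P
  Po := C.Po
  o_neg i := C.o_neg _
  P_refl i v := C.P_refl _ v
  P_causal := C.P_causal
  P_pair := C.P_pair

theorem rev_R (i : Fin 4) : C.rev.R i.rev = C.R i := by
  apply LinearMap.ext
  intro v
  rw [R_apply, R_apply]
  have h : C.rev.e i.rev = C.e i := by
    show C.e i.rev.rev = C.e i
    rw [Fin.rev_rev]
  rw [h]
  rfl

theorem rev_T (ω : List (Fin 4)) (v : V) :
    C.rev.T (cs4.wordProd (ω.map Fin.rev)) v = C.T (cs4.wordProd ω) v := by
  induction ω with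
  | nil => simp
  | cons i ω ih =>
    rw [List.map_cons, cs4.wordProd_cons, cs4.wordProd_cons, T_mul, T_mul, ih, T_simple,
      T_simple, rev_R]

end Conf

/-- the diagram automorphism -/
def flip : W4 →* W4 := cs4.lift ⟨fun i => cs4.simple i.rev, by
  intro i j
  have h : M4 i j = M4 i.rev j.rev := by
    fin_cases i <;> fin_cases j <;> rfl
  rw [h]
  exact cs4.simple_mul_simple_pow _ _⟩

theorem flip_wordProd (ω : List (Fin 4)) :
    flip (cs4.wordProd ω) = cs4.wordProd (ω.map Fin.rev) := by
  induction ω with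
  | nil => simp
  | cons i ω ih =>
    rw [cs4.wordProd_cons, map_mul, ih, List.map_cons, cs4.wordProd_cons]
    congr 1

theorem reduced_rev {ω : List (Fin 4)} (h : cs4.IsReduced ω) :
    cs4.IsReduced (ω.map Fin.rev) := by
  obtain ⟨ω', h1, h2⟩ := cs4.exists_isReduced (cs4.wordProd (ω.map Fin.rev))
  have h3 : cs4.wordProd ω = cs4.wordProd (ω'.map Fin.rev) := by
    have h4 : (Fin.rev ∘ Fin.rev : Fin 4 → Fin 4) = id := by funext i; simp
    rw [← flip_wordProd, ← h2, flip_wordProd, List.map_map, h4, List.map_id]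
  rw [CoxeterSystem.IsReduced] at h h1 ⊢
  have h4 := cs4.length_wordProd_le (ω'.map Fin.rev)
  rw [← h3, h, List.length_map] at h4
  have h5 := cs4.length_wordProd_le (ω.map Fin.rev)
  rw [h2, h1] at h5 ⊢
  rw [List.length_map] at h5 ⊢
  omega

theorem Conf.growth3 {ω : List (Fin 4)} (hr : cs4.IsReduced ω) (h0 : 1 ≤ ω.count 3) :
    2 * C.rev.a0 ^ 2 * C.rev.K ^ (ω.count 3 - 1) ≤ -C.B (C.T (cs4.wordProd ω) C.o) C.o := by
  have hc : (ω.map Fin.rev).count 0 = ω.count 3 := by
    have : (0 : Fin 4) = Fin.rev 3 := rfl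
    rw [this, List.count_map_of_injective _ _ Fin.rev_injective]
  have h := C.rev.growth0 (reduced_rev hr) (by rw [hc]; exact h0)
  rw [hc, C.rev_T] at h
  exact h

end Pool.Agent.Y473.MC
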