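import Pool.Agent.Y473.MC.Unstable

/-!
# The local unstable manifold: construction and a point with first trace equal to 2
-/

namespace Pool.Agent.Y473.MC

open Matrix Topology Filter Metric

theorem differentiable_PF : Differentiable ℂ PF := adm_F.diff
theorem differentiable_PG : Differentiable ℂ PG := adm_G.diff

theorem differentiable_G6 : Differentiable ℂ G6 := (adm_F.pow 6).diff

theorem continuous_G6 : Continuous G6 := differentiable_G6.continuous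

theorem G6_q0 : G6 q0 = q0 := by
  simp [G6, q0, PF]

theorem mk3_G6 (w : ℂ × ℂ × ℂ) : mk3 (G6 w) = mk3 w := (adm_F.pow 6).inv w

/-- the region on the imaginary axis -/
def Kt (t : ℝ) (w : ℂ × ℂ × ℂ) : Prop := w.1.im = 0 ∧ w.2.1.re = 0 ∧ w.2.2.re = 0 ∧
  1 ≤ w.1.re ∧ gm * t ≤ w.2.1.im ∧ t ≤ w.2.2.im

theorem isClosed_Kt (t : ℝ) : IsClosed {w | Kt t w} := by
  have h1 : Continuous fun w : ℂ × ℂ × ℂ => w.1.im := Complex.continuous_im.comp continuous_fst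
  have h2 : Continuous fun w : ℂ × ℂ × ℂ => w.2.1.re :=
    Complex.continuous_re.comp (continuous_fst.comp continuous_snd)
  have h3 : Continuous fun w : ℂ × ℂ × ℂ => w.2.2.re :=
    Complex.continuous_re.comp (continuous_snd.comp continuous_snd)
  have h4 : Continuous fun w : ℂ × ℂ × ℂ => w.1.re := Complex.continuous_re.comp continuous_fst
  have h5 : Continuous fun w : ℂ × ℂ × ℂ => w.2.1.im :=
    Complex.continuous_im.comp (continuous_fst.comp continuous_snd)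
  have h6 : Continuous fun w : ℂ × ℂ × ℂ => w.2.2.im :=
    Complex.continuous_im.comp (continuous_snd.comp continuous_snd)
  simp only [Kt, Set.ofPred_and]
  exact (isClosed_eq h1 continuous_const).inter ((isClosed_eq h2 continuous_const).inter
    ((isClosed_eq h3 continuous_const).inter ((isClosed_le continuous_const h4).inter
    ((isClosed_le continuous_const h5).inter (isClosed_le continuous_const h6)))))

theorem G6_imag (x Y Z : ℝ) : ∃ X' Y' Z' : ℝ,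
    G6 ((x : ℂ), Complex.I * Y, Complex.I * Z) = ((X' : ℂ), Complex.I * Y', Complex.I * Z') ∧
    (1 ≤ x → 0 ≤ Y → 0 ≤ Z → x + Y * Z ≤ X' ∧ 2 * Y + Z ≤ Y' ∧ Y + Z ≤ Z') := by
  have hI : Complex.I * Complex.I = -1 := Complex.I_mul_I
  let X1 : ℝ := x + Y * Z
  let V : ℝ := Z * X1 + Y
  let W : ℝ := X1 * V - Z
  let X2 : ℝ := X1 + V * W
  let Y1 : ℝ := X2 * W + V
  let Z1 : ℝ := X2 * Y1 - W
  refine ⟨X2, Y1, Z1, ?_, ?_⟩
  · have s1 : PF ((x : ℂ), Complex.I * Y, Complex.I * Z) =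
        (Complex.I * Y, Complex.I * Z, -((X1 : ℝ) : ℂ)) := by
      refine Prod.ext rfl (Prod.ext rfl ?_)
      simp only [PF, X1]; push_cast
      linear_combination ((Y : ℂ) * Z) * hI
    have s2 : PF (Complex.I * Y, Complex.I * Z, -((X1 : ℝ) : ℂ)) =
        (Complex.I * Z, -((X1 : ℝ) : ℂ), -(Complex.I * (V : ℝ))) := by
      refine Prod.ext rfl (Prod.ext rfl ?_)
      simp only [PF, V]; push_cast; ring
    have s3 : PF (Complex.I * Z, -((X1 : ℝ) : ℂ), -(Complex.I * (V : ℝ))) =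
        (-((X1 : ℝ) : ℂ), -(Complex.I * (V : ℝ)), Complex.I * (W : ℝ)) := by
      refine Prod.ext rfl (Prod.ext rfl ?_)
      simp only [PF, W]; push_cast; ring
    have s4 : PF (-((X1 : ℝ) : ℂ), -(Complex.I * (V : ℝ)), Complex.I * (W : ℝ)) =
        (-(Complex.I * (V : ℝ)), Complex.I * (W : ℝ), ((X2 : ℝ) : ℂ)) := by
      refine Prod.ext rfl (Prod.ext rfl ?_)
      simp only [PF, X2]; push_cast
      linear_combination (-(V : ℂ) * W) * hI
    have s5 : PF (-(Complex.I * (V : ℝ)), Complex.I * (W : ℝ), ((X2 : ℝ) : ℂ)) =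
        (Complex.I * (W : ℝ), ((X2 : ℝ) : ℂ), Complex.I * (Y1 : ℝ)) := by
      refine Prod.ext rfl (Prod.ext rfl ?_)
      simp only [PF, Y1]; push_cast; ring
    have s6 : PF (Complex.I * (W : ℝ), ((X2 : ℝ) : ℂ), Complex.I * (Y1 : ℝ)) =
        (((X2 : ℝ) : ℂ), Complex.I * (Y1 : ℝ), Complex.I * (Z1 : ℝ)) := by
      refine Prod.ext rfl (Prod.ext rfl ?_)
      simp only [PF, Z1]; push_cast; ring
    have hG : G6 = PF ∘ PF ∘ PF ∘ PF ∘ PF ∘ PF := rfl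
    rw [hG]
    simp only [Function.comp]
    rw [s1, s2, s3, s4, s5, s6]
  · intro hx hY hZ
    have hX1 : x ≤ X1 := by simp only [X1]; nlinarith [mul_nonneg hY hZ]
    have hX1' : 1 ≤ X1 := hx.trans hX1
    have hV : Y + Z ≤ V := by simp only [V]; nlinarith
    have hV0 : 0 ≤ V := by linarith
    have hW : Y ≤ W := by
      have : V ≤ X1 * V := by nlinarith
      simp only [W]; linarith
    have hW0 : 0 ≤ W := by linarith
    have hX2 : X1 ≤ X2 := by simp only [X2]; nlinarith [mul_nonneg hV0 hW0]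
    have hX2' : 1 ≤ X2 := hX1'.trans hX2
    have hY1 : W + V ≤ Y1 := by
      have : W ≤ X2 * W := by nlinarith
      simp only [Y1]; linarith
    have hZ1 : V ≤ Z1 := by
      have : Y1 ≤ X2 * Y1 := by nlinarith
      simp only [Z1]; linarith
    refine ⟨?_, by linarith, by linarith⟩
    have : X1 = x + Y * Z := rfl
    linarith

theorem Kt_G6 {t : ℝ} (ht : 0 ≤ t) {w : ℂ × ℂ × ℂ} (h : Kt t w) :
    Kt (lam * t) (G6 w) ∧ w.1.re + t ^ 2 ≤ (G6 w).1.re := by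
  obtain ⟨h1, h2, h3, h4, h5, h6⟩ := h
  obtain ⟨x, y, z⟩ := w
  simp only at h1 h2 h3 h4 h5 h6
  have e : ((x, y, z) : ℂ × ℂ × ℂ) = ((x.re : ℂ), Complex.I * y.im, Complex.I * z.im) := by
    refine Prod.ext ?_ (Prod.ext ?_ ?_)
    · apply Complex.ext <;> simp [h1]
    · apply Complex.ext <;> simp [h2]
    · apply Complex.ext <;> simp [h3]
  obtain ⟨X', Y', Z', hG, hin⟩ := G6_imag x.re y.im z.im
  have hgm := gm_gt
  have hY0 : 0 ≤ y.im := le_trans (by positivity) h5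
  have hZ0 : 0 ≤ z.im := ht.trans h6
  obtain ⟨k1, k2, k3⟩ := hin h4 hY0 hZ0
  rw [e, hG]
  have g2 := gm_sq
  have ht2 : t ^ 2 ≤ y.im * z.im := by
    have a1 : t ≤ y.im := by nlinarith
    calc t ^ 2 = t * t := by ring
      _ ≤ y.im * z.im := mul_le_mul a1 h6 ht hY0
  refine ⟨⟨by simp, by simp, by simp, ?_, ?_, ?_⟩, ?_⟩
  · simp only [Complex.ofReal_re]; nlinarith
  · simp only [Complex.mul_im, Complex.I_re, Complex.I_im, Complex.ofReal_re, Complex.ofReal_im,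
      lam]
    nlinarith
  · simp only [Complex.mul_im, Complex.I_re, Complex.I_im, Complex.ofReal_re, Complex.ofReal_im,
      lam]
    nlinarith
  · simp only [Complex.ofReal_re]; nlinarith

theorem Kt_mono {s t : ℝ} (h : s ≤ t) {w : ℂ × ℂ × ℂ} (hw : Kt t w) : Kt s w := by
  obtain ⟨h1, h2, h3, h4, h5, h6⟩ := hw
  have := gm_gt
  exact ⟨h1, h2, h3, h4, le_trans (by nlinarith) h5, h.trans h6⟩

theorem Kt_iter {t : ℝ} (ht : 0 ≤ t) {w : ℂ × ℂ × ℂ} (h : Kt t w) (n : ℕ) :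
    Kt t (G6^[n] w) ∧ 1 + n * t ^ 2 ≤ (G6^[n] w).1.re := by
  induction n with
  | zero => exact ⟨h, by simpa using h.2.2.2.1⟩
  | succ n ih =>
    rw [Function.iterate_succ_apply']
    obtain ⟨k1, k2⟩ := Kt_G6 ht ih.1
    refine ⟨Kt_mono (by nlinarith [lam_gt]) k1, ?_⟩
    push_cast
    nlinarith [ih.2]

theorem Kt_w0 {t : ℝ} : Kt t (w0 (Complex.I * t)) := by
  refine ⟨?_, ?_, ?_, ?_, ?_, ?_⟩ <;> simp [w0]

theorem Kt_pow (n : ℕ) {t : ℝ} (ht : 0 ≤ t) {w : ℂ × ℂ × ℂ} (h : Kt t w) :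
    Kt (lam ^ n * t) (G6^[n] w) := by
  induction n with
  | zero => simpa using h
  | succ n ih =>
    rw [Function.iterate_succ_apply', pow_succ', mul_assoc]
    exact (Kt_G6 (by have := lam_pos; positivity) ih).1

/-- the local unstable manifold -/
theorem exists_psi : ∃ (r : ℝ) (ψ : ℂ → ℂ × ℂ × ℂ), 0 < r ∧ DifferentiableOn ℂ ψ (ball 0 r) ∧
    (∀ ζ ∈ ball (0 : ℂ) r, mk3 (ψ ζ) = 1) ∧ ψ 0 = q0 ∧
    (∀ ζ ∈ ball (0 : ℂ) r, G6 (ψ ((lam : ℂ)⁻¹ * ζ)) = ψ ζ) ∧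
    (∀ t : ℝ, 0 ≤ t → t < r → Kt t (ψ (Complex.I * t))) := by
  obtain ⟨C, hC, hC'⟩ := G6_w0
  obtain ⟨s, hs, hlip⟩ := lip_G6
  obtain ⟨R, hR, hRs⟩ := Metric.mem_nhds_iff.mp hs
  set r : ℝ := min 1 (R / (3 + C)) with hr
  have hr0 : 0 < r := by rw [hr]; positivity
  have hr1 : r ≤ 1 := min_le_left _ _
  have hr2 : (2 + C) * r < R := by
    have : r ≤ R / (3 + C) := min_le_right _ _
    calc (2 + C) * r ≤ (2 + C) * (R / (3 + C)) := by
          exact mul_le_mul_of_nonneg_left this (by positivity)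
      _ < R := by
          rw [← mul_div_assoc, div_lt_iff₀ (by positivity)]
          nlinarith
  have hl := lam_gt
  have hlp := lam_pos
  have hlC : (lam : ℂ) ≠ 0 := by exact_mod_cast hlp.ne'
  have hln : ‖(lam : ℂ)‖ = lam := by rw [Complex.norm_real, Real.norm_of_nonneg hlp.le]
  have hw0 : ∀ ζ : ℂ, ‖w0 ζ - q0‖ ≤ 2 * ‖ζ‖ := by
    intro ζ
    have hm : ∀ a b c : ℂ, ‖((a, b, c) : ℂ × ℂ × ℂ)‖ = max ‖a‖ (max ‖b‖ ‖c‖) := fun a b c => rfl
    rw [w0, q0, Prod.mk_sub_mk, Prod.mk_sub_mk, hm]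
    have h1 := norm_nonneg ζ
    refine max_le ?_ (max_le ?_ ?_)
    · simp
    · simp only [sub_zero, norm_mul, Complex.norm_real]
      rw [Real.norm_of_nonneg (by linarith [gm_gt])]
      nlinarith [gm_lt]
    · simp only [sub_zero]; linarith
  -- orbit stays close
  have hball : ∀ (ξ : ℂ) (p : ℂ × ℂ × ℂ), ‖ξ‖ ≤ r → ‖p - w0 ξ‖ ≤ C * ‖ξ‖ ^ 2 → p ∈ s := by
    intro ξ p hξ hp
    apply hRs
    rw [mem_ball, dist_eq_norm]
    have h1 : ‖p - q0‖ ≤ ‖p - w0 ξ‖ + ‖w0 ξ - q0‖ := norm_sub_le_norm_sub_add_norm_sub _ _ _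
    have h2 := hw0 ξ
    have h3 : ‖ξ‖ ^ 2 ≤ ‖ξ‖ := by nlinarith [norm_nonneg ξ]
    have h4 : C * ‖ξ‖ ^ 2 ≤ C * ‖ξ‖ := mul_le_mul_of_nonneg_left h3 hC.le
    have h5 : (2 + C) * ‖ξ‖ ≤ (2 + C) * r := mul_le_mul_of_nonneg_left hξ (by positivity)
    nlinarith
  have hE : ∀ (k : ℕ) (η : ℂ), ‖(lam : ℂ) ^ k * η‖ ≤ r →
      ‖G6^[k] (w0 η) - w0 ((lam : ℂ) ^ k * η)‖ ≤ C * ‖(lam : ℂ) ^ k * η‖ ^ 2 := by
    intro k
    induction k with
    | zero => intro η _; simp; positivity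
    | succ k ih =>
      intro η hη
      have e1 : ‖(lam : ℂ) ^ (k + 1) * η‖ = lam * ‖(lam : ℂ) ^ k * η‖ := by
        rw [pow_succ', mul_assoc, norm_mul, hln]
      have h0 := norm_nonneg ((lam : ℂ) ^ k * η)
      have hk : ‖(lam : ℂ) ^ k * η‖ ≤ r := by
        rw [e1] at hη; nlinarith
      have i1 := ih η hk
      rw [Function.iterate_succ_apply']
      set ξ := (lam : ℂ) ^ k * η with hξ
      have e2 : (lam : ℂ) ^ (k + 1) * η = lam * ξ := by rw [pow_succ', mul_assoc]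
      have e3 : ‖(lam : ℂ) * ξ‖ = lam * ‖ξ‖ := by rw [norm_mul, hln]
      rw [e2]
      have m1 : G6^[k] (w0 η) ∈ s := hball ξ _ hk i1
      have m2 : w0 ξ ∈ s := hball ξ _ hk (by simp; positivity)
      have l1 : ‖G6 (G6^[k] (w0 η)) - G6 (w0 ξ)‖ ≤ 4 * ‖G6^[k] (w0 η) - w0 ξ‖ := by
        have := hlip.dist_le_mul _ m1 _ m2
        rwa [dist_eq_norm, dist_eq_norm] at this
      have l2 : ‖G6 (w0 ξ) - w0 (lam * ξ)‖ ≤ C * ‖ξ‖ ^ 2 := hC' ξ (hk.trans hr1)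
      have l3 : ‖G6 (G6^[k] (w0 η)) - w0 (lam * ξ)‖ ≤
          ‖G6 (G6^[k] (w0 η)) - G6 (w0 ξ)‖ + ‖G6 (w0 ξ) - w0 (lam * ξ)‖ :=
        norm_sub_le_norm_sub_add_norm_sub _ _ _
      rw [e3]
      have q : 0 ≤ C * ‖ξ‖ ^ 2 := by positivity
      have q2 : C * (lam * ‖ξ‖) ^ 2 = lam ^ 2 * (C * ‖ξ‖ ^ 2) := by ring
      rw [q2]
      have hl2 : 5 ≤ lam ^ 2 := by nlinarith
      have hl3 := mul_le_mul_of_nonneg_right hl2 q
      linarith
  -- the approximations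
  set Φ : ℕ → ℂ → ℂ × ℂ × ℂ := fun n ζ => G6^[n] (w0 (((lam : ℂ)⁻¹) ^ n * ζ)) with hΦ
  have hF : ∀ (n : ℕ) (ζ : ℂ), ‖ζ‖ ≤ r → ∀ k ≤ n,
      ‖G6^[k] (G6 (w0 (((lam : ℂ)⁻¹) ^ (n + 1) * ζ))) - G6^[k] (w0 (((lam : ℂ)⁻¹) ^ n * ζ))‖ ≤
        4 ^ k * (C * ‖((lam : ℂ)⁻¹) ^ (n + 1) * ζ‖ ^ 2) := by
    intro n ζ hζ k
    have hinv : ∀ m : ℕ, ‖((lam : ℂ)⁻¹) ^ m‖ ≤ 1 := by
      intro m
      rw [norm_pow, norm_inv, hln]
      exact pow_le_one₀ (by positivity) (inv_le_one_of_one_le₀ (by linarith))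
    have hsmall : ∀ m : ℕ, ‖((lam : ℂ)⁻¹) ^ m * ζ‖ ≤ r := by
      intro m
      rw [norm_mul]
      calc _ ≤ 1 * ‖ζ‖ := mul_le_mul_of_nonneg_right (hinv m) (norm_nonneg _)
        _ ≤ r := by rw [one_mul]; exact hζ
    have hcanc : ∀ j m : ℕ, j ≤ m → (lam : ℂ) ^ j * (((lam : ℂ)⁻¹) ^ m * ζ) =
        ((lam : ℂ)⁻¹) ^ (m - j) * ζ := by
      intro j m hjm
      obtain ⟨d, rfl⟩ := Nat.exists_eq_add_of_le hjm
      rw [Nat.add_sub_cancel_left, pow_add]
      have : (lam : ℂ) ^ j * ((lam : ℂ)⁻¹) ^ j = 1 := by rw [← mul_pow, mul_inv_cancel₀ hlC, one_pow]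
      linear_combination (((lam : ℂ)⁻¹) ^ d * ζ) * this
    induction k with
    | zero =>
      intro _
      have h := hC' (((lam : ℂ)⁻¹) ^ (n + 1) * ζ) ((hsmall _).trans hr1)
      have e : (lam : ℂ) * (((lam : ℂ)⁻¹) ^ (n + 1) * ζ) = ((lam : ℂ)⁻¹) ^ n * ζ := by
        have := hcanc 1 (n + 1) (by omega)
        simpa using this
      rw [e] at h
      simpa using h
    | succ k ih =>
      intro hk
      have i1 := ih (by omega)
      rw [Function.iterate_succ_apply', Function.iterate_succ_apply']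
      have m1 : G6^[k] (G6 (w0 (((lam : ℂ)⁻¹) ^ (n + 1) * ζ))) ∈ s := by
        rw [← Function.iterate_succ_apply]
        have hh := hcanc (k + 1) (n + 1) (by omega)
        refine hball ((lam : ℂ) ^ (k + 1) * (((lam : ℂ)⁻¹) ^ (n + 1) * ζ)) _ ?_ (hE _ _ ?_)
        · rw [hh]; exact hsmall _
        · rw [hh]; exact hsmall _
      have m2 : G6^[k] (w0 (((lam : ℂ)⁻¹) ^ n * ζ)) ∈ s := by
        have hh := hcanc k n (by omega)
        refine hball ((lam : ℂ) ^ k * (((lam : ℂ)⁻¹) ^ n * ζ)) _ ?_ (hE _ _ ?_)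
        · rw [hh]; exact hsmall _
        · rw [hh]; exact hsmall _
      have := hlip.dist_le_mul _ m1 _ m2
      have h4 : ((4 : NNReal) : ℝ) = 4 := by norm_num
      rw [dist_eq_norm, dist_eq_norm, h4] at this
      refine this.trans ?_
      calc _ ≤ 4 * (4 ^ k * (C * ‖((lam : ℂ)⁻¹) ^ (n + 1) * ζ‖ ^ 2)) :=
            mul_le_mul_of_nonneg_left i1 (by norm_num)
        _ = 4 ^ (k + 1) * (C * ‖((lam : ℂ)⁻¹) ^ (n + 1) * ζ‖ ^ 2) := by
            rw [pow_succ' 4 k, mul_assoc]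
  have hdist : ∀ (ζ : ℂ), ‖ζ‖ ≤ r → ∀ n, dist (Φ n ζ) (Φ (n + 1) ζ) ≤ C * (2 / 3) ^ n := by
    intro ζ hζ n
    have h := hF n ζ hζ n le_rfl
    rw [dist_comm, dist_eq_norm]
    have e : Φ (n + 1) ζ = G6^[n] (G6 (w0 (((lam : ℂ)⁻¹) ^ (n + 1) * ζ))) := by
      simp only [hΦ, Function.iterate_succ_apply]
    rw [e]
    refine h.trans ?_
    rw [norm_mul, norm_pow, norm_inv, hln, mul_pow]
    have h1 : ‖ζ‖ ^ 2 ≤ 1 := pow_le_one₀ (norm_nonneg _) (hζ.trans hr1)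
    have h2 : ((lam⁻¹) ^ (n + 1)) ^ 2 ≤ ((lam⁻¹) ^ 2) ^ n := by
      rw [← pow_mul, ← pow_mul]
      exact pow_le_pow_of_le_one (by positivity) (inv_le_one_of_one_le₀ (by linarith)) (by omega)
    have h3 : (lam⁻¹) ^ 2 ≤ 1 / 6 := by
      rw [inv_pow, ← one_div]
      exact one_div_le_one_div_of_le (by norm_num) (by nlinarith)
    have h4 : ((lam⁻¹) ^ 2) ^ n ≤ (1 / 6) ^ n := pow_le_pow_left₀ (by positivity) h3 n
    calc (4 : ℝ) ^ n * (C * (((lam⁻¹) ^ (n + 1)) ^ 2 * ‖ζ‖ ^ 2))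
        ≤ 4 ^ n * (C * ((1 / 6) ^ n * 1)) := by
          refine mul_le_mul_of_nonneg_left (mul_le_mul_of_nonneg_left ?_ hC.le) (by positivity)
          exact mul_le_mul (h2.trans h4) h1 (by positivity) (by positivity)
      _ = C * (4 ^ n * (1 / 6) ^ n) := by ring
      _ = C * (2 / 3) ^ n := by rw [← mul_pow]; norm_num
  have hcau : ∀ ζ : ℂ, ‖ζ‖ ≤ r → ∃ p, Tendsto (fun n => Φ n ζ) atTop (𝓝 p) := fun ζ hζ =>
    cauchySeq_tendsto_of_complete (cauchySeq_of_le_geometric _ _ (by norm_num) (hdist ζ hζ))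
  set ψ : ℂ → ℂ × ℂ × ℂ := fun ζ => limUnder atTop (fun n => Φ n ζ) with hψ
  have hlim : ∀ ζ : ℂ, ‖ζ‖ ≤ r → Tendsto (fun n => Φ n ζ) atTop (𝓝 (ψ ζ)) := fun ζ hζ =>
    tendsto_nhds_limUnder (hcau ζ hζ)
  have hunif : ∀ ζ : ℂ, ‖ζ‖ ≤ r → ∀ n, dist (Φ n ζ) (ψ ζ) ≤ C * (2 / 3) ^ n / (1 - 2 / 3) :=
    fun ζ hζ n => dist_le_of_le_geometric_of_tendsto _ _ (by norm_num) (hdist ζ hζ) (hlim ζ hζ) n
  have hTU : TendstoUniformlyOn Φ ψ atTop (ball 0 r) := by
    rw [Metric.tendstoUniformlyOn_iff]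
    intro ε hε
    have ht : Tendsto (fun n : ℕ => C * (2 / 3 : ℝ) ^ n / (1 - 2 / 3)) atTop (𝓝 0) := by
      have := ((tendsto_pow_atTop_nhds_zero_of_lt_one (by norm_num : (0 : ℝ) ≤ 2 / 3)
        (by norm_num)).const_mul C).div_const (1 - 2 / 3)
      simpa using this
    filter_upwards [ht.eventually (gt_mem_nhds hε)] with n hn ζ hζ
    rw [dist_comm]
    exact (hunif ζ (by simpa using (mem_ball.mp hζ).le) n).trans_lt hn
  have hw0d : Differentiable ℂ w0 := by unfold w0; fun_prop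
  have hG6n : ∀ n, Differentiable ℂ (G6^[n]) := fun n => differentiable_G6.iterate n
  have hΦd : ∀ n, Differentiable ℂ (Φ n) := fun n =>
    (hG6n n).comp (hw0d.comp ((differentiable_const _).mul differentiable_id))
  have hmkc : Continuous mk3 := by unfold mk3; fun_prop
  have hlim0 : ∀ ζ : ℂ, Tendsto (fun n : ℕ => ((lam : ℂ)⁻¹) ^ n * ζ) atTop (𝓝 0) := by
    intro ζ
    have := (tendsto_pow_atTop_nhds_zero_of_norm_lt_one (x := (lam : ℂ)⁻¹) (by
      rw [norm_inv, hln]; exact inv_lt_one_of_one_lt₀ (by linarith))).mul_const ζ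
    simpa using this
  have hmkG : ∀ n w, mk3 (G6^[n] w) = mk3 w := by
    intro n
    induction n with
    | zero => intro w; rfl
    | succ n ih => intro w; rw [Function.iterate_succ_apply, ih, mk3_G6]
  refine ⟨r, ψ, hr0, ?_, ?_, ?_, ?_, ?_⟩
  · exact hTU.tendstoLocallyUniformlyOn.differentiableOn
      (Eventually.of_forall fun n => (hΦd n).differentiableOn) isOpen_ball
  · intro ζ hζ
    have hζ' : ‖ζ‖ ≤ r := by simpa using (mem_ball.mp hζ).le
    have h1 : Tendsto (fun n => mk3 (Φ n ζ)) atTop (𝓝 (mk3 (ψ ζ))) :=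
      (hmkc.tendsto _).comp (hlim ζ hζ')
    have h2 : Tendsto (fun n => mk3 (Φ n ζ)) atTop (𝓝 (mk3 (w0 0))) := by
      simp only [hΦ, hmkG]
      exact ((hmkc.comp hw0d.continuous).tendsto _).comp (hlim0 ζ)
    rw [tendsto_nhds_unique h1 h2]
    simp [mk3, w0]
  · have h1 : ∀ n, Φ n 0 = q0 := by
      intro n
      have e : w0 (((lam : ℂ)⁻¹) ^ n * 0) = q0 := by simp [w0, q0]
      simp only [hΦ]
      rw [e]
      exact Function.iterate_fixed G6_q0 n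
    have h2 := hlim 0 (by simpa using hr0.le)
    simp only [h1] at h2
    exact tendsto_nhds_unique h2 tendsto_const_nhds
  · intro ζ hζ
    have hζ' : ‖ζ‖ ≤ r := by simpa using (mem_ball.mp hζ).le
    have hζ2 : ‖(lam : ℂ)⁻¹ * ζ‖ ≤ r := by
      rw [norm_mul, norm_inv, hln]
      calc _ ≤ 1 * ‖ζ‖ := mul_le_mul_of_nonneg_right (inv_le_one_of_one_le₀ (by linarith))
            (norm_nonneg _)
        _ ≤ r := by rw [one_mul]; exact hζ'
    have h1 : Tendsto (fun n => G6 (Φ n ((lam : ℂ)⁻¹ * ζ))) atTop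
        (𝓝 (G6 (ψ ((lam : ℂ)⁻¹ * ζ)))) :=
      (continuous_G6.tendsto _).comp (hlim _ hζ2)
    have h2 : Tendsto (fun n => Φ (n + 1) ζ) atTop (𝓝 (ψ ζ)) :=
      (hlim ζ hζ').comp (tendsto_add_atTop_nat 1)
    have e : ∀ n, G6 (Φ n ((lam : ℂ)⁻¹ * ζ)) = Φ (n + 1) ζ := by
      intro n
      simp only [hΦ]
      rw [Function.iterate_succ_apply']
      congr 3
      rw [pow_succ]; ring
    simp only [e] at h1
    exact tendsto_nhds_unique h1 h2
  · intro t ht htr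
    have hn : ‖Complex.I * (t : ℂ)‖ ≤ r := by
      rw [norm_mul, Complex.norm_I, one_mul, Complex.norm_real, Real.norm_of_nonneg ht]
      exact htr.le
    refine (isClosed_Kt t).mem_of_tendsto (hlim _ hn) (Eventually.of_forall fun n => ?_)
    show Kt t (Φ n (Complex.I * t))
    have h := Kt_pow n (t := lam⁻¹ ^ n * t) (by positivity)
      (w := w0 (Complex.I * ((lam⁻¹ ^ n * t : ℝ) : ℂ))) Kt_w0
    have e1 : lam ^ n * (lam⁻¹ ^ n * t) = t := by
      rw [← mul_assoc, ← mul_pow, mul_inv_cancel₀ hlp.ne', one_pow, one_mul]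
    have e2 : (Complex.I * ((lam⁻¹ ^ n * t : ℝ) : ℂ)) = ((lam : ℂ)⁻¹) ^ n * (Complex.I * t) := by
      push_cast; ring
    rw [e1, e2] at h
    exact h

theorem PG6_G6 (w : ℂ × ℂ × ℂ) : PG^[6] (G6 w) = w := by
  have h : G6 w = PF^[6] w := rfl
  rw [h]
  exact Function.LeftInverse.iterate PG_PF 6 w

/-- a holomorphic disc of characters, all backward asymptotic to the unitary point `q0`, containing
a point at which some simple trace equals `2` -/
theorem exists_disc : ∃ (r : ℝ) (ψ : ℂ → ℂ × ℂ × ℂ) (g : MulAut Orb)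
    (P : ℂ × ℂ × ℂ → ℂ × ℂ × ℂ) (ζ0 : ℂ), 0 < r ∧ DifferentiableOn ℂ ψ (ball 0 r) ∧
    (∀ ζ ∈ ball (0 : ℂ) r, mk3 (ψ ζ) = 1) ∧ Re3 (ψ 0) ∧ Adm g P ∧ ζ0 ∈ ball (0 : ℂ) r ∧
    (P (ψ ζ0)).1 = 2 ∧
    ∀ ζ ∈ ball (0 : ℂ) r, Tendsto (fun n : ℕ => PG^[6 * n] (ψ ζ)) atTop (𝓝 q0) := by
  obtain ⟨r, ψ, hr, hd, hm, h0, hfe, hK⟩ := exists_psi
  have hl := lam_gt
  have hlp := lam_pos
  have hln : ‖(lam : ℂ)‖ = lam := by rw [Complex.norm_real, Real.norm_of_nonneg hlp.le]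
  -- choose a time for which the first coordinate exceeds 2
  set t1 : ℝ := r / 2 with ht1
  have ht1p : 0 < t1 := by positivity
  have ht1r : t1 < r := by linarith
  obtain ⟨n, hn⟩ : ∃ n : ℕ, 1 < n * t1 ^ 2 := by
    obtain ⟨n, hn⟩ := exists_nat_gt (1 / t1 ^ 2)
    exact ⟨n, by rwa [div_lt_iff₀ (by positivity)] at hn⟩
  have hbig : 2 < (G6^[n] (ψ (Complex.I * t1))).1.re := by
    have := (Kt_iter ht1p.le (hK t1 ht1p.le ht1r) n).2
    linarith
  have hG6n : Continuous (G6^[n]) := continuous_G6.iterate n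
  have hcont : ContinuousOn (fun t : ℝ => (G6^[n] (ψ (Complex.I * t))).1.re) (Set.Icc 0 t1) := by
    refine Complex.continuous_re.comp_continuousOn (continuous_fst.comp_continuousOn
      (hG6n.comp_continuousOn (hd.continuousOn.comp (by fun_prop) ?_)))
    intro t ht
    rw [mem_ball_zero_iff, norm_mul, Complex.norm_I, one_mul, Complex.norm_real,
      Real.norm_of_nonneg ht.1]
    linarith [ht.2]
  have hz : (G6^[n] (ψ (Complex.I * ((0 : ℝ) : ℂ)))).1.re = 1 := by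
    rw [Complex.ofReal_zero, mul_zero, h0, Function.iterate_fixed G6_q0 n]
    simp [q0]
  obtain ⟨t0, ht0, ht0'⟩ := intermediate_value_Icc ht1p.le hcont
    (show (2 : ℝ) ∈ Set.Icc _ _ from ⟨by simp only [hz]; norm_num, hbig.le⟩)
  have hKt := (Kt_iter ht0.1 (hK t0 ht0.1 (by linarith [ht0.2])) n).1
  refine ⟨r, ψ, (Orb.F ^ 6) ^ n, G6^[n], Complex.I * t0, hr, hd, hm, ?_,
    (adm_F.pow 6).pow n, ?_, ?_, ?_⟩
  · rw [h0]; simp [Re3, q0]
  · rw [mem_ball_zero_iff, norm_mul, Complex.norm_I, one_mul, Complex.norm_real,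
      Real.norm_of_nonneg ht0.1]
    linarith [ht0.2]
  · apply Complex.ext
    · simpa using ht0'
    · simpa using hKt.1
  · intro ζ hζ
    have hin : ∀ m : ℕ, ((lam : ℂ)⁻¹) ^ m * ζ ∈ ball (0 : ℂ) r := by
      intro m
      rw [mem_ball_zero_iff, norm_mul, norm_pow, norm_inv, hln]
      have : lam⁻¹ ^ m ≤ 1 := pow_le_one₀ (by positivity) (inv_le_one_of_one_le₀ (by linarith))
      calc _ ≤ 1 * ‖ζ‖ := mul_le_mul_of_nonneg_right this (norm_nonneg _)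
        _ < r := by rw [one_mul]; simpa using hζ
    have e : ∀ m : ℕ, PG^[6 * m] (ψ ζ) = ψ (((lam : ℂ)⁻¹) ^ m * ζ) := by
      intro m
      induction m with
      | zero => simp
      | succ m ih =>
        rw [Nat.mul_succ, Nat.add_comm, Function.iterate_add_apply, ih, ← hfe _ (hin m), PG6_G6]
        congr 1
        rw [pow_succ]; ring
    simp only [e]
    rw [← h0]
    have hc : ContinuousAt ψ 0 :=
      (hd.continuousOn).continuousAt (isOpen_ball.mem_nhds (by simpa using hr))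
    have hlim0 : Tendsto (fun n : ℕ => ((lam : ℂ)⁻¹) ^ n * ζ) atTop (𝓝 0) := by
      have := (tendsto_pow_atTop_nhds_zero_of_norm_lt_one (x := (lam : ℂ)⁻¹) (by
        rw [norm_inv, hln]; exact inv_lt_one_of_one_lt₀ (by linarith))).mul_const ζ
      simpa using this
    exact hc.tendsto.comp hlim0

end Pool.Agent.Y473.MC
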