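import Pool.Agent.Y473.MC.Stage
import Pool.Agent.Y473.MC.Unstable2

/-!
# A character whose orbit accumulates at the unitary point and at a maximal cusp
-/

namespace Pool.Agent.Y473.MC

open Matrix Topology Filter Metric

/-- trace coordinates of the maximal cusp -/
noncomputable def pp : ℂ × ℂ × ℂ := (2, 2, 2 + Complex.I * √3)
/-- trace coordinates of the complex conjugate of the maximal cusp -/
noncomputable def pm : ℂ × ℂ × ℂ := (2, 2, 2 - Complex.I * √3)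

/-- closeness to one of the two cusps -/
def Near (ε : ℝ) (w : ℂ × ℂ × ℂ) : Prop := ‖w - pp‖ < ε ∨ ‖w - pm‖ < ε

theorem isOpen_near (ε : ℝ) : IsOpen {w | Near ε w} := by
  have h1 : IsOpen {w : ℂ × ℂ × ℂ | ‖w - pp‖ < ε} :=
    isOpen_lt (by fun_prop) continuous_const
  have h2 : IsOpen {w : ℂ × ℂ × ℂ | ‖w - pm‖ < ε} :=
    isOpen_lt (by fun_prop) continuous_const
  exact h1.union h2

theorem near_of {w : ℂ × ℂ × ℂ} {ε : ℝ} (h : mk3 w = 1) (h2 : w.2.1 = 2) (h1 : ‖w.1 - 2‖ < ε) :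
    Near ε w := by
  obtain ⟨x, y, z⟩ := w
  simp only at h2 h1
  subst h2
  simp only [mk3] at h
  have h3 : ((√3 : ℝ) : ℂ) ^ 2 = 3 := by
    rw [← Complex.ofReal_pow, Real.sq_sqrt (by norm_num)]; norm_num
  have e : (z - x - Complex.I * √3) * (z - x + Complex.I * √3) = 0 := by
    have hI := Complex.I_sq
    linear_combination h - (((√3 : ℝ) : ℂ) ^ 2) * hI + h3
  have hm : ∀ a b c : ℂ, ‖((a, b, c) : ℂ × ℂ × ℂ)‖ = max ‖a‖ (max ‖b‖ ‖c‖) := fun a b c => rfl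
  have hε : 0 < ε := (norm_nonneg _).trans_lt h1
  rcases mul_eq_zero.mp e with h5 | h5
  · left
    rw [pp, Prod.mk_sub_mk, Prod.mk_sub_mk, hm]
    have : z - (2 + Complex.I * √3) = x - 2 := by linear_combination h5
    rw [this]
    refine max_lt h1 (max_lt (by simpa using hε) h1)
  · right
    rw [pm, Prod.mk_sub_mk, Prod.mk_sub_mk, hm]
    have : z - (2 - Complex.I * √3) = x - 2 := by linear_combination h5
    rw [this]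
    refine max_lt h1 (max_lt (by simpa using hε) h1)

/-- `ζ` is a point where some simple trace is exactly `2` -/
def Ppt (ψ : ℂ → ℂ × ℂ × ℂ) (ζ : ℂ) : Prop :=
  ∃ (g : MulAut Orb) (P : ℂ × ℂ × ℂ → ℂ × ℂ × ℂ), Adm g P ∧ (P (ψ ζ)).1 = 2

theorem step {ψ : ℂ → ℂ × ℂ × ℂ} {U : Set ℂ} (hU : IsOpen U) (hUc : IsPreconnected U)
    (hψ : DifferentiableOn ℂ ψ U) (hm : ∀ ζ ∈ U, mk3 (ψ ζ) = 1) (h0 : 0 ∈ U) (hr : Re3 (ψ 0))
    {ζ0 : ℂ} (hζ : ζ0 ∈ U) (hP : Ppt ψ ζ0) {δ ε : ℝ} (hδ : 0 < δ) (hε : 0 < ε) :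
    ∃ ζ' ∈ U, dist ζ' ζ0 < δ ∧ Ppt ψ ζ' ∧ ∃ (g : MulAut Orb) (P : ℂ × ℂ × ℂ → ℂ × ℂ × ℂ),
      Adm g P ∧ Near ε (P (ψ ζ')) := by
  obtain ⟨g, P, hA, h2⟩ := hP
  have hd : DifferentiableOn ℂ (fun ζ => P (ψ ζ)) U := hA.diff.comp_differentiableOn hψ
  have hd1 : DifferentiableOn ℂ (fun ζ => (P (ψ ζ)).1) U := hd.fst
  have hd2 : DifferentiableOn ℂ (fun ζ => (P (ψ ζ)).2.1) U := hd.snd.fst
  have hd3 : DifferentiableOn ℂ (fun ζ => (P (ψ ζ)).2.2) U := hd.snd.snd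
  have hI : ∀ ζ ∈ U, mk3 ((P (ψ ζ)).1, (P (ψ ζ)).2.1, (P (ψ ζ)).2.2) = 1 := by
    intro ζ hζ'
    have := hA.inv (ψ ζ)
    rw [hm ζ hζ'] at this
    exact this
  obtain ⟨ζ', hζU, hdist, n, hn, hx⟩ := stage hU hUc hd1 hd2 hd3 hI hζ h2
    ⟨0, h0, real_ne_two ((hA.inv _).trans (hm 0 h0)) (hA.real _ hr)⟩
    (lt_min hδ hε)
  have hA2 : Adm (g * Orb.D ^ n) (PD^[n] ∘ P) := hA.mul (adm_D.pow n)
  have hA3 : Adm (g * Orb.D ^ n * Orb.S) (PS ∘ (PD^[n] ∘ P)) := hA2.mul adm_S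
  refine ⟨ζ', hζU, hdist.trans_le (min_le_left _ _), ⟨_, _, hA3, ?_⟩, _, _, hA2, ?_⟩
  · exact hn
  · refine near_of ((hA2.inv _).trans (hm ζ' hζU)) hn ?_
    have : ((PD^[n] ∘ P) (ψ ζ')).1 = (P (ψ ζ')).1 := by
      have : ∀ (m : ℕ) (w : ℂ × ℂ × ℂ), (PD^[m] w).1 = w.1 := by
        intro m
        induction m with
        | zero => intro w; rfl
        | succ m ih => intro w; rw [Function.iterate_succ_apply, ih]; rfl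
      exact this n _
    rw [this]
    exact hx.trans_le (min_le_right _ _)

theorem exists_limit {ψ : ℂ → ℂ × ℂ × ℂ} {U : Set ℂ} (hU : IsOpen U) (hUc : IsPreconnected U)
    (hψ : DifferentiableOn ℂ ψ U) (hm : ∀ ζ ∈ U, mk3 (ψ ζ) = 1) (h0 : 0 ∈ U) (hr : Re3 (ψ 0))
    {ζ0 : ℂ} (hζ : ζ0 ∈ U) (hP : Ppt ψ ζ0) : ∃ ζ ∈ U, ∀ ε : ℝ, 0 < ε →
      ∃ (g : MulAut Orb) (P : ℂ × ℂ × ℂ → ℂ × ℂ × ℂ), Adm g P ∧ Near ε (P (ψ ζ)) := by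
  -- states: closed balls inside U centred at P-points
  let St := {p : ℂ × ℝ // 0 < p.2 ∧ closedBall p.1 p.2 ⊆ U ∧ Ppt ψ p.1}
  have hnext : ∀ (k : ℕ) (s : St), ∃ s' : St, closedBall s'.1.1 s'.1.2 ⊆ closedBall s.1.1 s.1.2 ∧
      ∃ (g : MulAut Orb) (P : ℂ × ℂ × ℂ → ℂ × ℂ × ℂ), Adm g P ∧
        ∀ ζ ∈ closedBall s'.1.1 s'.1.2, Near (1 / ((k : ℝ) + 1)) (P (ψ ζ)) := by
    rintro k ⟨⟨c, ρ⟩, hρ, hcU, hcP⟩
    simp only at hρ hcU hcP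
    have hcU' : c ∈ U := hcU (mem_closedBall_self hρ.le)
    obtain ⟨ζ', hζ'U, hd, hP', g, P, hA, hN⟩ := step hU hUc hψ hm h0 hr hcU' hcP hρ
      (ε := 1 / ((k : ℝ) + 1)) (by positivity)
    have hcont : ContinuousAt (fun ζ => P (ψ ζ)) ζ' :=
      (hA.diff.continuous.continuousAt).comp (hψ.continuousOn.continuousAt (hU.mem_nhds hζ'U))
    have hev : ∀ᶠ ζ in 𝓝 ζ', ζ ∈ ball c ρ ∧ Near (1 / ((k : ℝ) + 1)) (P (ψ ζ)) :=
      Filter.Eventually.and (isOpen_ball.mem_nhds hd)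
        (hcont.eventually ((isOpen_near _).mem_nhds hN))
    obtain ⟨ρ', hρ', hb⟩ := nhds_basis_closedBall.mem_iff.mp hev
    refine ⟨⟨(ζ', ρ'), hρ', fun ζ hζ => hcU (ball_subset_closedBall (hb hζ).1), hP'⟩,
      fun ζ hζ => ball_subset_closedBall (hb hζ).1, g, P, hA, fun ζ hζ => (hb hζ).2⟩
  choose nxt hn1 hn2 using hnext
  obtain ⟨ρ0, hρ0, hb0⟩ := nhds_basis_closedBall.mem_iff.mp (hU.mem_nhds hζ)
  let s0 : St := ⟨(ζ0, ρ0), hρ0, hb0, hP⟩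
  let seq : ℕ → St := fun n => Nat.rec s0 (fun k s => nxt k s) n
  have hseq : ∀ k, seq (k + 1) = nxt k (seq k) := fun k => rfl
  have hanti : ∀ k, closedBall (seq (k + 1)).1.1 (seq (k + 1)).1.2 ⊆
      closedBall (seq k).1.1 (seq k).1.2 := fun k => by
    rw [hseq]; exact hn1 k (seq k)
  obtain ⟨ζ, hζi⟩ := IsCompact.nonempty_iInter_of_sequence_nonempty_isCompact_isClosed
    (fun k => closedBall (seq k).1.1 (seq k).1.2) hanti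
    (fun k => ⟨(seq k).1.1, mem_closedBall_self (seq k).2.1.le⟩)
    (isCompact_closedBall _ _) (fun k => isClosed_closedBall)
  rw [Set.mem_iInter] at hζi
  refine ⟨ζ, (seq 0).2.2.1 (hζi 0), fun ε hε => ?_⟩
  obtain ⟨k, hk⟩ := exists_nat_one_div_lt hε
  obtain ⟨g, P, hA, hN⟩ := hn2 k (seq k)
  refine ⟨g, P, hA, ?_⟩
  have := hN ζ (by rw [← hseq]; exact hζi (k + 1))
  rcases this with h | h
  · exact Or.inl (h.trans hk)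
  · exact Or.inr (h.trans hk)

/-- the main dynamical statement in trace coordinates -/
theorem exists_w : ∃ w : ℂ × ℂ × ℂ, mk3 w = 1 ∧
    Tendsto (fun n : ℕ => PG^[6 * n] w) atTop (𝓝 q0) ∧
    ∃ p : ℂ × ℂ × ℂ, (p = pp ∨ p = pm) ∧ ∃ (g : ℕ → MulAut Orb)
      (P : ℕ → ℂ × ℂ × ℂ → ℂ × ℂ × ℂ), (∀ k, Adm (g k) (P k)) ∧
      Tendsto (fun k => P k w) atTop (𝓝 p) := by
  obtain ⟨r, ψ, g0, P0, ζ0, hr, hd, hm, hre, hA0, hζ0, h2, hT⟩ := exists_disc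
  obtain ⟨ζ, hζ, hN⟩ := exists_limit isOpen_ball (convex_ball (0 : ℂ) r).isPreconnected hd hm
    (mem_ball_self hr) hre hζ0 ⟨g0, P0, hA0, h2⟩
  refine ⟨ψ ζ, hm ζ hζ, hT ζ hζ, ?_⟩
  have key : (∀ ε : ℝ, 0 < ε → ∃ (g : MulAut Orb) (P : ℂ × ℂ × ℂ → ℂ × ℂ × ℂ),
      Adm g P ∧ ‖P (ψ ζ) - pp‖ < ε) ∨ (∀ ε : ℝ, 0 < ε → ∃ (g : MulAut Orb)
      (P : ℂ × ℂ × ℂ → ℂ × ℂ × ℂ), Adm g P ∧ ‖P (ψ ζ) - pm‖ < ε) := by
    by_contra hcon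
    rw [not_or] at hcon
    obtain ⟨c1, c2⟩ := hcon
    push Not at c1 c2
    obtain ⟨ε1, he1, h1⟩ := c1
    obtain ⟨ε2, he2, h2⟩ := c2
    obtain ⟨g, P, hA, hn⟩ := hN (min ε1 ε2) (lt_min he1 he2)
    rcases hn with hn | hn
    · exact absurd (hn.trans_le (min_le_left _ _)) (not_lt.mpr (h1 g P hA))
    · exact absurd (hn.trans_le (min_le_right _ _)) (not_lt.mpr (h2 g P hA))
  have fin : ∀ p : ℂ × ℂ × ℂ, (∀ ε : ℝ, 0 < ε → ∃ (g : MulAut Orb)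
      (P : ℂ × ℂ × ℂ → ℂ × ℂ × ℂ), Adm g P ∧ ‖P (ψ ζ) - p‖ < ε) →
      ∃ (g : ℕ → MulAut Orb) (P : ℕ → ℂ × ℂ × ℂ → ℂ × ℂ × ℂ), (∀ k, Adm (g k) (P k)) ∧
      Tendsto (fun k => P k (ψ ζ)) atTop (𝓝 p) := by
    intro p hp
    have hp' : ∀ k : ℕ, ∃ (g : MulAut Orb) (P : ℂ × ℂ × ℂ → ℂ × ℂ × ℂ),
        Adm g P ∧ ‖P (ψ ζ) - p‖ < 1 / ((k : ℝ) + 1) := fun k => hp _ (by positivity)
    choose g P hA hlt using hp'
    refine ⟨g, P, hA, ?_⟩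
    rw [tendsto_iff_norm_sub_tendsto_zero]
    exact squeeze_zero (fun _ => norm_nonneg _) (fun k => (hlt k).le)
      tendsto_one_div_add_atTop_nhds_zero_nat
  rcases key with h | h
  · exact ⟨pp, Or.inl rfl, fin pp h⟩
  · exact ⟨pm, Or.inr rfl, fin pm h⟩

end Pool.Agent.Y473.MC
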