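import Pool.Agent.Y473.MC.OrbW
import Pool.Agent.Y473.MC.Nest

/-!
# Quasi-Fuchsian representations near the maximal cusp
-/

namespace Pool.Agent.Y473.MC

open CoxeterSystem Matrix Topology Filter

/-- coordinates of Hermitian matrices -/
abbrev V4 := ℝ × ℝ × ℝ × ℝ

/-- the Lorentz form -/
noncomputable def B4 : V4 →ₗ[ℝ] V4 →ₗ[ℝ] ℝ :=
  LinearMap.mk₂ ℝ (fun v w => v.2.2.1 * w.2.2.1 + v.2.2.2 * w.2.2.2
      - (v.1 * w.2.1 + v.2.1 * w.1) / 2)
    (by intro x y z; simp only [Prod.fst_add, Prod.snd_add]; ring)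
    (by intro c x y; simp only [Prod.smul_fst, Prod.smul_snd, smul_eq_mul]; ring)
    (by intro x y z; simp only [Prod.fst_add, Prod.snd_add]; ring)
    (by intro c x y; simp only [Prod.smul_fst, Prod.smul_snd, smul_eq_mul]; ring)

theorem B4_apply (v w : V4) : B4 v w = v.2.2.1 * w.2.2.1 + v.2.2.2 * w.2.2.2
      - (v.1 * w.2.1 + v.2.1 * w.1) / 2 := rfl

/-- positive definite Hermitian matrices -/
def P4 (v : V4) : Prop := 0 < v.1 ∧ B4 v v < 0

theorem P4.snd_pos {v : V4} (h : P4 v) : 0 < v.2.1 := by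
  obtain ⟨h1, h2⟩ := h
  rw [B4_apply] at h2
  by_contra hcon
  rw [not_lt] at hcon
  have : v.1 * v.2.1 ≤ 0 := mul_nonpos_of_nonneg_of_nonpos h1.le hcon
  nlinarith [sq_nonneg v.2.2.1, sq_nonneg v.2.2.2]

theorem cs_aux {p r q1 q2 p' r' q1' q2' : ℝ} (hp : 0 ≤ p) (hr : 0 ≤ r) (hp' : 0 ≤ p')
    (hr' : 0 ≤ r') (h : q1 ^ 2 + q2 ^ 2 ≤ p * r) (h' : q1' ^ 2 + q2' ^ 2 ≤ p' * r') :
    q1 * q1' + q2 * q2' ≤ (p * r' + r * p') / 2 := by
  have h0 : 0 ≤ (p * r' + r * p') / 2 := by positivity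
  have h1 : (q1 ^ 2 + q2 ^ 2) * (q1' ^ 2 + q2' ^ 2) ≤ (p * r) * (p' * r') :=
    mul_le_mul h h' (by positivity) (by positivity)
  have h2 : (q1 * q1' + q2 * q2') ^ 2 ≤ ((p * r' + r * p') / 2) ^ 2 := by
    nlinarith [sq_nonneg (q1 * q2' - q2 * q1'), sq_nonneg (p * r' - r * p')]
  exact (le_abs_self _).trans (abs_le_of_sq_le_sq h2 h0)

theorem P4.pair {v w : V4} (hv : P4 v) (hw : P4 w) : B4 v w < 0 := by
  have a1 := hv.1
  have a2 := hv.snd_pos
  have a3 := hv.2
  have b1 := hw.1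
  have b2 := hw.snd_pos
  have b3 := hw.2
  obtain ⟨p, r, q1, q2⟩ := v
  obtain ⟨p', r', q1', q2'⟩ := w
  simp only [B4_apply] at *
  have h0 : 0 < (p * r' + r * p') / 2 := by positivity
  have h1 : (q1 ^ 2 + q2 ^ 2) * (q1' ^ 2 + q2' ^ 2) < (p * r) * (p' * r') :=
    mul_lt_mul'' (by nlinarith) (by nlinarith) (by positivity) (by positivity)
  have h2 : (q1 * q1' + q2 * q2') ^ 2 < ((p * r' + r * p') / 2) ^ 2 := by
    nlinarith [sq_nonneg (q1 * q2' - q2 * q1'), sq_nonneg (p * r' - r * p')]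
  have h3 := abs_lt_of_sq_lt_sq h2 h0.le
  have h4 := le_abs_self (q1 * q1' + q2 * q2')
  linarith

/-- the parameters -/
structure Prm where
  /-- first parameter -/
  s : ℝ
  /-- second parameter -/
  t : ℝ
  hs : 0 < s
  hs' : s ≤ 1 / 10
  ht : 0 < t
  ht' : t ≤ 1 / 10

namespace Prm

variable (π : Prm)

/-- off-diagonal entry -/
noncomputable def m : ℝ := √3 - π.s * π.t
/-- half trace of the first generator -/
noncomputable def c : ℝ := √(1 + π.s)
/-- half trace of the second generator -/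
noncomputable def d : ℝ := √(1 + π.t * π.m)

theorem sqrt3_bd : 1.7 < √3 ∧ √3 < 1.8 := by
  constructor
  · exact Real.lt_sqrt_of_sq_lt (by norm_num)
  · rw [Real.sqrt_lt' (by norm_num)]; norm_num

theorem m_bd : 1.6 < π.m ∧ π.m < 1.8 := by
  have h1 := sqrt3_bd
  have h2 : 0 < π.s * π.t := mul_pos π.hs π.ht
  have h3 : π.s * π.t ≤ 1 / 10 * (1 / 10) := mul_le_mul π.hs' π.ht' π.ht.le (by norm_num)
  unfold m
  constructor <;> linarith [h1.1, h1.2]

theorem c_sq : π.c ^ 2 = 1 + π.s := Real.sq_sqrt (by have := π.hs; linarith)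

theorem d_sq : π.d ^ 2 = 1 + π.t * π.m := by
  have h1 := π.m_bd.1
  have h2 := π.ht
  exact Real.sq_sqrt (by positivity)

theorem c_gt : 1 < π.c := by
  have := π.hs
  exact Real.lt_sqrt_of_sq_lt (by linarith)

theorem d_gt : 1 < π.d := by
  have h1 := π.m_bd.1
  have h2 := π.ht
  have h3 : 0 < π.t * π.m := mul_pos h2 (by linarith)
  exact Real.lt_sqrt_of_sq_lt (by linarith)

theorem c_lt : π.c < 1.2 := by
  have h1 := π.c_sq
  have h2 := π.c_gt
  have h3 := π.hs'
  nlinarith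

theorem d_lt : π.d < 1.2 := by
  have h1 := π.d_sq
  have h2 := π.d_gt
  have h4 := π.m_bd
  have h5 : π.t * π.m ≤ 1 / 10 * 1.8 := mul_le_mul π.ht' h4.2.le (by linarith) (by norm_num)
  nlinarith

/-- the unit normals -/
noncomputable def nv (i : Fin 4) : V4 :=
  ![(0, 0, 1, 0), (π.t, π.m, -π.d, 0), (1, π.s, 0, -π.c), (0, 0, 0, 1)] i

/-- the base point -/
noncomputable def base : V4 := (1, 1, -(1 / 4), -(1 / 4))

theorem B4_symm (v w : V4) : B4 v w = B4 w v := by
  rw [B4_apply, B4_apply]; ring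

theorem nv_self (i : Fin 4) : B4 (π.nv i) (π.nv i) = 1 := by
  have hc := π.c_sq
  have hd := π.d_sq
  fin_cases i <;> simp [nv, B4_apply]
  · linear_combination hd
  · linear_combination hc

theorem P_refl (i : Fin 4) (v : V4) (hv : P4 v) : P4 (v - (2 * B4 v (π.nv i)) • π.nv i) := by
  set e := π.nv i with he
  have h1 : B4 e e = 1 := π.nv_self i
  have hv2 := hv.2
  have hB : B4 (v - (2 * B4 v e) • e) (v - (2 * B4 v e) • e) = B4 v v := by
    simp only [map_sub, map_smul, LinearMap.sub_apply, LinearMap.smul_apply, smul_eq_mul, h1]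
    rw [B4_symm e v]
    ring
  refine ⟨?_, by rw [hB]; exact hv.2⟩
  by_contra hcon
  rw [not_lt] at hcon
  set v' := v - (2 * B4 v e) • e with hv'
  have h2 : B4 v' v' < 0 := by rw [hB]; exact hv.2
  have h3 : v'.1 < 0 := by
    rcases hcon.lt_or_eq with h | h
    · exact h
    · exfalso
      rw [B4_apply, h] at h2
      nlinarith [sq_nonneg v'.2.2.1, sq_nonneg v'.2.2.2]
  have h4 : P4 (-v') := by
    refine ⟨?_, ?_⟩
    · rw [Prod.fst_neg]; linarith
    · rw [map_neg, map_neg, LinearMap.neg_apply, neg_neg]; exact h2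
  have h5 := hv.pair h4
  rw [map_neg, hv', map_sub, map_smul, smul_eq_mul] at h5
  nlinarith [sq_nonneg (B4 v e)]

theorem P_causal (v τ : V4) (hv : P4 v) (h1 : B4 τ τ ≤ 0) (h2 : B4 base τ < 0) :
    B4 v τ ≤ 0 := by
  have a1 := hv.1
  have a2 := hv.snd_pos
  have a3 := hv.2
  obtain ⟨p, r, q1, q2⟩ := v
  obtain ⟨p', r', q1', q2'⟩ := τ
  simp only [B4_apply, base] at *
  have h3 : q1' ^ 2 + q2' ^ 2 ≤ p' * r' := by nlinarith
  have h4 : 0 ≤ p' * r' := le_trans (by positivity) h3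
  have h5 : 0 < p' + r' := by
    by_contra hcon
    rw [not_lt] at hcon
    have h6 : (q1' ^ 2 + q2' ^ 2) * 4 ≤ (p' + r') ^ 2 := by nlinarith [sq_nonneg (p' - r')]
    nlinarith [sq_nonneg (q1' - q2'), sq_nonneg (q1' + q2'), sq_nonneg (p' + r'),
      sq_nonneg (q1' + q2' + (p' + r')), sq_nonneg (q1' + q2' - (p' + r'))]
  have h6 : 0 ≤ p' := by
    by_contra hcon
    rw [not_le] at hcon
    have : 0 < r' := by linarith
    nlinarith
  have h7 : 0 ≤ r' := by
    by_contra hcon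
    rw [not_le] at hcon
    have : 0 < p' := by linarith
    nlinarith
  have := cs_aux a1.le a2.le h6 h7 (by nlinarith : q1 ^ 2 + q2 ^ 2 ≤ p * r) h3
  linarith

/-- the configuration -/
noncomputable def conf : Conf V4 where
  B := B4
  symm := B4_symm
  e := π.nv
  c := π.c
  d := π.d
  hc := π.c_gt
  hd := π.d_gt
  self := π.nv_self
  e01 := by simp [nv, B4_apply]
  e12 := by
    simp only [nv, B4_apply, m]
    simp
    ring
  e23 := by simp [nv, B4_apply]
  e02 := by simp [nv, B4_apply]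
  e03 := by simp [nv, B4_apply]
  e13 := by simp [nv, B4_apply]
  o := base
  P := P4
  Po := by
    refine ⟨by norm_num [base], ?_⟩
    norm_num [base, B4_apply]
  o_neg i := by
    have h1 := π.m_bd.1
    have h2 := π.ht
    have h3 := π.hs
    have h4 := π.c_lt
    have h5 := π.d_lt
    fin_cases i <;> simp [nv, B4_apply, base]
    · linarith
    · linarith
  P_refl i v hv := π.P_refl i v hv
  P_causal v τ := P_causal v τ
  P_pair v w hv hw := (hv.pair hw).le

end Prm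

end Pool.Agent.Y473.MC
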