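import Pool.Agent.Y473.MC.Herm

/-!
# Quasi-Fuchsian representations near the maximal cusp, continued
-/

namespace Pool.Agent.Y473.MC

open CoxeterSystem Matrix Topology Filter

/-- the Hermitian matrix with given coordinates -/
noncomputable def HM (v : V4) : Matrix (Fin 2) (Fin 2) ℂ :=
  !![(v.1 : ℂ), v.2.2.1 + Complex.I * v.2.2.2; v.2.2.1 - Complex.I * v.2.2.2, v.2.1]

theorem HM_inj {v w : V4} (h : HM v = HM w) : v = w := by
  obtain ⟨p, r, q1, q2⟩ := v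
  obtain ⟨p', r', q1', q2'⟩ := w
  have h1 := congrFun (congrFun h 0) 0
  have h2 := congrFun (congrFun h 1) 1
  have h3 := congrFun (congrFun h 0) 1
  simp [HM] at h1 h2 h3
  have h4 := congrArg Complex.re h3
  have h5 := congrArg Complex.im h3
  simp at h4 h5
  rw [h1, h2, h4, h5]

namespace Prm

variable (π : Prm)

theorem c_sqC : (π.c : ℂ) ^ 2 = 1 + π.s := by
  rw [← Complex.ofReal_pow, π.c_sq]; push_cast; ring

theorem d_sqC : (π.d : ℂ) ^ 2 = 1 + π.t * π.m := by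
  rw [← Complex.ofReal_pow, π.d_sq]; push_cast; ring

/-- image of `a` -/
noncomputable def mA : SL2 := ⟨!![(π.c : ℂ), -Complex.I; Complex.I * π.s, π.c], by
  rw [Matrix.det_fin_two_of]
  linear_combination π.c_sqC + (π.s : ℂ) * Complex.I_sq⟩

/-- image of `b` -/
noncomputable def mB : SL2 := ⟨!![(π.d : ℂ), π.t; π.m, π.d], by
  rw [Matrix.det_fin_two_of]
  linear_combination π.d_sqC⟩

theorem tr_mA : tr π.mA = 2 * π.c := by
  simp [tr, mA, Matrix.trace_fin_two]; ring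

theorem tr_mB : tr π.mB = 2 * π.d := by
  simp [tr, mB, Matrix.trace_fin_two]; ring

theorem tr_mAB : tr (π.mA * π.mB) = 2 * π.c * π.d - Complex.I * (√3 - 2 * π.s * π.t) := by
  have hm : (π.m : ℂ) = √3 - π.s * π.t := by unfold m; push_cast; ring
  simp [tr, mA, mB, Matrix.trace_fin_two]
  rw [hm]
  ring

theorem sqrt3_sqC : ((√3 : ℝ) : ℂ) ^ 2 = 3 := by
  rw [← Complex.ofReal_pow, Real.sq_sqrt (by norm_num)]; norm_num

theorem tr_cmAB : tr (cm π.mA π.mB) = -1 := by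
  have hm : (π.m : ℂ) = √3 - π.s * π.t := by unfold m; push_cast; ring
  rw [tr_cm, tr_mA, tr_mB, tr_mAB]
  have h1 := π.c_sqC
  have h2 := π.d_sqC
  rw [hm] at h2
  have h3 := sqrt3_sqC
  have h4 := Complex.I_sq
  linear_combination (4 - 4 * (π.d : ℂ) ^ 2) * h1 - 4 * (π.s : ℂ) * h2 - h3 +
    ((√3 : ℂ) - 2 * π.s * π.t) ^ 2 * h4

/-- the representation -/
noncomputable def rep : Orb →* SL2 := repOf π.mA π.mB π.tr_cmAB

theorem crd_rep : crd π.rep = (2 * (π.c : ℂ), 2 * (π.d : ℂ),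
    2 * π.c * π.d - Complex.I * (√3 - 2 * π.s * π.t)) := by
  rw [rep, crd_repOf, tr_mA, tr_mB, tr_mAB]

/-- compatibility of the two actions -/
def Good (γ : Orb) : Prop := ∀ v : V4, HM (π.conf.T (jW γ) v) =
  (π.rep γ).1 * HM v * ((π.rep γ).1)ᴴ

theorem Good.one : π.Good 1 := by
  intro v
  rw [map_one, map_one, map_one, Module.End.one_apply]
  simp

variable {π} in
theorem Good.mul {γ δ : Orb} (h1 : π.Good γ) (h2 : π.Good δ) : π.Good (γ * δ) := by
  intro v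
  rw [map_mul, Conf.T_mul, h1, h2, map_mul]
  have : (π.rep γ * π.rep δ).1 = (π.rep γ).1 * (π.rep δ).1 := rfl
  rw [this, Matrix.conjTranspose_mul]
  simp only [Matrix.mul_assoc]

variable {π} in
theorem Good.inv {γ : Orb} (h1 : π.Good γ) : π.Good γ⁻¹ := by
  intro v
  have hj : jW γ⁻¹ = (jW γ)⁻¹ := map_inv jW γ
  have hr : π.rep γ⁻¹ = (π.rep γ)⁻¹ := map_inv π.rep γ
  have h := h1 (π.conf.T (jW γ)⁻¹ v)
  rw [Conf.T_inv'] at h
  rw [hj, hr, h]
  have e1 : ((π.rep γ)⁻¹).1 * (π.rep γ).1 = 1 := by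
    have : ((π.rep γ)⁻¹ * π.rep γ).1 = 1 := by rw [inv_mul_cancel]; rfl
    exact this
  have e2 : ((π.rep γ).1)ᴴ * (((π.rep γ)⁻¹).1)ᴴ = 1 := by
    rw [← Matrix.conjTranspose_mul, e1, Matrix.conjTranspose_one]
  generalize HM (π.conf.T (jW γ)⁻¹ v) = X at *
  generalize (π.rep γ).1 = M at *
  generalize ((π.rep γ)⁻¹).1 = N at *
  calc X = (N * M) * X * (Mᴴ * Nᴴ) := by rw [e1, e2, one_mul, mul_one]
    _ = _ := by simp only [Matrix.mul_assoc]

theorem good_a : π.Good Orb.a := by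
  rintro ⟨p, r, q1, q2⟩
  have hc := π.c_sqC
  have hs : (π.s : ℂ) = (π.c : ℂ) ^ 2 - 1 := by linear_combination -hc
  rw [jW_a, Conf.T_mul, Conf.T_simple, Conf.T_simple, Conf.R_apply, Conf.R_apply]
  have e : (π.rep Orb.a).1 = !![(π.c : ℂ), -Complex.I; Complex.I * π.s, π.c] := by
    rw [rep, repOf_a]; rfl
  rw [e]
  simp only [conf, B4_apply, nv, HM, Matrix.cons_val]
  have hI := Complex.I_sq
  ext i j
  fin_cases i <;> fin_cases j <;>
    simp [Matrix.mul_apply, Fin.sum_univ_two, Matrix.conjTranspose_apply] <;> rw [hs]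
  · linear_combination ((r : ℂ) - 2 * π.c * q2) * hI
  · linear_combination (((π.c : ℂ) ^ 2 - 1) * (Complex.I * q2 - q1)) * hI
  · linear_combination (-(((π.c : ℂ) ^ 2 - 1) * (Complex.I * q2 + q1))) * hI
  · linear_combination (((π.c : ℂ) ^ 2 - 1) ^ 2 * p - 2 * q2 * π.c * ((π.c : ℂ) ^ 2 - 1)) * hI

theorem good_b : π.Good Orb.b := by
  rintro ⟨p, r, q1, q2⟩
  have hd := π.d_sqC
  rw [jW_b, Conf.T_mul, Conf.T_simple, Conf.T_simple, Conf.R_apply, Conf.R_apply]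
  have e : (π.rep Orb.b).1 = !![(π.d : ℂ), π.t; π.m, π.d] := by
    rw [rep, repOf_b]; rfl
  rw [e]
  simp only [conf, B4_apply, nv, HM, Matrix.cons_val]
  ext i j
  fin_cases i <;> fin_cases j <;>
    simp [Matrix.mul_apply, Fin.sum_univ_two, Matrix.conjTranspose_apply]
  · linear_combination (-(p : ℂ)) * hd
  · linear_combination ((q1 : ℂ) - Complex.I * q2) * hd
  · linear_combination ((q1 : ℂ) + Complex.I * q2) * hd
  · linear_combination (-(r : ℂ)) * hd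

theorem good (γ : Orb) : π.Good γ := by
  refine Orb.ind (p := fun γ => π.Good γ) (Good.one π) ?_ ?_ ?_ ?_ γ
  · intro x hx; exact π.good_a.mul hx
  · intro x hx; exact π.good_a.inv.mul hx
  · intro x hx; exact π.good_b.mul hx
  · intro x hx; exact π.good_b.inv.mul hx

theorem rep_faithful (γ : Orb) (h : π.rep γ = 1 ∨ π.rep γ = -1) : γ = 1 := by
  have h1 : ∀ v, π.conf.T (jW γ) v = v := by
    intro v
    apply HM_inj
    rw [π.good γ v]
    rcases h with h | h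
    · rw [h]
      have : ((1 : SL2)).1 = 1 := rfl
      rw [this]; simp
    · rw [h]
      have : ((-1 : SL2)).1 = -1 := rfl
      rw [this]; simp
  obtain ⟨ω, hω, hω'⟩ := cs4.exists_isReduced (jW γ)
  rw [hω'] at h1
  have := π.conf.faithful hω h1
  rw [this, cs4.wordProd_nil] at hω'
  exact (injective_iff_map_eq_one jW).mp jW_injective γ hω'

theorem frob_eq (A : SL2) : frob A = (A.1 0 0).re ^ 2 + (A.1 0 0).im ^ 2 + ((A.1 0 1).re ^ 2 +
    (A.1 0 1).im ^ 2) + ((A.1 1 0).re ^ 2 + (A.1 1 0).im ^ 2 + ((A.1 1 1).re ^ 2 +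
    (A.1 1 1).im ^ 2)) := by
  simp only [frob, Fin.sum_univ_two, Complex.sq_norm, Complex.normSq_apply]
  ring

theorem frob_ge (A : SL2) : 2 ≤ frob A := by
  have h := det_eq A
  have h1 := congrArg Complex.re h
  have h2 : ‖A.1 0 0 * A.1 1 1 - A.1 0 1 * A.1 1 0‖ = 1 := by rw [h]; simp
  have h3 := norm_sub_le (A.1 0 0 * A.1 1 1) (A.1 0 1 * A.1 1 0)
  rw [h2, norm_mul, norm_mul] at h3
  simp only [frob, Fin.sum_univ_two]
  nlinarith [sq_nonneg (‖A.1 0 0‖ - ‖A.1 1 1‖), sq_nonneg (‖A.1 0 1‖ - ‖A.1 1 0‖)]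

theorem le_frob (γ : Orb) : -B4 (π.conf.T (jW γ) base) base ≤ 2 * frob (π.rep γ) := by
  have hP : P4 (π.conf.T (jW γ) base) := π.conf.P_T (jW γ) π.conf.Po
  have hg := π.good γ base
  rw [frob_eq]
  set u := π.conf.T (jW γ) base with hu
  generalize (π.rep γ).1 = M at *
  have h1 := hP.1
  have h2 := hP.snd_pos
  have h3 := hP.2
  have e1 := congrArg Complex.re (congrFun (congrFun hg 0) 0)
  have e2 := congrArg Complex.re (congrFun (congrFun hg 1) 1)
  simp [Matrix.mul_apply, Fin.sum_univ_two, Matrix.conjTranspose_apply, HM, base] at e1 e2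
  obtain ⟨p, r, q1, q2⟩ := u
  simp only [B4_apply, base] at *
  have k1 : p ≤ 3 / 2 * ((M 0 0).re ^ 2 + (M 0 0).im ^ 2 + ((M 0 1).re ^ 2 + (M 0 1).im ^ 2)) := by
    rw [e1]
    nlinarith [sq_nonneg ((M 0 0).re + ((M 0 1).re + (M 0 1).im) / 2),
      sq_nonneg ((M 0 0).im - ((M 0 1).re - (M 0 1).im) / 2),
      sq_nonneg ((M 0 0).re - ((M 0 1).re + (M 0 1).im) / 2),
      sq_nonneg ((M 0 0).im + ((M 0 1).re - (M 0 1).im) / 2)]
  have k2 : r ≤ 3 / 2 * ((M 1 0).re ^ 2 + (M 1 0).im ^ 2 + ((M 1 1).re ^ 2 + (M 1 1).im ^ 2)) := by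
    rw [e2]
    nlinarith [sq_nonneg ((M 1 0).re + ((M 1 1).re + (M 1 1).im) / 2),
      sq_nonneg ((M 1 0).im - ((M 1 1).re - (M 1 1).im) / 2),
      sq_nonneg ((M 1 0).re - ((M 1 1).re + (M 1 1).im) / 2),
      sq_nonneg ((M 1 0).im + ((M 1 1).re - (M 1 1).im) / 2)]
  have k3 : q1 + q2 ≤ p + r := by
    have k4 : (q1 + q2) ^ 2 ≤ (p + r) ^ 2 := by nlinarith [sq_nonneg (q1 - q2), sq_nonneg (p - r)]
    exact (le_abs_self _).trans (abs_le_of_sq_le_sq k4 (by linarith))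
  linarith

end Prm

end Pool.Agent.Y473.MC
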