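import Pool.Agent.Y473.MC.Herm2

/-!
# Quasi-Fuchsian representations near the maximal cusp, conclusion
-/

namespace Pool.Agent.Y473.MC

open CoxeterSystem Matrix Topology Filter

/-- quasi-Fuchsian behaviour on the level of `Orb` -/
structure OrbQF (ρ : Orb →* SL2) : Prop where
  faithful : ∀ γ, (ρ γ = 1 ∨ ρ γ = -1) → γ = 1
  undist : ∃ C : ℝ, ∀ γ, ∃ n : ℕ, WL genO n γ ∧ (n : ℝ) ≤ C * (1 + Real.log (frob (ρ γ)))

theorem log_bound {α K : ℝ} (hα : 0 < α) (hK : 1 < K) : ∃ C : ℝ, 0 ≤ C ∧ ∀ (N : ℕ) (F : ℝ),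
    1 ≤ F → (1 ≤ N → α * K ^ (N - 1) ≤ F) → (N : ℝ) ≤ C * (1 + Real.log F) := by
  have hlK : 0 < Real.log K := Real.log_pos hK
  have ha : 0 ≤ |Real.log α| := abs_nonneg _
  refine ⟨1 + (1 + |Real.log α|) / Real.log K, by positivity, ?_⟩
  intro N F hF h
  have hlF : 0 ≤ Real.log F := Real.log_nonneg hF
  rcases Nat.eq_zero_or_pos N with h0 | h0
  · rw [h0]; push_cast; positivity
  · have h1 := h h0
    have h2 : Real.log (α * K ^ (N - 1)) ≤ Real.log F :=
      Real.log_le_log (by positivity) h1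
    rw [Real.log_mul hα.ne' (by positivity), Real.log_pow] at h2
    have h3 : ((N - 1 : ℕ) : ℝ) = (N : ℝ) - 1 := by
      rw [Nat.cast_sub h0]; simp
    rw [h3] at h2
    have h4 : -Real.log α ≤ |Real.log α| := neg_le_abs _
    have h5 : ((N : ℝ) - 1) * Real.log K ≤ Real.log F + |Real.log α| := by linarith
    have h6 : (N : ℝ) - 1 ≤ (Real.log F + |Real.log α|) / Real.log K := by
      rw [le_div_iff₀ hlK]; exact h5
    have h7 : (Real.log F + |Real.log α|) / Real.log K ≤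
        (1 + |Real.log α|) / Real.log K * (1 + Real.log F) := by
      rw [div_mul_eq_mul_div]
      apply div_le_div_of_nonneg_right _ hlK.le
      nlinarith
    nlinarith

namespace Prm

variable (π : Prm)

theorem orbQF : OrbQF π.rep where
  faithful := π.rep_faithful
  undist := by
    have a0 := π.conf.a0_pos
    have a3 := π.conf.rev.a0_pos
    obtain ⟨C0, hC0, h0⟩ := log_bound (α := π.conf.a0 ^ 2) (K := π.conf.K) (by positivity)
      π.conf.K_gt
    obtain ⟨C3, hC3, h3⟩ := log_bound (α := π.conf.rev.a0 ^ 2) (K := π.conf.rev.K) (by positivity)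
      π.conf.rev.K_gt
    refine ⟨7 * (C0 + C3) + 6, ?_⟩
    intro γ
    obtain ⟨ω, hω, hω'⟩ := cs4.exists_isReduced (jW γ)
    refine ⟨ω.length, WL_of_word hω'.symm, ?_⟩
    have hF : 2 ≤ frob (π.rep γ) := frob_ge _
    have hF1 : 1 ≤ frob (π.rep γ) := by linarith
    have hle := π.le_frob γ
    rw [hω'] at hle
    have n0 := h0 (ω.count 0) (frob (π.rep γ)) hF1 (by
      intro h
      have h1 : 2 * π.conf.a0 ^ 2 * π.conf.K ^ (ω.count 0 - 1) ≤
        -B4 (π.conf.T (cs4.wordProd ω) base) base := π.conf.growth0 hω h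
      linarith)
    have n3 := h3 (ω.count 3) (frob (π.rep γ)) hF1 (by
      intro h
      have h1 : 2 * π.conf.rev.a0 ^ 2 * π.conf.rev.K ^ (ω.count 3 - 1) ≤
        -B4 (π.conf.T (cs4.wordProd ω) base) base := π.conf.growth3 hω h
      linarith)
    have hlen : (ω.length : ℝ) ≤ 7 * ((ω.count 0 : ℝ) + (ω.count 3 : ℝ)) + 6 := by
      have := length_le ω.length ω rfl hω
      exact_mod_cast this
    have hlF : 0 ≤ Real.log (frob (π.rep γ)) := Real.log_nonneg hF1
    nlinarith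

end Prm

/-- complex conjugation on `SL(2,ℂ)` -/
noncomputable def conjSL : SL2 →* SL2 := Matrix.SpecialLinearGroup.map (starRingEnd ℂ)

theorem conjSL_apply (A : SL2) (i j : Fin 2) : (conjSL A).1 i j = starRingEnd ℂ (A.1 i j) := rfl

theorem conjSL_conjSL (A : SL2) : conjSL (conjSL A) = A := by
  apply sl_ext
  ext i j
  rw [conjSL_apply, conjSL_apply, Complex.conj_conj]

theorem frob_conjSL (A : SL2) : frob (conjSL A) = frob A := by
  simp only [frob, conjSL_apply, Complex.norm_conj]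

theorem conjSL_neg_one : conjSL (-1) = -1 := by
  apply sl_ext
  ext i j
  rw [conjSL_apply]
  have h : ((-1 : SL2)).1 = -1 := rfl
  rw [h]
  fin_cases i <;> fin_cases j <;> simp

theorem tr_conjSL (A : SL2) : tr (conjSL A) = starRingEnd ℂ (tr A) := by
  rw [tr_eq, tr_eq, conjSL_apply, conjSL_apply, map_add]

theorem OrbQF.conj {ρ : Orb →* SL2} (h : OrbQF ρ) : OrbQF (conjSL.comp ρ) where
  faithful γ hγ := by
    apply h.faithful
    rcases hγ with hγ | hγ
    · left
      have := congrArg conjSL hγ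
      rw [MonoidHom.comp_apply, conjSL_conjSL, map_one] at this
      exact this
    · right
      have := congrArg conjSL hγ
      rw [MonoidHom.comp_apply, conjSL_conjSL, conjSL_neg_one] at this
      exact this
  undist := by
    obtain ⟨C, hC⟩ := h.undist
    refine ⟨C, fun γ => ?_⟩
    rw [MonoidHom.comp_apply, frob_conjSL]
    exact hC γ

/-- the sequence of parameters -/
noncomputable def prm (k : ℕ) : Prm where
  s := 1 / ((k : ℝ) + 10)
  t := 1 / ((k : ℝ) + 10)
  hs := by positivity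
  hs' := by
    apply one_div_le_one_div_of_le (by norm_num)
    have : (0 : ℝ) ≤ k := Nat.cast_nonneg k
    linarith
  ht := by positivity
  ht' := by
    apply one_div_le_one_div_of_le (by norm_num)
    have : (0 : ℝ) ≤ k := Nat.cast_nonneg k
    linarith

theorem tendsto_prm : Tendsto (fun k => (prm k).s) atTop (𝓝 0) := by
  have h : Tendsto (fun k : ℕ => 1 / ((k : ℝ) + 10)) atTop (𝓝 0) := by
    have h1 : Tendsto (fun k : ℕ => (k : ℝ) + 10) atTop atTop :=
      tendsto_atTop_add_const_right _ _ tendsto_natCast_atTop_atTop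
    have h2 := tendsto_inv_atTop_zero.comp h1
    simp only [Function.comp_def] at h2
    simpa using h2
  exact h

theorem tendsto_crd : Tendsto (fun k => crd (prm k).rep) atTop (𝓝 pm) := by
  have hs := tendsto_prm
  have ht : Tendsto (fun k => (prm k).t) atTop (𝓝 0) := tendsto_prm
  have e : ∀ k, crd (prm k).rep = (2 * ((√(1 + (prm k).s) : ℝ) : ℂ),
      2 * ((√(1 + (prm k).t * (√3 - (prm k).s * (prm k).t)) : ℝ) : ℂ),
      2 * ((√(1 + (prm k).s) : ℝ) : ℂ) *
        ((√(1 + (prm k).t * (√3 - (prm k).s * (prm k).t)) : ℝ) : ℂ)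
      - Complex.I * (√3 - 2 * ((prm k).s : ℂ) * ((prm k).t : ℂ))) := by
    intro k
    rw [Prm.crd_rep]
    rfl
  simp only [e]
  have hF : Continuous (fun w : ℝ × ℝ => ((2 * ((√(1 + w.1) : ℝ) : ℂ),
      2 * ((√(1 + w.2 * (√3 - w.1 * w.2)) : ℝ) : ℂ),
      2 * ((√(1 + w.1) : ℝ) : ℂ) *
        ((√(1 + w.2 * (√3 - w.1 * w.2)) : ℝ) : ℂ)
      - Complex.I * (√3 - 2 * (w.1 : ℂ) * (w.2 : ℂ))) : ℂ × ℂ × ℂ)) := by
    fun_prop
  have h1 := (hF.tendsto (0, 0)).comp (hs.prodMk_nhds ht)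
  have e2 : pm = (fun w : ℝ × ℝ => ((2 * ((√(1 + w.1) : ℝ) : ℂ),
      2 * ((√(1 + w.2 * (√3 - w.1 * w.2)) : ℝ) : ℂ),
      2 * ((√(1 + w.1) : ℝ) : ℂ) *
        ((√(1 + w.2 * (√3 - w.1 * w.2)) : ℝ) : ℂ)
      - Complex.I * (√3 - 2 * (w.1 : ℂ) * (w.2 : ℂ))) : ℂ × ℂ × ℂ)) (0, 0) := by
    simp [pm]
  rw [e2]
  exact h1

theorem crd_conj (ρ : Orb →* SL2) : crd (conjSL.comp ρ) = (starRingEnd ℂ (crd ρ).1,
    starRingEnd ℂ (crd ρ).2.1, starRingEnd ℂ (crd ρ).2.2) := by
  simp only [crd, MonoidHom.comp_apply, tr_conjSL]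

/-- both cusps are limits of quasi-Fuchsian representations -/
theorem exists_qf (p : ℂ × ℂ × ℂ) (hp : p = pp ∨ p = pm) : ∃ ρ : ℕ → (Orb →* SL2),
    (∀ k, OrbQF (ρ k)) ∧ Tendsto (fun k => crd (ρ k)) atTop (𝓝 p) := by
  rcases hp with rfl | rfl
  · refine ⟨fun k => conjSL.comp (prm k).rep, fun k => (prm k).orbQF.conj, ?_⟩
    simp only [crd_conj]
    have hF : Continuous (fun w : ℂ × ℂ × ℂ => ((starRingEnd ℂ w.1, starRingEnd ℂ w.2.1,
        starRingEnd ℂ w.2.2) : ℂ × ℂ × ℂ)) := by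
      have := Complex.continuous_conj
      fun_prop
    have h := (hF.tendsto pm).comp tendsto_crd
    have e2 : starRingEnd ℂ (2 : ℂ) = 2 := Complex.conj_ofNat 2
    have e : (starRingEnd ℂ pm.1, starRingEnd ℂ pm.2.1, starRingEnd ℂ pm.2.2) = pp := by
      simp [pm, pp, e2]
    rw [e] at h
    exact h
  · exact ⟨fun k => (prm k).rep, fun k => (prm k).orbQF, tendsto_crd⟩

end Pool.Agent.Y473.MC
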