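import Pool.Agent.Y473.MC.Growth2

/-!
# Length of reduced words in terms of the number of letters `0` and `3`
-/

namespace Pool.Agent.Y473.MC

open CoxeterSystem

theorem two_letters : ∀ β : List (Fin 4), cs4.IsReduced β → (∀ x ∈ β, x = 1 ∨ x = 2) →
    β = alternatingWord 1 2 β.length ∨ β = alternatingWord 2 1 β.length := by
  intro β
  induction β with
  | nil => intro _ _; left; rfl
  | cons x β ih =>
    intro hr hx
    have hx0 := hx x (by simp)
    have key : ∀ p q : Fin 4, (x = p ∨ x = q) → β = alternatingWord p q β.length →
        x :: β = alternatingWord p q (x :: β).length ∨ β = [] := by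
      intro p q hpq hβ
      rcases hn : β.length with _ | m
      · right; exact List.length_eq_zero_iff.mp hn
      · left
        have hβ' : β = (if Even m then q else p) :: alternatingWord p q m := by
          rw [hβ, hn, alternatingWord_succ']
        have hne : x ≠ (if Even m then q else p) := by
          intro h
          rw [hβ', h] at hr
          rw [CoxeterSystem.IsReduced, cs4.wordProd_cons, cs4.wordProd_cons,
            cs4.simple_mul_simple_cancel_left] at hr
          have := cs4.length_wordProd_le (alternatingWord p q m)
          simp only [List.length_cons] at hr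
          omega
        rw [List.length_cons, alternatingWord_succ', ← hβ, hn]
        congr 1
        by_cases he : Even m
        · rw [if_pos he] at hne
          rw [if_neg (by rw [Nat.even_add_one]; simpa using he)]
          exact hpq.resolve_right hne
        · rw [if_neg he] at hne
          rw [if_pos (by rw [Nat.even_add_one]; exact he)]
          exact hpq.resolve_left hne
    have hnil : β = [] → x :: β = alternatingWord 1 2 (x :: β).length ∨
        x :: β = alternatingWord 2 1 (x :: β).length := by
      rintro rfl
      rcases hx0 with rfl | rfl
      · right; rfl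
      · left; rfl
    rcases ih (reduced_tail hr) (fun y hy => hx y (by simp [hy])) with h | h
    · rcases key 1 2 hx0 h with h' | h'
      · exact Or.inl h'
      · exact hnil h'
    · rcases key 2 1 hx0.symm h with h' | h'
      · exact Or.inr h'
      · exact hnil h'

theorem two_letters_le {β : List (Fin 4)} (hr : cs4.IsReduced β)
    (hx : ∀ x ∈ β, x = 1 ∨ x = 2) : β.length ≤ 6 := by
  by_contra hcon
  rw [not_le] at hcon
  rcases two_letters β hr hx with h | h
  · rw [h] at hr
    exact cs4.not_isReduced_alternatingWord 1 2 (by decide) hcon hr
  · rw [h] at hr
    exact cs4.not_isReduced_alternatingWord 2 1 (by decide) hcon hr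

theorem split12 (ω : List (Fin 4)) : (∀ x ∈ ω, x = 1 ∨ x = 2) ∨
    (∃ (β ω' : List (Fin 4)) (y : Fin 4), (∀ x ∈ β, x = 1 ∨ x = 2) ∧ (y = 0 ∨ y = 3) ∧
      ω = β ++ y :: ω') := by
  induction ω with
  | nil => left; simp
  | cons x ω ih =>
    by_cases hx : x = 1 ∨ x = 2
    · rcases ih with h | ⟨β, ω', y, h1, h2, rfl⟩
      · left
        intro z hz
        rcases List.mem_cons.mp hz with rfl | hz
        · exact hx
        · exact h z hz
      · right
        refine ⟨x :: β, ω', y, ?_, h2, rfl⟩
        intro z hz
        rcases List.mem_cons.mp hz with rfl | hz
        · exact hx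
        · exact h1 z hz
    · right
      refine ⟨[], ω, x, by simp, ?_, rfl⟩
      fin_cases x
      · left; rfl
      · exact absurd (Or.inl rfl) hx
      · exact absurd (Or.inr rfl) hx
      · right; rfl

theorem length_le : ∀ (n : ℕ) (ω : List (Fin 4)), ω.length = n → cs4.IsReduced ω →
    ω.length ≤ 7 * (ω.count 0 + ω.count 3) + 6 := by
  intro n
  induction n using Nat.strong_induction_on with
  | _ n ih =>
  intro ω hω hr
  rcases split12 ω with h | ⟨β, ω', y, h1, h2, rfl⟩
  · have := two_letters_le hr h
    omega
  · have hβ := two_letters_le (reduced_append_left hr) h1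
    have hω' : cs4.IsReduced ω' := reduced_tail (reduced_append_right hr)
    have hlen : ω'.length < n := by
      rw [← hω]; simp only [List.length_append, List.length_cons]; omega
    have := ih _ hlen ω' rfl hω'
    have hc : (y :: ω').count 0 + (y :: ω').count 3 = ω'.count 0 + ω'.count 3 + 1 := by
      rcases h2 with rfl | rfl
      · rw [List.count_cons_self, List.count_cons_of_ne (by decide)]; omega
      · rw [List.count_cons_self, List.count_cons_of_ne (by decide)]; omega
    rw [List.count_append, List.count_append, List.length_append, List.length_cons]
    omega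

end Pool.Agent.Y473.MC
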