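import Pool.Agent.Y473.MC.Cover2
import Pool.Agent.Y473.MC.Herm3

/-!
# From `Orb` to surface groups
-/

namespace Pool.Agent.Y473.MC

open Matrix Topology Filter

section
variable {K G : Type*} [Group K] [Group G]

open Classical in
/-- a choice of representatives -/
noncomputable def rq (R : Subgroup G) (g : G) : G :=
  if g ∈ R then 1 else ((QuotientGroup.mk g⁻¹ : G ⧸ R).out)⁻¹

theorem rq_mem (R : Subgroup G) (g : G) : g * (rq R g)⁻¹ ∈ R := by
  unfold rq
  split_ifs with h
  · simpa using h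
  · rw [inv_inv]
    have h1 : (QuotientGroup.mk g⁻¹ : G ⧸ R) =
        QuotientGroup.mk ((QuotientGroup.mk g⁻¹ : G ⧸ R).out) := (QuotientGroup.out_eq' _).symm
    have h2 := QuotientGroup.eq.mp h1
    rwa [inv_inv] at h2

theorem rq_one_of_mem (R : Subgroup G) {g : G} (h : g ∈ R) : rq R g = 1 := if_pos h

theorem rq_range_finite (R : Subgroup G) (hR : R.FiniteIndex) : (Set.range (rq R)).Finite := by
  have hfin : Finite (G ⧸ R) := Subgroup.finite_quotient_of_finiteIndex
  refine ((Set.finite_range fun x : G ⧸ R => (x.out)⁻¹).insert 1).subset ?_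
  rintro x ⟨g, rfl⟩
  unfold rq
  split_ifs with h
  · exact Set.mem_insert _ _
  · exact Set.mem_insert_of_mem _ ⟨_, rfl⟩

/-- a group has undistorted finite index subgroups -/
theorem Nice.lipschitz {j : K →* G} (hj : Nice j) {S : Set G} (hS : S.Finite) :
    ∃ S' : Set K, S'.Finite ∧ ∀ n γ, WL S n (j γ) → WL S' n γ := by
  set R := j.range with hR
  have hT := rq_range_finite R hj.fin
  set S' : Set K := {k | ∃ p ∈ (Set.range (rq R)) ×ˢ (Set.range (rq R)) ×ˢ S,
    p.1 * p.2.2 * p.2.1⁻¹ = j k} with hS'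
  have hS'fin : S'.Finite := by
    have h1 : ((fun p : G × G × G => p.1 * p.2.2 * p.2.1⁻¹) ''
      ((Set.range (rq R)) ×ˢ (Set.range (rq R)) ×ˢ S)).Finite := (hT.prod (hT.prod hS)).image _
    refine (h1.preimage (f := j) hj.inj.injOn).subset ?_
    rintro k ⟨p, hp, hk⟩
    exact ⟨p, hp, hk⟩
  refine ⟨S', hS'fin, ?_⟩
  have key : ∀ l : List G, (∀ x ∈ l, x ∈ S) → ∀ g : G, ∃ k : K, WL S' l.length k ∧
      rq R g * l.prod = j k * rq R (g * l.prod) := by
    intro l
    induction l with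
    | nil =>
      intro _ g
      exact ⟨1, WL.one _ _, by simp⟩
    | cons s l ih =>
      intro hl g
      obtain ⟨k', hk', hk''⟩ := ih (fun x hx => hl x (List.mem_cons_of_mem _ hx)) (g * s)
      have h1 : rq R g * s * (rq R (g * s))⁻¹ ∈ R := by
        have a1 := rq_mem R g
        have a2 := rq_mem R (g * s)
        have e : rq R g * s * (rq R (g * s))⁻¹ =
            (g * (rq R g)⁻¹)⁻¹ * (g * s * (rq R (g * s))⁻¹) := by group
        rw [e]
        exact mul_mem (inv_mem a1) a2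
      obtain ⟨k0, hk0⟩ := h1
      have hk0S : k0 ∈ S' := ⟨(rq R g, rq R (g * s), s),
        ⟨⟨g, rfl⟩, ⟨g * s, rfl⟩, hl s List.mem_cons_self⟩, hk0.symm⟩
      refine ⟨k0 * k', ?_, ?_⟩
      · have := (WL.of_mem hk0S).mul hk'
        rw [List.length_cons, add_comm]
        exact this
      · rw [List.prod_cons, map_mul, mul_assoc (j k0), ← mul_assoc g, ← hk'', hk0]
        group
  rintro n γ ⟨l, hl1, hl2, hl3⟩
  obtain ⟨k, hk, hk'⟩ := key l hl2 1
  have hmem : l.prod ∈ R := by rw [hl3]; exact ⟨γ, rfl⟩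
  rw [one_mul, rq_one_of_mem R (one_mem R), rq_one_of_mem R hmem, one_mul, mul_one, hl3] at hk'
  have : γ = k := hj.inj hk'
  rw [this]
  exact hk.mono hl1

end

theorem wordNorm_set_nonempty {g : ℕ} (γ : Surf g) : {n | ∃ l : List (Gen g × Bool),
    l.length = n ∧ PresentedGroup.mk {surfRel g} (FreeGroup.mk l) = γ}.Nonempty := by
  obtain ⟨w, hw⟩ := PresentedGroup.mk_surjective _ γ
  exact ⟨w.toWord.length, w.toWord, rfl, by rw [FreeGroup.mk_toWord]; exact hw⟩

theorem wordNorm_spec {g : ℕ} (γ : Surf g) : ∃ l : List (Gen g × Bool),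
    l.length = wordNorm γ ∧ PresentedGroup.mk {surfRel g} (FreeGroup.mk l) = γ :=
  Nat.sInf_mem (wordNorm_set_nonempty γ)

theorem wordNorm_one {g : ℕ} : wordNorm (1 : Surf g) = 0 := by
  have : wordNorm (1 : Surf g) ≤ 0 := Nat.sInf_le ⟨[], rfl, by
    have : FreeGroup.mk ([] : List (Gen g × Bool)) = 1 := rfl
    rw [this, map_one]⟩
  omega

theorem wordNorm_mul {g : ℕ} (γ δ : Surf g) : wordNorm (γ * δ) ≤ wordNorm γ + wordNorm δ := by
  obtain ⟨l1, h1, h1'⟩ := wordNorm_spec γ
  obtain ⟨l2, h2, h2'⟩ := wordNorm_spec δ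
  refine Nat.sInf_le ⟨l1 ++ l2, by rw [List.length_append, h1, h2], ?_⟩
  rw [← FreeGroup.mul_mk, map_mul, h1', h2']

theorem wordNorm_bound {g : ℕ} {S : Set (Surf g)} (hS : S.Finite) :
    ∃ κ : ℕ, ∀ n γ, WL S n γ → wordNorm γ ≤ κ * n := by
  obtain ⟨κ, hκ⟩ := (hS.image wordNorm).bddAbove
  refine ⟨κ, ?_⟩
  rintro n γ ⟨l, hl1, hl2, rfl⟩
  have h : ∀ l : List (Surf g), (∀ x ∈ l, x ∈ S) → wordNorm l.prod ≤ κ * l.length := by
    intro l
    induction l with
    | nil => intro _; rw [List.prod_nil, wordNorm_one]; exact Nat.zero_le _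
    | cons x l ih =>
      intro hl
      have h1 := ih (fun y hy => hl y (List.mem_cons_of_mem _ hy))
      have h2 : wordNorm x ≤ κ := hκ ⟨x, hl x List.mem_cons_self, rfl⟩
      have h3 := wordNorm_mul x l.prod
      rw [List.prod_cons, List.length_cons, mul_add, mul_one]
      omega
  exact (h l hl2).trans (Nat.mul_le_mul_left _ hl1)

theorem genO_finite : genO.Finite := by
  unfold genO
  exact Set.toFinite _

theorem WL_finite {G : Type*} [Group G] {S : Set G} (hS : S.Finite) (n : ℕ) :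
    {γ : G | WL S n γ}.Finite := by
  have h1 : {l : List G | (∀ x ∈ l, x ∈ S) ∧ l.length ≤ n}.Finite := by
    have := hS.to_subtype
    have h2 : (Set.range fun l : {l : List S // l.length ≤ n} =>
      (l.1.map Subtype.val : List G)).Finite := by
      have : Finite {l : List S // l.length ≤ n} := List.finite_length_le S n
      exact Set.finite_range _
    refine h2.subset ?_
    rintro l ⟨hl1, hl2⟩
    refine ⟨⟨l.attachWith (· ∈ S) hl1, by simpa using hl2⟩, ?_⟩
    simp
  refine (h1.image List.prod).subset ?_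
  rintro γ ⟨l, hl1, hl2, rfl⟩
  exact ⟨l, ⟨hl2, hl1⟩, rfl⟩

/-- quasi-Fuchsian representations of surface groups from those of `Orb` -/
theorem OrbQF.comp {g : ℕ} {ρ : Orb →* SL2} (hρ : OrbQF ρ) {j : Surf g →* Orb} (hj : Nice j) :
    IsQuasiFuchsian (ρ.comp j) where
  faithful γ hγ := by
    have h1 := hρ.faithful (j γ) hγ
    exact (injective_iff_map_eq_one j).mp hj.inj γ h1
  discrete R := by
    obtain ⟨C, hC⟩ := hρ.undist
    obtain ⟨N, hN⟩ := exists_nat_ge (|C| * (1 + Real.log (|R| + 2)))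
    refine ((WL_finite genO_finite N).preimage (f := j) hj.inj.injOn).subset ?_
    intro γ hγ
    obtain ⟨n, hn1, hn2⟩ := hC (j γ)
    have hγ' : frob (ρ (j γ)) ≤ R := hγ
    have h2 := Prm.frob_ge (ρ (j γ))
    have h3 : Real.log (frob (ρ (j γ))) ≤ Real.log (|R| + 2) := by
      apply Real.log_le_log (by linarith)
      have := le_abs_self R
      linarith
    have h4 : 0 ≤ Real.log (frob (ρ (j γ))) := Real.log_nonneg (by linarith)
    have h5 : C * (1 + Real.log (frob (ρ (j γ)))) ≤ |C| * (1 + Real.log (|R| + 2)) := by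
      have a1 : C * (1 + Real.log (frob (ρ (j γ)))) ≤ |C| * (1 + Real.log (frob (ρ (j γ)))) :=
        mul_le_mul_of_nonneg_right (le_abs_self C) (by linarith)
      have a2 : |C| * (1 + Real.log (frob (ρ (j γ)))) ≤ |C| * (1 + Real.log (|R| + 2)) :=
        mul_le_mul_of_nonneg_left (by linarith) (abs_nonneg C)
      linarith
    have h6 : (n : ℝ) ≤ N := by linarith
    exact hn1.mono (by exact_mod_cast h6)
  undistorted := by
    obtain ⟨C, hC⟩ := hρ.undist
    obtain ⟨S', hS', hL⟩ := hj.lipschitz genO_finite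
    obtain ⟨κ, hκ⟩ := wordNorm_bound hS'
    refine ⟨κ * C, ?_⟩
    intro γ
    obtain ⟨n, hn1, hn2⟩ := hC (j γ)
    have h1 := hκ n γ (hL n γ hn1)
    have h2 : (wordNorm γ : ℝ) ≤ κ * n := by exact_mod_cast h1
    have h3 : (κ : ℝ) * n ≤ κ * (C * (1 + Real.log (frob (ρ (j γ))))) :=
      mul_le_mul_of_nonneg_left hn2 (Nat.cast_nonneg κ)
    have h4 : frob ((ρ.comp j) γ) = frob (ρ (j γ)) := rfl
    rw [h4, mul_assoc]
    linarith

end Pool.Agent.Y473.MC
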