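import Pool.Agent.Y473.MC.Lift

/-!
# The main theorem
-/

namespace Pool.Agent.Y473.MC

open Matrix Topology Filter

/-- pigeonhole principle for sequences -/
theorem pigeon {L : Type*} [Finite L] (f : ℕ → L) :
    ∃ (c : L) (e : ℕ → ℕ), StrictMono e ∧ ∀ i, f (e i) = c := by
  obtain ⟨c, hc⟩ := Finite.exists_infinite_fiber f
  have hc' : {n | f n = c}.Infinite := Set.infinite_coe_iff.mp hc
  exact ⟨c, Nat.nth (fun n => f n = c), Nat.nth_strictMono hc',
    fun i => Nat.nth_mem_of_infinite hc' i⟩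

/-- lifting an automorphism which preserves the image -/
theorem lift_auto {g : ℕ} {j : Surf g →* Orb} (hj : Nice j) (θ : MulAut Orb)
    (h : ∀ x, θ x ∈ j.range ↔ x ∈ j.range) : ∃ ψ : MulAut (Surf g), ∀ γ, j (ψ γ) = θ (j γ) := by
  let e : Surf g ≃* j.range := MonoidHom.ofInjective hj.inj
  have he : ∀ γ, ((e γ : j.range) : Orb) = j γ := fun γ => rfl
  have hes : ∀ x : j.range, j (e.symm x) = x := by
    intro x
    rw [← he, MulEquiv.apply_symm_apply]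
  let f : Surf g →* Surf g := e.symm.toMonoidHom.comp
    ((θ.toMonoidHom.comp j).codRestrict j.range (fun γ => (h (j γ)).mpr ⟨γ, rfl⟩))
  have hf : ∀ γ, j (f γ) = θ (j γ) := fun γ => hes _
  have hinj : Function.Injective f := by
    intro γ δ hγδ
    have h1 := congrArg j hγδ
    rw [hf, hf] at h1
    exact hj.inj (θ.injective h1)
  have hsurj : Function.Surjective f := by
    intro δ
    have h1 : θ.symm (j δ) ∈ j.range := by
      rw [← h, MulEquiv.apply_symm_apply]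
      exact ⟨δ, rfl⟩
    obtain ⟨γ, hγ⟩ := h1
    refine ⟨γ, hj.inj ?_⟩
    rw [hf, hγ, MulEquiv.apply_symm_apply]
  exact ⟨MulEquiv.ofBijective f ⟨hinj, hsurj⟩, hf⟩

/-- lifting a sequence of automorphisms -/
theorem lift_seq {g : ℕ} (hg : 0 < g) {j : Surf g →* Orb} (hj : Nice j) (θ : ℕ → MulAut Orb) :
    ∃ (e : ℕ → ℕ) (θ0 : MulAut Orb) (ψ : ℕ → MulAut (Surf g)), StrictMono e ∧
      ∀ i, OrientPres (ψ i) ∧ ∀ γ, j (ψ i γ) = θ (e i) (θ0 (j γ)) := by
  have := hj.fin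
  have hfin : Finite (Orb ⧸ j.range) := Subgroup.finite_quotient_of_finiteIndex
  let T : Orb →* Equiv.Perm (Orb ⧸ j.range) := MulAction.toPermHom Orb (Orb ⧸ j.range)
  have hT : ∀ x : Orb, x ∈ j.range ↔ T x (QuotientGroup.mk 1) = QuotientGroup.mk 1 := by
    intro x
    show x ∈ j.range ↔ (QuotientGroup.mk (x * 1) : Orb ⧸ j.range) = QuotientGroup.mk 1
    rw [QuotientGroup.eq]
    constructor
    · intro h
      have e : (x * 1)⁻¹ * 1 = x⁻¹ := by group
      rw [e]; exact inv_mem h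
    · intro h
      have e : (x * 1)⁻¹ * 1 = x⁻¹ := by group
      rw [e] at h
      exact inv_mem_iff.mp h
  obtain ⟨c, e1, he1, hc⟩ := pigeon (fun n => (T (θ n Orb.a), T (θ n Orb.b)))
  have hstab : ∀ i x, θ (e1 i) x ∈ j.range ↔ θ (e1 0) x ∈ j.range := by
    intro i x
    have h1 : T.comp (θ (e1 i)).toMonoidHom = T.comp (θ (e1 0)).toMonoidHom := by
      have h2 : (T (θ (e1 i) Orb.a), T (θ (e1 i) Orb.b)) =
        (T (θ (e1 0) Orb.a), T (θ (e1 0) Orb.b)) := (hc i).trans (hc 0).symm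
      apply Orb.hom_ext
      · exact congrArg Prod.fst h2
      · exact congrArg Prod.snd h2
    have h3 : T (θ (e1 i) x) = T (θ (e1 0) x) := DFunLike.congr_fun h1 x
    rw [hT, hT, h3]
  have hψ1 : ∀ i, ∃ ψ : MulAut (Surf g), ∀ γ, j (ψ γ) = θ (e1 i) ((θ (e1 0))⁻¹ (j γ)) := by
    intro i
    obtain ⟨ψ, hψ⟩ := lift_auto hj (θ (e1 i) * (θ (e1 0))⁻¹) (by
      intro x
      rw [MulAut.mul_apply, hstab, MulAut.apply_inv_self])
    exact ⟨ψ, hψ⟩
  choose ψ1 hψ1 using hψ1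
  choose s hs hs' using fun i => exists_sign hg (ψ1 i)
  obtain ⟨c', e2, he2, hc'⟩ := pigeon (fun n => decide (s n = 1))
  have hseq : ∀ i, s (e2 i) = s (e2 0) := by
    intro i
    have h1 : decide (s (e2 i) = 1) = decide (s (e2 0) = 1) := (hc' i).trans (hc' 0).symm
    have h2 : s (e2 i) = 1 ↔ s (e2 0) = 1 := by
      constructor
      · intro h; rw [decide_eq_true h] at h1; exact of_decide_eq_true h1.symm
      · intro h; rw [decide_eq_true h] at h1; exact of_decide_eq_true h1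
    rcases hs (e2 i) with h | h <;> rcases hs (e2 0) with h' | h'
    · rw [h, h']
    · rw [h2.mp h]; exact h
    · rw [h2.mpr h'] at h; norm_num at h
    · rw [h, h']
  refine ⟨fun i => e1 (e2 i), (θ (e1 (e2 0)))⁻¹, fun i => ψ1 (e2 i) * (ψ1 (e2 0))⁻¹,
    he1.comp he2, ?_⟩
  intro i
  constructor
  · intro x y
    have h1 := hs' (e2 i) ((ψ1 (e2 0))⁻¹ x) ((ψ1 (e2 0))⁻¹ y)
    have h2 := hs' (e2 0) ((ψ1 (e2 0))⁻¹ x) ((ψ1 (e2 0))⁻¹ y)
    rw [MulAut.apply_inv_self, MulAut.apply_inv_self] at h2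
    rw [MulAut.mul_apply, MulAut.mul_apply, h1, h2, hseq i]
  · intro γ
    rw [MulAut.mul_apply, hψ1]
    have h1 := hψ1 (e2 0) ((ψ1 (e2 0))⁻¹ γ)
    rw [MulAut.apply_inv_self] at h1
    rw [h1, MulAut.inv_apply_self]

/-- limits in the character variety -/
theorem tendsto_pt {g : ℕ} {ρ : ℕ → Rep g} {σ : Rep g}
    (h : ∀ γ, Tendsto (fun n => tr (ρ n γ)) atTop (𝓝 (tr (σ γ)))) :
    Tendsto (fun n => pt (ρ n)) atTop (𝓝 (pt σ)) := by
  rw [tendsto_subtype_rng, tendsto_pi_nhds]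
  exact h

/-- orbit closures -/
theorem mem_closure_orbit {g : ℕ} (hg : 0 < g) {j : Surf g →* Orb} (hj : Nice j)
    {ρ σ : Orb →* SL2} (θ : ℕ → MulAut Orb)
    (h : Tendsto (fun n => crd (ρ.comp (θ n).toMonoidHom)) atTop (𝓝 (crd σ))) :
    ∃ θ0 : MulAut Orb, pt (σ.comp (θ0.toMonoidHom.comp j)) ∈ closure (modOrbit (ρ.comp j)) := by
  obtain ⟨e, θ0, ψ, he, hψ⟩ := lift_seq hg hj θ
  refine ⟨θ0, ?_⟩
  refine mem_closure_of_tendsto (f := fun i => pt ((ρ.comp j).comp (ψ i).toMonoidHom))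
    (b := atTop) ?_ (Eventually.of_forall fun i => ⟨ψ i, (hψ i).1, rfl⟩)
  apply tendsto_pt
  intro γ
  have h1 : ∀ i, ((ρ.comp j).comp (ψ i).toMonoidHom) γ =
      (ρ.comp (θ (e i)).toMonoidHom) (θ0 (j γ)) := by
    intro i
    show ρ (j (ψ i γ)) = ρ (θ (e i) (θ0 (j γ)))
    rw [(hψ i).2]
  simp only [h1]
  exact (tendsto_tr h (θ0 (j γ))).comp he.tendsto_atTop

/-- a primitive sixth root of unity -/
noncomputable def z6 : ℂ := 1 / 2 + Complex.I * (√3 / 2)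

theorem z6_mul : z6 * starRingEnd ℂ z6 = 1 := by
  have h3 := Prm.sqrt3_sqC
  have h4 := Complex.I_sq
  simp only [z6, map_add, map_mul, map_div₀, Complex.conj_I, Complex.conj_ofReal, map_one,
    Complex.conj_ofNat]
  linear_combination (1 / 4 : ℂ) * h3 - (√3 : ℂ) ^ 2 / 4 * h4

theorem z6_add : z6 + starRingEnd ℂ z6 = 1 := by
  simp only [z6, map_add, map_mul, map_div₀, Complex.conj_I, Complex.conj_ofReal, map_one,
    Complex.conj_ofNat]
  ring

/-- unitary matrix -/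
noncomputable def uA : SL2 := ⟨!![z6, 0; 0, starRingEnd ℂ z6], by
  rw [Matrix.det_fin_two_of]
  linear_combination z6_mul⟩

/-- unitary matrix -/
noncomputable def uB : SL2 := ⟨!![0, 1; -1, 0], by
  rw [Matrix.det_fin_two_of]; ring⟩

theorem tr_uA : tr uA = 1 := by
  simp only [tr, uA, Matrix.trace_fin_two_of]
  exact z6_add

theorem tr_uB : tr uB = 0 := by
  simp [tr, uB, Matrix.trace_fin_two_of]

theorem tr_uAB : tr (uA * uB) = 0 := by
  simp [tr, uA, uB, Matrix.trace_fin_two]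

/-- the unitary representation -/
noncomputable def τ0 : Orb →* SL2 := repOf uA uB (by
  rw [tr_cm, tr_uA, tr_uB, tr_uAB]; ring)

theorem crd_τ0 : crd τ0 = q0 := by
  rw [τ0, crd_repOf, tr_uA, tr_uB, tr_uAB]
  rfl

theorem unitary_uA : uA.1 ∈ Matrix.unitaryGroup (Fin 2) ℂ := by
  rw [Matrix.mem_unitaryGroup_iff]
  have h1 := z6_mul
  have h2 : starRingEnd ℂ z6 * z6 = 1 := by rw [mul_comm]; exact h1
  ext i j
  fin_cases i <;> fin_cases j <;>
    simp [uA, Matrix.mul_apply, Fin.sum_univ_two, Matrix.star_apply, h1, h2]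

theorem unitary_uB : uB.1 ∈ Matrix.unitaryGroup (Fin 2) ℂ := by
  rw [Matrix.mem_unitaryGroup_iff]
  ext i j
  fin_cases i <;> fin_cases j <;>
    simp [uB, Matrix.mul_apply, Fin.sum_univ_two, Matrix.star_apply]

theorem unitary_inv {A : SL2} (h : A.1 ∈ Matrix.unitaryGroup (Fin 2) ℂ) :
    (A⁻¹).1 ∈ Matrix.unitaryGroup (Fin 2) ℂ := by
  have h1 : star A.1 * A.1 = 1 := (Matrix.mem_unitaryGroup_iff').mp h
  have h2 : A.1 * (A⁻¹).1 = 1 := by
    have : (A * A⁻¹).1 = 1 := by rw [mul_inv_cancel]; rfl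
    exact this
  have h3 : (A⁻¹).1 = star A.1 := by
    calc (A⁻¹).1 = (star A.1 * A.1) * (A⁻¹).1 := by rw [h1, one_mul]
      _ = star A.1 := by rw [Matrix.mul_assoc, h2, Matrix.mul_one]
  rw [h3]
  exact Unitary.star_mem h

theorem unitary_τ0 (γ : Orb) : (τ0 γ).1 ∈ Matrix.unitaryGroup (Fin 2) ℂ := by
  have ha : (τ0 Orb.a).1 ∈ Matrix.unitaryGroup (Fin 2) ℂ := by
    rw [τ0, repOf_a]; exact unitary_uA
  have hb : (τ0 Orb.b).1 ∈ Matrix.unitaryGroup (Fin 2) ℂ := by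
    rw [τ0, repOf_b]; exact unitary_uB
  have hmul : ∀ g x : Orb, (τ0 g).1 ∈ Matrix.unitaryGroup (Fin 2) ℂ →
      (τ0 x).1 ∈ Matrix.unitaryGroup (Fin 2) ℂ → (τ0 (g * x)).1 ∈ Matrix.unitaryGroup (Fin 2) ℂ := by
    intro g x h1 h2
    rw [map_mul]
    exact mul_mem h1 h2
  have hinv : ∀ g : Orb, (τ0 g).1 ∈ Matrix.unitaryGroup (Fin 2) ℂ →
      (τ0 g⁻¹).1 ∈ Matrix.unitaryGroup (Fin 2) ℂ := by
    intro g h
    rw [map_inv]
    exact unitary_inv h
  refine Orb.ind (p := fun γ => (τ0 γ).1 ∈ Matrix.unitaryGroup (Fin 2) ℂ) ?_ ?_ ?_ ?_ ?_ γ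
  · rw [map_one]; exact one_mem _
  · exact fun x hx => hmul _ _ ha hx
  · exact fun x hx => hmul _ _ (hinv _ ha) hx
  · exact fun x hx => hmul _ _ hb hx
  · exact fun x hx => hmul _ _ (hinv _ hb) hx

/-- main theorem -/
theorem main (g : ℕ) (hg : 2 ≤ g) : ∃ ρ : Rep g,
    (closure (modOrbit ρ) ∩ unitaryChars g).Nonempty ∧
    (closure (modOrbit ρ) ∩ closure (quasiFuchsianChars g)).Nonempty := by
  obtain ⟨j, hj⟩ := exists_nice hg
  obtain ⟨w, hw, hU, p, hp, γ, P, hA, hC⟩ := exists_w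
  obtain ⟨ρ, hρ⟩ := exists_rep w hw
  refine ⟨ρ.comp j, ?_, ?_⟩
  · have h1 : Tendsto (fun n : ℕ => crd (ρ.comp ((Orb.F⁻¹ : MulAut Orb) ^ (6 * n)).toMonoidHom))
        atTop (𝓝 (crd τ0)) := by
      have h2 : ∀ n : ℕ, crd (ρ.comp ((Orb.F⁻¹ : MulAut Orb) ^ (6 * n)).toMonoidHom) =
          PG^[6 * n] w := by
        intro n
        rw [(adm_G.pow (6 * n)).crd ρ, hρ]
      simp only [h2]
      rw [crd_τ0]
      exact hU
    obtain ⟨θ0, hθ0⟩ := mem_closure_orbit (by omega) hj _ h1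
    exact ⟨_, hθ0, τ0.comp (θ0.toMonoidHom.comp j), fun δ => unitary_τ0 _, rfl⟩
  · obtain ⟨σn, hσn, hσ⟩ := exists_qf p hp
    have hp1 : mk3 p = 1 := by
      have h3 := Prm.sqrt3_sqC
      have h4 := Complex.I_sq
      rcases hp with rfl | rfl
      · simp only [mk3, pp]
        linear_combination (√3 : ℂ) ^ 2 * h4 - h3
      · simp only [mk3, pm]
        linear_combination (√3 : ℂ) ^ 2 * h4 - h3
    obtain ⟨σ, hσ'⟩ := exists_rep p hp1
    have h1 : Tendsto (fun n : ℕ => crd (ρ.comp (γ n).toMonoidHom)) atTop (𝓝 (crd σ)) := by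
      have h2 : ∀ n : ℕ, crd (ρ.comp (γ n).toMonoidHom) = P n w := by
        intro n
        rw [(hA n).crd ρ, hρ]
      simp only [h2]
      rw [hσ']
      exact hC
    obtain ⟨θ0, hθ0⟩ := mem_closure_orbit (by omega) hj _ h1
    refine ⟨_, hθ0, ?_⟩
    refine mem_closure_of_tendsto (f := fun i => pt ((σn i).comp (θ0.toMonoidHom.comp j)))
      (b := atTop) ?_ (Eventually.of_forall fun i => ⟨_, (hσn i).comp
        ((Nice.ofEquiv θ0).comp hj), rfl⟩)
    apply tendsto_pt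
    intro δ
    have h5 : Tendsto (fun k => crd (σn k)) atTop (𝓝 (crd σ)) := by rw [hσ']; exact hσ
    exact tendsto_tr h5 (θ0 (j δ))

end Pool.Agent.Y473.MC
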