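import Pool.Agent.Y473.MC.Defs

/-!
# The group `⟨a, b | [a,b]^3⟩` and the trace coordinates of its representations
-/

namespace Pool.Agent.Y473.MC

open Matrix Topology Filter

/-- the relator of the torus with one cone point of order three -/
def oRel : FreeGroup Bool := (cm (FreeGroup.of false) (FreeGroup.of true)) ^ 3

/-- the orbifold fundamental group of the torus with one cone point of order three -/
abbrev Orb := PresentedGroup ({oRel} : Set (FreeGroup Bool))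

namespace Orb

/-- first generator -/
def a : Orb := PresentedGroup.of false
/-- second generator -/
def b : Orb := PresentedGroup.of true

theorem rel : (cm a b) ^ 3 = 1 := by
  have h : PresentedGroup.mk ({oRel} : Set (FreeGroup Bool)) oRel = 1 :=
    PresentedGroup.one_of_mem (Set.mem_singleton _)
  have e : PresentedGroup.mk ({oRel} : Set (FreeGroup Bool)) oRel = (cm a b) ^ 3 := by
    show PresentedGroup.mk _ ((cm (FreeGroup.of false) (FreeGroup.of true)) ^ 3) = _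
    rw [map_pow]
    rfl
  rw [← e]; exact h

/-- universal property -/
def hom {G : Type*} [Group G] (A B : G) (h : (cm A B) ^ 3 = 1) : Orb →* G :=
  PresentedGroup.toGroup (f := fun x => cond x B A) (by
    intro r hr
    rw [Set.mem_singleton_iff.mp hr, oRel]
    simpa [cm] using h)

@[simp] theorem hom_a {G : Type*} [Group G] (A B : G) (h : (cm A B) ^ 3 = 1) :
    hom A B h a = A := by
  simp [hom, a]

@[simp] theorem hom_b {G : Type*} [Group G] (A B : G) (h : (cm A B) ^ 3 = 1) :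
    hom A B h b = B := by
  simp [hom, b]

theorem hom_ext {G : Type*} [Group G] {f g : Orb →* G} (ha : f a = g a) (hb : f b = g b) :
    f = g := by
  apply PresentedGroup.ext
  intro x
  cases x
  · exact ha
  · exact hb

/-- induction on words -/
theorem ind {p : Orb → Prop} (h1 : p 1) (ha : ∀ x, p x → p (a * x)) (ha' : ∀ x, p x → p (a⁻¹ * x))
    (hb : ∀ x, p x → p (b * x)) (hb' : ∀ x, p x → p (b⁻¹ * x)) (x : Orb) : p x := by
  obtain ⟨w, rfl⟩ := PresentedGroup.mk_surjective _ x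
  obtain ⟨L, rfl⟩ : ∃ L, FreeGroup.mk L = w := ⟨w.toWord, FreeGroup.mk_toWord⟩
  induction L with
  | nil =>
    have : FreeGroup.mk ([] : List (Bool × Bool)) = 1 := rfl
    rw [this, map_one]
    exact h1
  | cons y L ih =>
    have e : FreeGroup.mk (y :: L) = FreeGroup.mk [y] * FreeGroup.mk L := by
      rw [FreeGroup.mul_mk]; rfl
    rw [e, map_mul]
    rcases y with ⟨c, s⟩
    have hs : s = true ∨ s = false := by cases s <;> simp
    rcases hs with rfl | rfl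
    · have e2 : PresentedGroup.mk ({oRel} : Set (FreeGroup Bool)) (FreeGroup.mk [(c, true)])
          = PresentedGroup.of c := rfl
      rw [e2]
      cases c
      · exact ha _ ih
      · exact hb _ ih
    · have e2 : PresentedGroup.mk ({oRel} : Set (FreeGroup Bool)) (FreeGroup.mk [(c, false)])
          = (PresentedGroup.of c)⁻¹ := by
        have : FreeGroup.mk [(c, false)] = (FreeGroup.of c)⁻¹ := by
          rw [FreeGroup.of, FreeGroup.inv_mk]; rfl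
        rw [this, map_inv]; rfl
      rw [e2]
      cases c
      · exact ha' _ ih
      · exact hb' _ ih

end Orb

/-- the group SL(2,ℂ) -/
abbrev SL2 := SpecialLinearGroup (Fin 2) ℂ

/-- trace of an element of `SL(2,ℂ)` -/
def tr (A : SL2) : ℂ := Matrix.trace (A : Matrix (Fin 2) (Fin 2) ℂ)

theorem tr_eq (A : SL2) : tr A = A.1 0 0 + A.1 1 1 := by
  simp [tr, Matrix.trace_fin_two]

theorem det_eq (A : SL2) : A.1 0 0 * A.1 1 1 - A.1 0 1 * A.1 1 0 = 1 := by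
  rw [← Matrix.det_fin_two]; exact A.2

theorem sl_ext {A B : SL2} (h : A.1 = B.1) : A = B := Subtype.ext h

theorem sq_eq (A : SL2) : A.1 * A.1 = tr A • A.1 - 1 := by
  have h := det_eq A
  rw [tr_eq]
  ext i j
  fin_cases i <;> fin_cases j <;> simp [Matrix.mul_apply, Fin.sum_univ_two]
  · linear_combination -h
  · ring
  · ring
  · linear_combination -h

theorem inv_eq (A : SL2) : (A⁻¹).1 = tr A • (1 : Matrix (Fin 2) (Fin 2) ℂ) - A.1 := by
  rw [tr_eq]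
  ext i j
  fin_cases i <;> fin_cases j <;> simp [Matrix.SpecialLinearGroup.coe_inv, Matrix.adjugate_fin_two]

theorem ba_eq (A B : SL2) : B.1 * A.1 = -(A.1 * B.1) + tr B • A.1 + tr A • B.1
    + (tr (A * B) - tr A * tr B) • (1 : Matrix (Fin 2) (Fin 2) ℂ) := by
  rw [tr_eq, tr_eq, tr_eq]
  have h1 := det_eq A
  have h2 := det_eq B
  ext i j
  fin_cases i <;> fin_cases j <;> simp [Matrix.mul_apply, Fin.sum_univ_two] <;> ring

/-- the trace coordinates of a representation of `Orb` -/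
def crd (ρ : Orb →* SL2) : ℂ × ℂ × ℂ := (tr (ρ Orb.a), tr (ρ Orb.b), tr (ρ (Orb.a * Orb.b)))

/-- every element is a combination of `1, A, B, AB` with coefficients depending continuously only on
the trace coordinates -/
theorem fricke_aux (γ : Orb) : ∃ p0 p1 p2 p3 : ℂ × ℂ × ℂ → ℂ, Continuous p0 ∧ Continuous p1 ∧
    Continuous p2 ∧ Continuous p3 ∧ ∀ ρ : Orb →* SL2, (ρ γ).1 =
      p0 (crd ρ) • (1 : Matrix (Fin 2) (Fin 2) ℂ) + p1 (crd ρ) • (ρ Orb.a).1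
        + p2 (crd ρ) • (ρ Orb.b).1 + p3 (crd ρ) • ((ρ Orb.a).1 * (ρ Orb.b).1) := by
  have ha : ∀ x : Orb, (∃ p0 p1 p2 p3 : ℂ × ℂ × ℂ → ℂ, Continuous p0 ∧ Continuous p1 ∧
    Continuous p2 ∧ Continuous p3 ∧ ∀ ρ : Orb →* SL2, (ρ x).1 =
      p0 (crd ρ) • (1 : Matrix (Fin 2) (Fin 2) ℂ) + p1 (crd ρ) • (ρ Orb.a).1
        + p2 (crd ρ) • (ρ Orb.b).1 + p3 (crd ρ) • ((ρ Orb.a).1 * (ρ Orb.b).1)) →
    (∃ p0 p1 p2 p3 : ℂ × ℂ × ℂ → ℂ, Continuous p0 ∧ Continuous p1 ∧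
    Continuous p2 ∧ Continuous p3 ∧ ∀ ρ : Orb →* SL2, (ρ (Orb.a * x)).1 =
      p0 (crd ρ) • (1 : Matrix (Fin 2) (Fin 2) ℂ) + p1 (crd ρ) • (ρ Orb.a).1
        + p2 (crd ρ) • (ρ Orb.b).1 + p3 (crd ρ) • ((ρ Orb.a).1 * (ρ Orb.b).1)) := by
    rintro x ⟨p0, p1, p2, p3, h0, h1, h2, h3, h⟩
    refine ⟨fun c => - p1 c, fun c => p0 c + c.1 * p1 c, fun c => - p3 c,
      fun c => p2 c + c.1 * p3 c, by fun_prop, by fun_prop, by fun_prop, by fun_prop, ?_⟩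
    intro ρ
    have e : (ρ (Orb.a * x)).1 = (ρ Orb.a).1 * (ρ x).1 := by rw [map_mul]; rfl
    rw [e, h ρ]
    have s1 := sq_eq (ρ Orb.a)
    have c1 : (crd ρ).1 = tr (ρ Orb.a) := rfl
    simp only [mul_add, mul_smul_comm, mul_one]
    rw [← Matrix.mul_assoc, s1, c1, sub_mul, smul_mul_assoc, one_mul]
    module
  have hb : ∀ x : Orb, (∃ p0 p1 p2 p3 : ℂ × ℂ × ℂ → ℂ, Continuous p0 ∧ Continuous p1 ∧
    Continuous p2 ∧ Continuous p3 ∧ ∀ ρ : Orb →* SL2, (ρ x).1 =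
      p0 (crd ρ) • (1 : Matrix (Fin 2) (Fin 2) ℂ) + p1 (crd ρ) • (ρ Orb.a).1
        + p2 (crd ρ) • (ρ Orb.b).1 + p3 (crd ρ) • ((ρ Orb.a).1 * (ρ Orb.b).1)) →
    (∃ p0 p1 p2 p3 : ℂ × ℂ × ℂ → ℂ, Continuous p0 ∧ Continuous p1 ∧
    Continuous p2 ∧ Continuous p3 ∧ ∀ ρ : Orb →* SL2, (ρ (Orb.b * x)).1 =
      p0 (crd ρ) • (1 : Matrix (Fin 2) (Fin 2) ℂ) + p1 (crd ρ) • (ρ Orb.a).1
        + p2 (crd ρ) • (ρ Orb.b).1 + p3 (crd ρ) • ((ρ Orb.a).1 * (ρ Orb.b).1)) := by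
    rintro x ⟨p0, p1, p2, p3, h0, h1, h2, h3, h⟩
    refine ⟨fun c => p1 c * (c.2.2 - c.1 * c.2.1) - p2 c - c.1 * p3 c,
      fun c => c.2.1 * p1 c + p3 c, fun c => p0 c + c.1 * p1 c + c.2.1 * p2 c + c.2.2 * p3 c,
      fun c => - p1 c, by fun_prop, by fun_prop, by fun_prop, by fun_prop, ?_⟩
    intro ρ
    have e : (ρ (Orb.b * x)).1 = (ρ Orb.b).1 * (ρ x).1 := by rw [map_mul]; rfl
    rw [e, h ρ]
    have s1 := sq_eq (ρ Orb.b)
    have s2 := ba_eq (ρ Orb.a) (ρ Orb.b)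
    have c1 : (crd ρ).1 = tr (ρ Orb.a) := rfl
    have c2 : (crd ρ).2.1 = tr (ρ Orb.b) := rfl
    have c3 : (crd ρ).2.2 = tr (ρ Orb.a * ρ Orb.b) := by
      show tr (ρ (Orb.a * Orb.b)) = _
      rw [map_mul]
    have s3 : (ρ Orb.b).1 * ((ρ Orb.a).1 * (ρ Orb.b).1) = (ρ Orb.a).1
        - tr (ρ Orb.a) • (1 : Matrix (Fin 2) (Fin 2) ℂ)
        + tr (ρ Orb.a * ρ Orb.b) • (ρ Orb.b).1 := by
      rw [← Matrix.mul_assoc, s2]
      simp only [add_mul, neg_mul, smul_mul_assoc, one_mul]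
      rw [Matrix.mul_assoc, s1, mul_sub, mul_smul_comm, mul_one]
      module
    simp only [mul_add, mul_smul_comm, mul_one]
    rw [s3, s2, s1, c1, c2, c3]
    module
  have hinv : ∀ (c x : Orb) (i : ℂ × ℂ × ℂ → ℂ), Continuous i → (∀ ρ : Orb →* SL2,
      i (crd ρ) = tr (ρ c)) → (∃ p0 p1 p2 p3 : ℂ × ℂ × ℂ → ℂ, Continuous p0 ∧ Continuous p1 ∧
    Continuous p2 ∧ Continuous p3 ∧ ∀ ρ : Orb →* SL2, (ρ x).1 =
      p0 (crd ρ) • (1 : Matrix (Fin 2) (Fin 2) ℂ) + p1 (crd ρ) • (ρ Orb.a).1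
        + p2 (crd ρ) • (ρ Orb.b).1 + p3 (crd ρ) • ((ρ Orb.a).1 * (ρ Orb.b).1)) →
    (∃ p0 p1 p2 p3 : ℂ × ℂ × ℂ → ℂ, Continuous p0 ∧ Continuous p1 ∧
    Continuous p2 ∧ Continuous p3 ∧ ∀ ρ : Orb →* SL2, (ρ (c * x)).1 =
      p0 (crd ρ) • (1 : Matrix (Fin 2) (Fin 2) ℂ) + p1 (crd ρ) • (ρ Orb.a).1
        + p2 (crd ρ) • (ρ Orb.b).1 + p3 (crd ρ) • ((ρ Orb.a).1 * (ρ Orb.b).1)) →
    (∃ p0 p1 p2 p3 : ℂ × ℂ × ℂ → ℂ, Continuous p0 ∧ Continuous p1 ∧
    Continuous p2 ∧ Continuous p3 ∧ ∀ ρ : Orb →* SL2, (ρ (c⁻¹ * x)).1 =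
      p0 (crd ρ) • (1 : Matrix (Fin 2) (Fin 2) ℂ) + p1 (crd ρ) • (ρ Orb.a).1
        + p2 (crd ρ) • (ρ Orb.b).1 + p3 (crd ρ) • ((ρ Orb.a).1 * (ρ Orb.b).1)) := by
    rintro c x i hi hc ⟨p0, p1, p2, p3, h0, h1, h2, h3, h⟩ ⟨q0, q1, q2, q3, k0, k1, k2, k3, k⟩
    refine ⟨fun c => i c * p0 c - q0 c, fun c => i c * p1 c - q1 c, fun c => i c * p2 c - q2 c,
      fun c => i c * p3 c - q3 c, by fun_prop, by fun_prop, by fun_prop, by fun_prop, ?_⟩
    intro ρ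
    have e : (ρ (c⁻¹ * x)).1 = i (crd ρ) • (ρ x).1 - (ρ (c * x)).1 := by
      have : (ρ (c⁻¹ * x)).1 = ((ρ c)⁻¹).1 * (ρ x).1 := by rw [map_mul, map_inv]; rfl
      rw [this, inv_eq, hc ρ, sub_mul, smul_mul_assoc, one_mul]
      have : (ρ (c * x)).1 = (ρ c).1 * (ρ x).1 := by rw [map_mul]; rfl
      rw [this]
    rw [e, h ρ, k ρ]
    module
  refine Orb.ind (p := fun γ => ∃ p0 p1 p2 p3 : ℂ × ℂ × ℂ → ℂ, Continuous p0 ∧ Continuous p1 ∧
    Continuous p2 ∧ Continuous p3 ∧ ∀ ρ : Orb →* SL2, (ρ γ).1 =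
      p0 (crd ρ) • (1 : Matrix (Fin 2) (Fin 2) ℂ) + p1 (crd ρ) • (ρ Orb.a).1
        + p2 (crd ρ) • (ρ Orb.b).1 + p3 (crd ρ) • ((ρ Orb.a).1 * (ρ Orb.b).1)) ?_ ha ?_ hb ?_ γ
  · refine ⟨fun _ => 1, fun _ => 0, fun _ => 0, fun _ => 0, continuous_const, continuous_const,
      continuous_const, continuous_const, ?_⟩
    intro ρ
    simp
  · intro x hx
    exact hinv _ x (fun c => c.1) continuous_fst (fun ρ => rfl) hx (ha x hx)
  · intro x hx
    exact hinv _ x (fun c => c.2.1) (by fun_prop) (fun ρ => rfl) hx (hb x hx)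

/-- the trace of every element is a continuous function of the trace coordinates -/
theorem fricke (γ : Orb) : ∃ F : ℂ × ℂ × ℂ → ℂ, Continuous F ∧
    ∀ ρ : Orb →* SL2, tr (ρ γ) = F (crd ρ) := by
  obtain ⟨p0, p1, p2, p3, h0, h1, h2, h3, h⟩ := fricke_aux γ
  refine ⟨fun c => 2 * p0 c + p1 c * c.1 + p2 c * c.2.1 + p3 c * c.2.2, by fun_prop, ?_⟩
  intro ρ
  have e1 : (crd ρ).1 = Matrix.trace (ρ Orb.a).1 := rfl
  have e2 : (crd ρ).2.1 = Matrix.trace (ρ Orb.b).1 := rfl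
  have e3 : (crd ρ).2.2 = Matrix.trace ((ρ Orb.a).1 * (ρ Orb.b).1) := by
    show Matrix.trace (ρ (Orb.a * Orb.b)).1 = _
    rw [map_mul]; rfl
  show Matrix.trace (ρ γ).1 = _
  rw [h ρ]
  simp only [Matrix.trace_add, Matrix.trace_smul, e1, e2, e3, smul_eq_mul]
  have : Matrix.trace (1 : Matrix (Fin 2) (Fin 2) ℂ) = 2 := by simp
  rw [this]
  ring

/-- convergence of the trace coordinates implies convergence of all traces -/
theorem tendsto_tr {ι : Type*} {l : Filter ι} {ρ : ι → (Orb →* SL2)} {σ : Orb →* SL2}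
    (h : Tendsto (fun i => crd (ρ i)) l (𝓝 (crd σ))) (γ : Orb) :
    Tendsto (fun i => tr (ρ i γ)) l (𝓝 (tr (σ γ))) := by
  obtain ⟨F, hF, e⟩ := fricke γ
  simp only [e]
  exact (hF.tendsto _).comp h

end Pool.Agent.Y473.MC
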