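import Pool.Agent.Y473.MC.Len
import Pool.Agent.Y473.MC.Auto

/-!
# `Orb` as a finite index subgroup of the Coxeter group
-/

namespace Pool.Agent.Y473.MC

open CoxeterSystem

theorem cm_cube_all (u v : Orb) (hu : u = Orb.a ∨ u = Orb.a⁻¹) (hv : v = Orb.b ∨ v = Orb.b⁻¹) :
    (u * v * u⁻¹ * v⁻¹) ^ 3 = 1 := by
  have h := Orb.rel
  rcases hu with rfl | rfl <;> rcases hv with rfl | rfl
  · exact h
  · refine Orb.conj_cube (Orb.b⁻¹) (Orb.inv_cube h rfl) ?_
    simp only [cm]; group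
  · refine Orb.conj_cube (Orb.a⁻¹) (Orb.inv_cube h rfl) ?_
    simp only [cm]; group
  · refine Orb.conj_cube ((Orb.a⁻¹ * Orb.b⁻¹)) h ?_
    simp only [cm]; group

/-- the space on which the Coxeter group acts -/
abbrev Sp := Orb × Bool × Bool

/-- the letter attached to `1` -/
def lb (x : Bool) : Orb := if x then Orb.b else Orb.b⁻¹
/-- the letter attached to `2` -/
def la (y : Bool) : Orb := if y then Orb.a⁻¹ else Orb.a

theorem lb_not (x : Bool) : lb (!x) = (lb x)⁻¹ := by cases x <;> simp [lb]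
theorem la_not (x : Bool) : la (!x) = (la x)⁻¹ := by cases x <;> simp [la]

/-- underlying maps -/
def ff (i : Fin 4) (p : Sp) : Sp :=
  ![(p.1, !p.2.1, p.2.2), (p.1 * lb p.2.1, !p.2.1, p.2.2), (p.1 * la p.2.2, p.2.1, !p.2.2),
    (p.1, p.2.1, !p.2.2)] i

theorem ff_invol (i : Fin 4) : Function.Involutive (ff i) := by
  rintro ⟨γ, x, y⟩
  fin_cases i <;> simp [ff, lb_not, la_not]

/-- the permutations -/
def pf (i : Fin 4) : Equiv.Perm Sp := (ff_invol i).toPerm

theorem pf_apply (i : Fin 4) (p : Sp) : pf i p = ff i p := rfl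

theorem pf_sq (i : Fin 4) : pf i * pf i = 1 := by
  ext p : 1
  rw [Equiv.Perm.mul_apply, pf_apply, pf_apply, ff_invol i p]; rfl

theorem pf_six : (pf 1 * pf 2) ^ 6 = 1 := by
  have h2 : ∀ (γ : Orb) (x y : Bool), ((pf 1 * pf 2) ^ 2) (γ, x, y) =
      (γ * (la y * lb x * (la y)⁻¹ * (lb x)⁻¹), x, y) := by
    intro γ x y
    rw [pow_two]
    simp only [Equiv.Perm.mul_apply, pf_apply, ff]
    simp [lb_not, la_not, mul_assoc]
  have hc : ∀ x y : Bool, (la y * lb x * (la y)⁻¹ * (lb x)⁻¹) ^ 3 = 1 := by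
    intro x y
    apply cm_cube_all
    · cases y <;> simp [la]
    · cases x <;> simp [lb]
  have h6 : (pf 1 * pf 2) ^ 6 = (pf 1 * pf 2) ^ 2 * (pf 1 * pf 2) ^ 2 * (pf 1 * pf 2) ^ 2 := by
    rw [← pow_add, ← pow_add]
  rw [h6]
  ext1 ⟨γ, x, y⟩
  rw [Equiv.Perm.mul_apply, Equiv.Perm.mul_apply, h2, h2, h2, Equiv.Perm.one_apply]
  refine Prod.ext ?_ rfl
  have := hc x y
  rw [pow_succ, pow_two] at this
  simp only [mul_assoc] at this ⊢
  rw [this, mul_one]

theorem pf_comm {i j : Fin 4} (h : ∀ p, ff i (ff j p) = ff j (ff i p)) : (pf i * pf j) ^ 2 = 1 := by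
  have hc : pf i * pf j = pf j * pf i := by
    ext p : 1
    exact h p
  rw [pow_two]
  calc pf i * pf j * (pf i * pf j) = pf i * pf j * (pf j * pf i) := by rw [← hc]
    _ = pf i * (pf j * pf j) * pf i := by simp only [mul_assoc]
    _ = 1 := by rw [pf_sq, mul_one, pf_sq]

theorem pf_liftable : M4.IsLiftable pf := by
  intro i j
  have sq : ∀ i, (pf i * pf i) ^ 1 = 1 := fun i => by rw [pow_one]; exact pf_sq i
  fin_cases i <;> fin_cases j
  · exact sq 0
  · exact pow_zero _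
  · exact pf_comm (fun p => rfl)
  · exact pf_comm (fun p => rfl)
  · exact pow_zero _
  · exact sq 1
  · exact pf_six
  · exact pf_comm (fun p => rfl)
  · exact pf_comm (fun p => rfl)
  · exact pow_swap (pf_sq 2) pf_six
  · exact sq 2
  · exact pow_zero _
  · exact pf_comm (fun p => rfl)
  · exact pf_comm (fun p => rfl)
  · exact pow_zero _
  · exact sq 3

/-- the action of the Coxeter group on `Orb × Bool × Bool` -/
def Φ4 : W4 →* Equiv.Perm Sp := cs4.lift ⟨pf, pf_liftable⟩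

theorem Φ4_simple (i : Fin 4) : Φ4 (cs4.simple i) = pf i := cs4.lift_apply_simple pf_liftable i

/-- the inclusion of `Orb` -/
def jW : Orb →* W4 := Orb.hom (cs4.simple 2 * cs4.simple 3) (cs4.simple 0 * cs4.simple 1) (by
  have h30 : cs4.simple 3 * cs4.simple 0 = cs4.simple 0 * cs4.simple 3 := simple_comm _ _ rfl
  have h31 : cs4.simple 3 * cs4.simple 1 = cs4.simple 1 * cs4.simple 3 := simple_comm _ _ rfl
  have h02 : cs4.simple 0 * cs4.simple 2 = cs4.simple 2 * cs4.simple 0 := simple_comm _ _ rfl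
  have h33 : cs4.simple 3 * cs4.simple 3 = 1 := cs4.simple_mul_simple_self 3
  refine Orb.conj_cube (y := (cs4.simple 2 * cs4.simple 1) ^ 2) (cs4.simple 0) ?_ ?_
  · rw [← pow_mul]
    exact cs4.simple_mul_simple_pow 2 1
  · simp only [cm, mul_inv_rev, cs4.inv_simple, pow_two]
    calc cs4.simple 2 * cs4.simple 3 * (cs4.simple 0 * cs4.simple 1) *
          (cs4.simple 3 * cs4.simple 2) * (cs4.simple 1 * cs4.simple 0)
        = cs4.simple 2 * (cs4.simple 3 * cs4.simple 0) * cs4.simple 1 *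
          (cs4.simple 3 * cs4.simple 2) * (cs4.simple 1 * cs4.simple 0) := by
          simp only [mul_assoc]
      _ = (cs4.simple 2 * cs4.simple 0) * (cs4.simple 3 * cs4.simple 1) *
          (cs4.simple 3 * cs4.simple 2) * (cs4.simple 1 * cs4.simple 0) := by
          rw [h30]; simp only [mul_assoc]
      _ = (cs4.simple 2 * cs4.simple 0) * cs4.simple 1 * (cs4.simple 3 *
          cs4.simple 3) * cs4.simple 2 * (cs4.simple 1 * cs4.simple 0) := by
          rw [h31]; simp only [mul_assoc]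
      _ = (cs4.simple 0 * cs4.simple 2) * cs4.simple 1 * cs4.simple 2 *
          (cs4.simple 1 * cs4.simple 0) := by
          rw [h33, mul_one, h02]
      _ = _ := by simp only [mul_assoc])

theorem jW_a : jW Orb.a = cs4.simple 2 * cs4.simple 3 := Orb.hom_a _ _ _
theorem jW_b : jW Orb.b = cs4.simple 0 * cs4.simple 1 := Orb.hom_b _ _ _

theorem Φ4_a (x : Orb) : Φ4 (jW Orb.a) (x, false, false) = (x * Orb.a⁻¹, false, false) := by
  rw [jW_a, map_mul, Φ4_simple, Φ4_simple, Equiv.Perm.mul_apply, pf_apply, pf_apply]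
  simp [ff, la]

theorem Φ4_b (x : Orb) : Φ4 (jW Orb.b) (x, false, false) = (x * Orb.b⁻¹, false, false) := by
  rw [jW_b, map_mul, Φ4_simple, Φ4_simple, Equiv.Perm.mul_apply, pf_apply, pf_apply]
  simp [ff, lb]

theorem Φ4_jW (γ : Orb) : ∀ x : Orb, Φ4 (jW γ) (x, false, false) = (x * γ⁻¹, false, false) := by
  refine Orb.ind (p := fun γ => ∀ x : Orb, Φ4 (jW γ) (x, false, false) =
    (x * γ⁻¹, false, false)) ?_ ?_ ?_ ?_ ?_ γ
  · intro x; simp
  · intro γ ih x
    rw [map_mul, map_mul, Equiv.Perm.mul_apply, ih, Φ4_a, mul_inv_rev, mul_assoc]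
  · intro γ ih x
    rw [map_mul, map_mul, Equiv.Perm.mul_apply, ih, map_inv, map_inv, Equiv.Perm.inv_eq_iff_eq,
      Φ4_a]
    simp [mul_assoc]
  · intro γ ih x
    rw [map_mul, map_mul, Equiv.Perm.mul_apply, ih, Φ4_b, mul_inv_rev, mul_assoc]
  · intro γ ih x
    rw [map_mul, map_mul, Equiv.Perm.mul_apply, ih, map_inv, map_inv, Equiv.Perm.inv_eq_iff_eq,
      Φ4_b]
    simp [mul_assoc]

theorem jW_injective : Function.Injective jW := by
  rw [injective_iff_map_eq_one]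
  intro γ h
  have := Φ4_jW γ 1
  rw [h, map_one, Equiv.Perm.one_apply, one_mul] at this
  have h2 := congrArg Prod.fst this
  simp only at h2
  exact inv_eq_one.mp h2.symm

/-- products of at most `n` elements of `S` -/
def WL {G : Type*} [Group G] (S : Set G) (n : ℕ) (g : G) : Prop :=
  ∃ l : List G, l.length ≤ n ∧ (∀ x ∈ l, x ∈ S) ∧ l.prod = g

theorem WL.one {G : Type*} [Group G] (S : Set G) (n : ℕ) : WL S n (1 : G) :=
  ⟨[], by simp, by simp, by simp⟩

theorem WL.mul {G : Type*} [Group G] {S : Set G} {m n : ℕ} {g h : G} (hg : WL S m g)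
    (hh : WL S n h) : WL S (m + n) (g * h) := by
  obtain ⟨l, h1, h2, rfl⟩ := hg
  obtain ⟨l', h1', h2', rfl⟩ := hh
  refine ⟨l ++ l', by rw [List.length_append]; omega, ?_, by simp⟩
  intro x hx
  rcases List.mem_append.mp hx with hx | hx
  · exact h2 x hx
  · exact h2' x hx

theorem WL.of_mem {G : Type*} [Group G] {S : Set G} {g : G} (hg : g ∈ S) : WL S 1 g :=
  ⟨[g], by simp, by simpa using hg, by simp⟩

theorem WL.mono {G : Type*} [Group G] {S : Set G} {m n : ℕ} {g : G} (h : m ≤ n)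
    (hg : WL S m g) : WL S n g := by
  obtain ⟨l, h1, h2, h3⟩ := hg
  exact ⟨l, h1.trans h, h2, h3⟩

theorem WL.inv {G : Type*} [Group G] {S : Set G} (hS : ∀ x ∈ S, x⁻¹ ∈ S) {n : ℕ} {g : G}
    (hg : WL S n g) : WL S n g⁻¹ := by
  obtain ⟨l, h1, h2, rfl⟩ := hg
  refine ⟨(l.map fun x => x⁻¹).reverse, by simpa using h1, ?_, ?_⟩
  · intro x hx
    rw [List.mem_reverse, List.mem_map] at hx
    obtain ⟨y, hy, rfl⟩ := hx
    exact hS y (h2 y hy)
  · rw [List.prod_inv_reverse]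

/-- generators of `Orb` -/
def genO : Set Orb := {Orb.a, Orb.a⁻¹, Orb.b, Orb.b⁻¹}

theorem genO_inv : ∀ x ∈ genO, x⁻¹ ∈ genO := by
  intro x hx
  simp only [genO, Set.mem_insert_iff, Set.mem_singleton_iff] at hx ⊢
  rcases hx with rfl | rfl | rfl | rfl <;> simp

theorem Φ4_length (ω : List (Fin 4)) : ∀ p : Sp, ∃ δ : Orb, WL genO ω.length δ ∧
    (Φ4 (cs4.wordProd ω) p).1 = p.1 * δ := by
  induction ω with
  | nil => intro p; exact ⟨1, WL.one _ _, by simp⟩
  | cons i ω ih =>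
    intro p
    obtain ⟨δ, h1, h2⟩ := ih p
    rw [cs4.wordProd_cons, map_mul, Equiv.Perm.mul_apply, Φ4_simple, pf_apply]
    set q := Φ4 (cs4.wordProd ω) p with hq
    have hb : lb q.2.1 ∈ genO := by
      cases q.2.1 <;> simp [lb, genO]
    have ha : la q.2.2 ∈ genO := by
      cases q.2.2 <;> simp [la, genO]
    fin_cases i
    · exact ⟨δ, h1.mono (by simp), h2⟩
    · refine ⟨δ * lb q.2.1, h1.mul (WL.of_mem hb), ?_⟩
      show q.1 * lb q.2.1 = _
      rw [h2, mul_assoc]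
    · refine ⟨δ * la q.2.2, h1.mul (WL.of_mem ha), ?_⟩
      show q.1 * la q.2.2 = _
      rw [h2, mul_assoc]
    · exact ⟨δ, h1.mono (by simp), h2⟩

theorem WL_of_word {γ : Orb} {ω : List (Fin 4)} (h : cs4.wordProd ω = jW γ) :
    WL genO ω.length γ := by
  obtain ⟨δ, h1, h2⟩ := Φ4_length ω (1, false, false)
  rw [h, Φ4_jW] at h2
  simp only [one_mul] at h2
  have : γ = δ⁻¹ := by rw [← h2, inv_inv]
  rw [this]
  exact h1.inv genO_inv

end Pool.Agent.Y473.MC
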