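import Pool.Agent.Y473.MC.Defs

/-!
# Automorphisms of surface groups preserve the intersection form up to sign
-/

namespace Pool.Agent.Y473.MC

open Matrix

/-- universal property of the surface group -/
def Surf.hom {g : ℕ} {G : Type*} [Group G] (u : Gen g → G)
    (h : (List.ofFn fun i : Fin g => cm (u (i, false)) (u (i, true))).prod = 1) : Surf g →* G :=
  PresentedGroup.toGroup (f := u) (by
    intro r hr
    rw [Set.mem_singleton_iff.mp hr, surfRel, map_list_prod, List.map_ofFn]
    have : (⇑(FreeGroup.lift u) ∘ fun i : Fin g => cm (FreeGroup.of ((i, false) : Gen g))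
          (FreeGroup.of ((i, true) : Gen g))) = fun i => cm (u (i, false)) (u (i, true)) := by
      funext i
      simp [cm]
    rw [this]
    exact h)

@[simp] theorem Surf.hom_gen {g : ℕ} {G : Type*} [Group G] (u : Gen g → G)
    (h : (List.ofFn fun i : Fin g => cm (u (i, false)) (u (i, true))).prod = 1) (x : Gen g) :
    Surf.hom u h (Surf.gen x) = u x := by
  simp [Surf.hom, Surf.gen]

theorem Surf.rel (g : ℕ) : (List.ofFn fun i : Fin g =>
    cm (Surf.gen ((i, false) : Gen g)) (Surf.gen ((i, true) : Gen g))).prod = 1 := by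
  have h : PresentedGroup.mk ({surfRel g} : Set (FreeGroup (Gen g))) (surfRel g) = 1 :=
    PresentedGroup.one_of_mem (Set.mem_singleton _)
  have e : PresentedGroup.mk ({surfRel g} : Set (FreeGroup (Gen g))) (surfRel g) =
      (List.ofFn fun i : Fin g =>
        cm (Surf.gen ((i, false) : Gen g)) (Surf.gen ((i, true) : Gen g))).prod := by
    show PresentedGroup.mk _ (List.prod _) = _
    rw [map_list_prod, List.map_ofFn]
    rfl
  rw [← e]
  exact h

theorem Surf.rel_map {g : ℕ} {G : Type*} [Group G] (f : Surf g →* G) :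
    (List.ofFn fun i : Fin g => cm (f (Surf.gen ((i, false) : Gen g)))
      (f (Surf.gen ((i, true) : Gen g)))).prod = 1 := by
  have h := congrArg f (Surf.rel g)
  rw [map_list_prod, List.map_ofFn, map_one] at h
  rw [← h]
  congr 2
  funext i
  simp [cm]

theorem Surf.hom_ext {g : ℕ} {G : Type*} [Group G] {f f' : Surf g →* G}
    (h : ∀ x, f (Surf.gen x) = f' (Surf.gen x)) : f = f' :=
  PresentedGroup.ext h

theorem Surf.closure_gen (g : ℕ) : Subgroup.closure (Set.range (Surf.gen (g := g))) = ⊤ :=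
  PresentedGroup.closure_range_of _

theorem Surf.cls_gen {g : ℕ} (x : Gen g) : (Surf.cls g (Surf.gen x)).toAdd = Pi.single x 1 := by
  simp [Surf.cls, Surf.gen]

/-- Heisenberg type group attached to a bilinear form -/
@[ext] structure Heis {V : Type*} [AddCommGroup V] (b : V →+ V →+ ℤ) where
  /-- first component -/
  v : V
  /-- central component -/
  z : ℤ

namespace Heis

variable {V : Type*} [AddCommGroup V] {b : V →+ V →+ ℤ}

instance : Group (Heis b) where
  mul x y := ⟨x.v + y.v, x.z + y.z + b x.v y.v⟩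
  one := ⟨0, 0⟩
  inv x := ⟨-x.v, -x.z + b x.v x.v⟩
  mul_assoc x y w := by
    apply Heis.ext
    · exact add_assoc _ _ _
    · show x.z + y.z + b x.v y.v + w.z + b (x.v + y.v) w.v =
        x.z + (y.z + w.z + b y.v w.v) + b x.v (y.v + w.v)
      rw [map_add, AddMonoidHom.add_apply, map_add]; ring
  one_mul x := by
    apply Heis.ext
    · exact zero_add _
    · show 0 + x.z + b 0 x.v = x.z
      rw [map_zero, AddMonoidHom.zero_apply]; ring
  mul_one x := by
    apply Heis.ext
    · exact add_zero _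
    · show x.z + 0 + b x.v 0 = x.z
      rw [map_zero]; ring
  inv_mul_cancel x := by
    apply Heis.ext
    · exact neg_add_cancel _
    · show -x.z + b x.v x.v + x.z + b (-x.v) x.v = 0
      rw [map_neg, AddMonoidHom.neg_apply]; ring

theorem mul_v (x y : Heis b) : (x * y).v = x.v + y.v := rfl
theorem mul_z (x y : Heis b) : (x * y).z = x.z + y.z + b x.v y.v := rfl
theorem inv_v (x : Heis b) : (x⁻¹).v = -x.v := rfl
theorem inv_z (x : Heis b) : (x⁻¹).z = -x.z + b x.v x.v := rfl
theorem one_v : (1 : Heis b).v = 0 := rfl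
theorem one_z : (1 : Heis b).z = 0 := rfl

/-- the center -/
def cen (b : V →+ V →+ ℤ) : Multiplicative ℤ →* Heis b where
  toFun n := ⟨0, n.toAdd⟩
  map_one' := rfl
  map_mul' m n := by
    apply Heis.ext
    · exact (add_zero 0).symm
    · show (m * n).toAdd = m.toAdd + n.toAdd + b 0 0
      rw [map_zero, toAdd_mul]; ring

/-- projection -/
def proj (b : V →+ V →+ ℤ) : Heis b →* Multiplicative V where
  toFun x := Multiplicative.ofAdd x.v
  map_one' := rfl
  map_mul' _ _ := rfl

theorem cm_eq (x y : Heis b) : cm x y = cen b (Multiplicative.ofAdd (b x.v y.v - b y.v x.v)) := by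
  apply Heis.ext
  · show x.v + y.v + -x.v + -y.v = 0
    abel
  · show x.z + y.z + b x.v y.v + (-x.z + b x.v x.v) + b (x.v + y.v) (-x.v)
      + (-y.z + b y.v y.v) + b (x.v + y.v + -x.v) (-y.v) = b x.v y.v - b y.v x.v
    simp only [map_add, map_neg, AddMonoidHom.add_apply, AddMonoidHom.neg_apply]
    ring

theorem prod_cm {g : ℕ} (x y : Fin g → Heis b) : (List.ofFn fun i => cm (x i) (y i)).prod =
    cen b (Multiplicative.ofAdd (∑ i, (b (x i).v (y i).v - b (y i).v (x i).v))) := by
  have h : (fun i => cm (x i) (y i)) = ⇑(cen b) ∘ fun i =>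
      Multiplicative.ofAdd (b (x i).v (y i).v - b (y i).v (x i).v) := by
    funext i; exact cm_eq _ _
  rw [h, ← List.map_ofFn, ← map_list_prod, List.prod_ofFn, ofAdd_sum]

theorem cen_eq_one {n : ℤ} : cen b (Multiplicative.ofAdd n) = 1 ↔ n = 0 := by
  constructor
  · intro h
    have := congrArg Heis.z h
    exact this
  · rintro rfl; rfl

/-- the surface relation in the Heisenberg group -/
theorem sum_eq_zero {g : ℕ} (f : Surf g →* Heis b) :
    ∑ i : Fin g, (b (f (Surf.gen (i, false))).v (f (Surf.gen (i, true))).v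
      - b (f (Surf.gen (i, true))).v (f (Surf.gen (i, false))).v) = 0 := by
  have h := Surf.rel_map f
  rw [prod_cm, cen_eq_one] at h
  exact h

end Heis

/-- matrix of the intersection form -/
def J (g : ℕ) : Matrix (Gen g) (Gen g) ℤ := fun x y => inter (Pi.single x 1) (Pi.single y 1)

/-- matrix of the action on homology -/
def hm {g : ℕ} (φ : MulAut (Surf g)) : Matrix (Gen g) (Gen g) ℤ := fun x y =>
  (Surf.cls g (φ (Surf.gen y))).toAdd x

/-- linear action -/
theorem cls_apply {g : ℕ} (φ : MulAut (Surf g)) (γ : Surf g) :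
    (Surf.cls g (φ γ)).toAdd = (hm φ).mulVec (Surf.cls g γ).toAdd := by
  have h : (Surf.cls g).comp φ.toMonoidHom =
      (AddMonoidHom.toMultiplicative (Matrix.mulVecLin (hm φ)).toAddMonoidHom).comp
        (Surf.cls g) := by
    apply Surf.hom_ext
    intro x
    apply Multiplicative.toAdd.injective
    show (Surf.cls g (φ (Surf.gen x))).toAdd = (hm φ).mulVec (Surf.cls g (Surf.gen x)).toAdd
    rw [Surf.cls_gen, Matrix.mulVec_single_one]
    rfl
  exact congrArg Multiplicative.toAdd (DFunLike.congr_fun h γ)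

/-- the bilinear form used in the proof -/
def bf {g : ℕ} (p q : ℤ) (x0 y0 x1 y1 : Gen g) : (Gen g → ℤ) →+ (Gen g → ℤ) →+ ℤ :=
  AddMonoidHom.mk' (fun v => AddMonoidHom.mk' (fun w => p * (v x0 * w y0) - q * (v x1 * w y1))
    (by intro a b; simp only [Pi.add_apply]; ring))
    (by
      intro a b
      apply AddMonoidHom.ext
      intro w
      show p * ((a + b) x0 * w y0) - q * ((a + b) x1 * w y1) =
        (p * (a x0 * w y0) - q * (a x1 * w y1)) + (p * (b x0 * w y0) - q * (b x1 * w y1))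
      simp only [Pi.add_apply]
      ring)

theorem bf_apply {g : ℕ} (p q : ℤ) (x0 y0 x1 y1 : Gen g) (v w : Gen g → ℤ) :
    bf p q x0 y0 x1 y1 v w = p * (v x0 * w y0) - q * (v x1 * w y1) := rfl

/-- the bivector attached to a family of vectors -/
def biv {g : ℕ} (u : Gen g → (Gen g → ℤ)) (x y : Gen g) : ℤ :=
  ∑ i : Fin g, (u (i, false) x * u (i, true) y - u (i, true) x * u (i, false) y)

theorem biv_single {g : ℕ} (x y : Gen g) :
    biv (fun z => Pi.single z (1 : ℤ)) x y = J g x y := by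
  simp only [biv, J, inter, Pi.single_apply]
  apply Finset.sum_congr rfl
  intro i _
  have h : ∀ a b : Gen g, (if a = b then (1 : ℤ) else 0) = if b = a then 1 else 0 := by
    intro a b; simp only [eq_comm]
  rw [h x, h y, h x, h y]

theorem sum_bf {g : ℕ} (p q : ℤ) (x0 y0 x1 y1 : Gen g) (u : Gen g → (Gen g → ℤ)) :
    ∑ i : Fin g, (bf p q x0 y0 x1 y1 (u (i, false)) (u (i, true))
      - bf p q x0 y0 x1 y1 (u (i, true)) (u (i, false))) =
      p * biv u x0 y0 - q * biv u x1 y1 := by
  simp only [bf_apply, biv, Finset.mul_sum]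
  rw [← Finset.sum_sub_distrib]
  apply Finset.sum_congr rfl
  intro i _
  ring

theorem biv_prop {g : ℕ} (φ : MulAut (Surf g)) (x0 y0 x1 y1 : Gen g) :
    J g x1 y1 * biv (fun y => fun x => hm φ x y) x0 y0 =
      J g x0 y0 * biv (fun y => fun x => hm φ x y) x1 y1 := by
  set b := bf (J g x1 y1) (J g x0 y0) x0 y0 x1 y1 with hb
  let f : Surf g →* Heis b := Surf.hom (fun x => ⟨Pi.single x 1, 0⟩) (by
    rw [Heis.prod_cm, Heis.cen_eq_one]
    have := sum_bf (J g x1 y1) (J g x0 y0) x0 y0 x1 y1 (fun z => Pi.single z (1 : ℤ))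
    rw [biv_single, biv_single, mul_comm, sub_self] at this
    exact this)
  have hf : ∀ γ, (f γ).v = (Surf.cls g γ).toAdd := by
    intro γ
    have h : (Heis.proj b).comp f = Surf.cls g := by
      apply Surf.hom_ext
      intro x
      rw [MonoidHom.comp_apply, Surf.hom_gen]
      apply Multiplicative.toAdd.injective
      rw [Surf.cls_gen]
      rfl
    exact congrArg Multiplicative.toAdd (DFunLike.congr_fun h γ)
  have h1 := Heis.sum_eq_zero (f.comp φ.toMonoidHom)
  have h2 : ∀ x, ((f.comp φ.toMonoidHom) (Surf.gen x)).v = fun y => hm φ y x := by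
    intro x
    show (f (φ (Surf.gen x))).v = _
    rw [hf]
    rfl
  simp only [h2] at h1
  have h3 := sum_bf (J g x1 y1) (J g x0 y0) x0 y0 x1 y1 (fun y => fun x => hm φ x y)
  have h4 := h3.symm.trans h1
  linarith

theorem J_apply_ft {g : ℕ} (i j : Fin g) : J g (i, false) (j, true) = if i = j then 1 else 0 := by
  by_cases h : i = j
  · subst h; simp [J, inter, Pi.single_apply, Prod.ext_iff]
  · simp [J, inter, Pi.single_apply, Prod.ext_iff, h, Ne.symm h]

theorem J_apply_tf {g : ℕ} (i j : Fin g) :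
    J g (i, true) (j, false) = -(if i = j then 1 else 0) := by
  by_cases h : i = j
  · subst h; simp [J, inter, Pi.single_apply, Prod.ext_iff]
  · simp [J, inter, Pi.single_apply, Prod.ext_iff, h, Ne.symm h]

theorem J_apply_ff {g : ℕ} (i j : Fin g) : J g (i, false) (j, false) = 0 := by
  simp [J, inter, Pi.single_apply, Prod.ext_iff]

theorem J_apply_tt {g : ℕ} (i j : Fin g) : J g (i, true) (j, true) = 0 := by
  simp [J, inter, Pi.single_apply, Prod.ext_iff]

theorem J_sq (g : ℕ) : J g * J g = -1 := by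
  ext ⟨i, a⟩ ⟨j, b⟩
  rw [Matrix.mul_apply, Fintype.sum_prod_type]
  cases a <;> cases b <;>
    simp [J_apply_ft, J_apply_tf, J_apply_ff, J_apply_tt, Matrix.neg_apply, Matrix.one_apply,
      Finset.sum_ite_eq]

theorem biv_eq {g : ℕ} (φ : MulAut (Surf g)) (x y : Gen g) :
    biv (fun y => fun x => hm φ x y) x y = (hm φ * J g * (hm φ)ᵀ) x y := by
  rw [Matrix.mul_apply]
  simp only [Matrix.mul_apply, Fintype.sum_prod_type, Fintype.sum_bool, Matrix.transpose_apply,
    J_apply_ft, J_apply_tf, J_apply_ff, J_apply_tt, biv]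
  simp only [mul_ite, mul_one, mul_zero, mul_neg, zero_add, add_zero, Finset.sum_ite_eq',
    Finset.sum_neg_distrib, Finset.mem_univ, if_true]
  apply Finset.sum_congr rfl
  intro i _
  ring

theorem exists_k {g : ℕ} (hg : 0 < g) (φ : MulAut (Surf g)) :
    ∃ k : ℤ, hm φ * J g * (hm φ)ᵀ = k • J g := by
  set x1 : Gen g := (⟨0, hg⟩, false) with hx1
  set y1 : Gen g := (⟨0, hg⟩, true) with hy1
  have h1 : J g x1 y1 = 1 := by rw [hx1, hy1, J_apply_ft]; simp
  refine ⟨biv (fun y => fun x => hm φ x y) x1 y1, ?_⟩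
  ext x0 y0
  have h := biv_prop φ x0 y0 x1 y1
  rw [h1, one_mul, biv_eq] at h
  rw [h, Matrix.smul_apply, smul_eq_mul, mul_comm]

theorem hm_mul {g : ℕ} (φ ψ : MulAut (Surf g)) : hm (φ * ψ) = hm φ * hm ψ := by
  ext x y
  have h := congrFun (cls_apply φ (ψ (Surf.gen y))) x
  show (Surf.cls g (φ (ψ (Surf.gen y)))).toAdd x = _
  rw [h, Matrix.mul_apply]
  rfl

theorem hm_one {g : ℕ} : hm (1 : MulAut (Surf g)) = 1 := by
  ext x y
  show (Surf.cls g (Surf.gen y)).toAdd x = _
  rw [Surf.cls_gen, Matrix.one_apply, Pi.single_apply]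

/-- the sign of an automorphism -/
theorem exists_sign {g : ℕ} (hg : 0 < g) (φ : MulAut (Surf g)) :
    ∃ ε : ℤ, (ε = 1 ∨ ε = -1) ∧ ∀ x y : Surf g,
      inter (Surf.cls g (φ x)).toAdd (Surf.cls g (φ y)).toAdd =
        ε * inter (Surf.cls g x).toAdd (Surf.cls g y).toAdd := by
  obtain ⟨k, hk⟩ := exists_k hg φ
  obtain ⟨k', hk'⟩ := exists_k hg φ⁻¹
  have hkk : k' * k = 1 := by
    have h1 : hm (φ⁻¹ * φ) * J g * (hm (φ⁻¹ * φ))ᵀ = (k' * k) • J g := by
      rw [hm_mul, Matrix.transpose_mul]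
      have : hm φ⁻¹ * hm φ * J g * ((hm φ)ᵀ * (hm φ⁻¹)ᵀ) =
          hm φ⁻¹ * (hm φ * J g * (hm φ)ᵀ) * (hm φ⁻¹)ᵀ := by
        simp only [Matrix.mul_assoc]
      rw [this, hk, Matrix.mul_smul, Matrix.smul_mul, hk', smul_smul, mul_comm]
    rw [inv_mul_cancel, hm_one, Matrix.transpose_one, Matrix.one_mul, Matrix.mul_one] at h1
    have h2 := congrFun (congrFun h1 (⟨0, hg⟩, false)) (⟨0, hg⟩, true)
    rw [Matrix.smul_apply, J_apply_ft] at h2
    simpa using h2.symm
  have hk1 : k = 1 ∨ k = -1 := by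
    have := Int.isUnit_iff.mp (IsUnit.of_mul_eq_one_right _ hkk)
    exact this
  have hk2 : k * k = 1 := by rcases hk1 with h | h <;> rw [h] <;> norm_num
  refine ⟨k, hk1, ?_⟩
  have hJ := J_sq g
  have hT : (hm φ)ᵀ * J g * hm φ = k • J g := by
    have h1 : hm φ * (-k • (J g * (hm φ)ᵀ * J g)) = 1 := by
      rw [Matrix.mul_smul]
      have : hm φ * (J g * (hm φ)ᵀ * J g) = (hm φ * J g * (hm φ)ᵀ) * J g := by
        simp only [Matrix.mul_assoc]
      rw [this, hk, Matrix.smul_mul, hJ, smul_smul]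
      have : -k * k = -1 := by linarith
      rw [this]
      simp
    have h2 := mul_eq_one_comm.mp h1
    have h3 : J g * (-k • (J g * (hm φ)ᵀ * J g) * hm φ) = J g := by rw [h2, Matrix.mul_one]
    have h4 : J g * (-k • (J g * (hm φ)ᵀ * J g) * hm φ) =
        k • ((hm φ)ᵀ * J g * hm φ) := by
      rw [Matrix.smul_mul, Matrix.mul_smul]
      have : J g * (J g * (hm φ)ᵀ * J g * hm φ) = (J g * J g) * ((hm φ)ᵀ * J g * hm φ) := by
        simp only [Matrix.mul_assoc]
      rw [this, hJ]
      simp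
    rw [h4] at h3
    have h5 : k • (k • ((hm φ)ᵀ * J g * hm φ)) = k • J g := by rw [h3]
    rw [smul_smul, hk2, one_smul] at h5
    exact h5
  have hI : ∀ v w : Gen g → ℤ, inter v w = v ⬝ᵥ (J g).mulVec w := by
    intro v w
    simp only [inter, dotProduct, Matrix.mulVec, Fintype.sum_prod_type, Fintype.sum_bool,
      J_apply_ft, J_apply_tf, J_apply_ff, J_apply_tt]
    apply Finset.sum_congr rfl
    intro i _
    simp
    ring
  intro x y
  rw [hI, hI, cls_apply, cls_apply]
  set v := (Surf.cls g x).toAdd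
  set w := (Surf.cls g y).toAdd
  have h5 : (J g).mulVec ((hm φ).mulVec w) = (J g * hm φ).mulVec w := by
    rw [Matrix.mulVec_mulVec]
  have h7 : ∀ u : Gen g → ℤ, (hm φ).mulVec v ⬝ᵥ u = v ⬝ᵥ ((hm φ)ᵀ).mulVec u := by
    intro u
    rw [Matrix.dotProduct_mulVec v, Matrix.vecMul_transpose]
  have h6 : (hm φ).mulVec v ⬝ᵥ (J g * hm φ).mulVec w = v ⬝ᵥ ((hm φ)ᵀ * (J g * hm φ)).mulVec w := by
    rw [h7, Matrix.mulVec_mulVec]
  rw [h5, h6, ← Matrix.mul_assoc, hT, Matrix.smul_mulVec, dotProduct_smul, smul_eq_mul]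

end Pool.Agent.Y473.MC
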