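import Pool.Agent.Y473.MC.Auto

/-!
# Twisting along an almost parabolic elliptic curve
-/

namespace Pool.Agent.Y473.MC

open Matrix Topology Filter Metric

/-- a perturbed open mapping lemma -/
theorem perturb_open {θ Λ : ℂ → ℂ} {z1 : ℂ} (hθ : AnalyticAt ℂ θ z1) (hΛ : AnalyticAt ℂ Λ z1)
    (h1 : θ z1 = 0) (h2 : Λ z1 = 0) (hnc : ¬ ∀ᶠ z in 𝓝 z1, θ z = 0) {V : Set ℂ} (hV : V ∈ 𝓝 z1)
    {e c : ℕ → ℂ} (he : Tendsto e atTop (𝓝 0)) (hc : Tendsto c atTop (𝓝 0)) :
    ∀ᶠ n in atTop, ∃ z ∈ V, θ z + e n * Λ z = c n := by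
  have k1 : ∀ᶠ z in 𝓝[≠] z1, θ z ≠ 0 := by
    rcases hθ.eventually_eq_zero_or_eventually_ne_zero with h | h
    · exact absurd h hnc
    · exact h
  have k2 : ∀ᶠ z in 𝓝 z1, AnalyticAt ℂ θ z := (isOpen_analyticAt ℂ θ).eventually_mem hθ
  have k3 : ∀ᶠ z in 𝓝 z1, AnalyticAt ℂ Λ z := (isOpen_analyticAt ℂ Λ).eventually_mem hΛ
  have k4 : ∀ᶠ z in 𝓝 z1, z ∈ V ∧ AnalyticAt ℂ θ z ∧ AnalyticAt ℂ Λ z ∧ (z ≠ z1 → θ z ≠ 0) :=
    (Filter.Eventually.and hV (k2.and (k3.and (eventually_nhdsWithin_iff.mp k1))))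
  obtain ⟨r, hr, hball⟩ := nhds_basis_closedBall.mem_iff.mp k4
  have hVr : closedBall z1 r ⊆ V := fun z hz => (hball hz).1
  have hθr : AnalyticOnNhd ℂ θ (closedBall z1 r) := fun z hz => (hball hz).2.1
  have hΛr : AnalyticOnNhd ℂ Λ (closedBall z1 r) := fun z hz => (hball hz).2.2.1
  have hne : ∀ z ∈ sphere z1 r, θ z ≠ 0 := fun z hz =>
    (hball (sphere_subset_closedBall hz)).2.2.2 (ne_of_mem_sphere hz hr.ne')
  obtain ⟨x, hx, hfx⟩ := (isCompact_sphere z1 r).exists_isMinOn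
    (NormedSpace.sphere_nonempty.mpr hr.le)
    (continuous_norm.comp_continuousOn (hθr.continuousOn.mono sphere_subset_closedBall))
  set m := ‖θ x‖ with hm
  have hm0 : 0 < m := norm_pos_iff.mpr (hne x hx)
  have hmin : ∀ z ∈ sphere z1 r, m ≤ ‖θ z‖ := fun z hz => hfx hz
  obtain ⟨M, hM⟩ := (isCompact_closedBall z1 r).exists_bound_of_continuousOn hΛr.continuousOn
  have hM0 : 0 ≤ M := (norm_nonneg _).trans (hM z1 (mem_closedBall_self hr.le))
  have e1 : ∀ᶠ n in atTop, ‖e n‖ < m / (2 * (M + 1)) := by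
    have := he.norm
    rw [norm_zero] at this
    exact this.eventually (gt_mem_nhds (by positivity))
  have e2 : ∀ᶠ n in atTop, ‖c n‖ < m / 2 / 2 := by
    have := hc.norm
    rw [norm_zero] at this
    exact this.eventually (gt_mem_nhds (by positivity))
  filter_upwards [e1, e2] with n hn1 hn2
  have hF : AnalyticOnNhd ℂ (fun z => θ z + e n * Λ z) (closedBall z1 r) := fun z hz =>
    (hθr z hz).add (analyticAt_const.mul (hΛr z hz))
  have hF1 : θ z1 + e n * Λ z1 = 0 := by rw [h1, h2]; simp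
  have hsph : ∀ z ∈ sphere z1 r, m / 2 ≤ ‖(θ z + e n * Λ z) - (θ z1 + e n * Λ z1)‖ := by
    intro z hz
    rw [hF1, sub_zero]
    have a1 := hmin z hz
    have a2 : ‖e n * Λ z‖ ≤ m / 2 := by
      rw [norm_mul]
      have b1 := hM z (sphere_subset_closedBall hz)
      calc ‖e n‖ * ‖Λ z‖ ≤ m / (2 * (M + 1)) * (M + 1) :=
            mul_le_mul hn1.le (by linarith) (norm_nonneg _) (by positivity)
        _ = m / 2 := by field_simp
    have a3 : ‖θ z‖ ≤ ‖θ z + e n * Λ z‖ + ‖e n * Λ z‖ := by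
      have := norm_sub_le (θ z + e n * Λ z) (e n * Λ z)
      rwa [add_sub_cancel_right] at this
    linarith
  have hfreq : ∃ᶠ z in 𝓝 z1, θ z + e n * Λ z ≠ θ z1 + e n * Λ z1 := by
    rw [hF1]
    intro hcon
    simp only [not_not] at hcon
    have := hF.eqOn_zero_of_preconnected_of_eventuallyEq_zero
      (convex_closedBall z1 r).isPreconnected (mem_closedBall_self hr.le) hcon
    have hx2 := hsph x hx
    rw [hF1, sub_zero] at hx2
    have h3 : θ x + e n * Λ x = 0 := this (sphere_subset_closedBall hx)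
    rw [h3, norm_zero] at hx2
    linarith
  have hdc : DiffContOnCl ℂ (fun z => θ z + e n * Λ z) (ball z1 r) :=
    ⟨hF.differentiableOn.mono ball_subset_closedBall, by
      rw [closure_ball z1 hr.ne']; exact hF.continuousOn⟩
  have hsub := hdc.ball_subset_image_closedBall hr hsph hfreq
  have hmem : c n ∈ ball (θ z1 + e n * Λ z1) (m / 2 / 2) := by
    rw [hF1, mem_ball_zero_iff]; exact hn2
  obtain ⟨z, hz, hz'⟩ := hsub hmem
  exact ⟨z, hVr hz, hz'⟩

theorem PD_iter (n : ℕ) (x y z u : ℂ) (hu : u ≠ 0) (hx : u + u⁻¹ = x) (hd : u - u⁻¹ ≠ 0) :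
    (PD^[n] (x, y, z)).1 = x ∧
    (PD^[n] (x, y, z)).2.1 = (z - u⁻¹ * y) / (u - u⁻¹) * u ^ n +
      (u * y - z) / (u - u⁻¹) * (u⁻¹) ^ n ∧
    (PD^[n] (x, y, z)).2.2 = (z - u⁻¹ * y) / (u - u⁻¹) * u ^ (n + 1) +
      (u * y - z) / (u - u⁻¹) * (u⁻¹) ^ (n + 1) := by
  induction n with
  | zero =>
    refine ⟨rfl, ?_, ?_⟩
    · simp only [Function.iterate_zero, id, pow_zero, mul_one]
      rw [← add_div, eq_div_iff hd]; ring
    · simp only [Function.iterate_zero, id, zero_add, pow_one]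
      rw [div_mul_eq_mul_div, div_mul_eq_mul_div, ← add_div, eq_div_iff hd]
      have : u * u⁻¹ = 1 := mul_inv_cancel₀ hu
      linear_combination (0 : ℂ) * this
  | succ n ih =>
    obtain ⟨h1, h2, h3⟩ := ih
    rw [Function.iterate_succ_apply']
    refine ⟨?_, ?_, ?_⟩
    · simp only [PD]; exact h1
    · simp only [PD]; exact h3
    · simp only [PD]
      rw [h1, h2, h3, ← hx]
      have : u * u⁻¹ = 1 := mul_inv_cancel₀ hu
      have hpow : u ^ (n + 1) * u⁻¹ = u ^ n := by rw [pow_succ]; linear_combination (u ^ n) * this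
      have hpow2 : (u⁻¹) ^ (n + 1) * u = (u⁻¹) ^ n := by
        rw [pow_succ]; linear_combination ((u⁻¹) ^ n) * this
      have hp3 : u ^ (n + 1 + 1) = u ^ (n + 1) * u := pow_succ _ _
      have hp4 : (u⁻¹) ^ (n + 1 + 1) = (u⁻¹) ^ (n + 1) * u⁻¹ := pow_succ _ _
      rw [hp3, hp4]
      linear_combination ((z - u⁻¹ * y) / (u - u⁻¹)) * hpow + ((u * y - z) / (u - u⁻¹)) * hpow2

/-- the twisting stage -/
theorem stage {X Y Z : ℂ → ℂ} {U : Set ℂ} (hU : IsOpen U) (hUc : IsPreconnected U)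
    (hX : DifferentiableOn ℂ X U) (hY : DifferentiableOn ℂ Y U) (hZ : DifferentiableOn ℂ Z U)
    (hI : ∀ z ∈ U, mk3 (X z, Y z, Z z) = 1) {z0 : ℂ} (h0 : z0 ∈ U) (hX0 : X z0 = 2)
    (hne : ∃ z1 ∈ U, X z1 ≠ 2) {δ : ℝ} (hδ : 0 < δ) :
    ∃ z' ∈ U, dist z' z0 < δ ∧ ∃ n : ℕ, (PD^[n] (X z', Y z', Z z')).2.1 = 2 ∧
      ‖X z' - 2‖ < δ := by
  have aX : AnalyticOnNhd ℂ X U := hX.analyticOnNhd hU
  have aY : AnalyticOnNhd ℂ Y U := hY.analyticOnNhd hU
  have aZ : AnalyticOnNhd ℂ Z U := hZ.analyticOnNhd hU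
  -- an elliptic point nearby
  obtain ⟨z1, hz1U, hz1d, x1, hx1, hx1a, hx1b, hx1c⟩ : ∃ z1 ∈ U, dist z1 z0 < δ ∧ ∃ x1 : ℝ,
      X z1 = x1 ∧ 1 < x1 ∧ x1 < 2 ∧ ‖(x1 : ℂ) - 2‖ < δ := by
    have hopen : 𝓝 (X z0) ≤ map X (𝓝 z0) := by
      rcases (aX z0 h0).eventually_constant_or_nhds_le_map_nhds with h | h
      · exfalso
        obtain ⟨z1, hz1, hz1'⟩ := hne
        have := aX.eqOn_of_preconnected_of_eventuallyEq (analyticOnNhd_const (v := X z0)) hUc h0 h
        exact hz1' (by rw [this hz1, hX0])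
      · exact h
    have hV : U ∩ ball z0 δ ∈ 𝓝 z0 := inter_mem (hU.mem_nhds h0) (ball_mem_nhds _ hδ)
    have hXV : X '' (U ∩ ball z0 δ) ∈ 𝓝 (X z0) := hopen (image_mem_map hV)
    rw [hX0] at hXV
    obtain ⟨ε, hε, hεs⟩ := Metric.mem_nhds_iff.mp hXV
    set η : ℝ := min (min (ε / 2) (δ / 2)) (1 / 2) with hη
    have hη0 : 0 < η := by rw [hη]; positivity
    have hη1 : η ≤ ε / 2 := (min_le_left _ _).trans (min_le_left _ _)
    have hη2 : η ≤ δ / 2 := (min_le_left _ _).trans (min_le_right _ _)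
    have hη3 : η ≤ 1 / 2 := min_le_right _ _
    have hnorm : ‖((2 - η : ℝ) : ℂ) - 2‖ = η := by
      have : ((2 - η : ℝ) : ℂ) - 2 = ((-η : ℝ) : ℂ) := by push_cast; ring
      rw [this, Complex.norm_real, Real.norm_eq_abs, abs_neg, abs_of_pos hη0]
    have hmem : ((2 - η : ℝ) : ℂ) ∈ ball (2 : ℂ) ε := by
      rw [mem_ball, dist_eq_norm, hnorm]; linarith
    obtain ⟨z1, hz1, hz1'⟩ := hεs hmem
    exact ⟨z1, hz1.1, mem_ball.mp hz1.2, 2 - η, hz1', by linarith, by linarith, by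
      rw [hnorm]; linarith⟩
  -- analytic square roots
  have hx14 : 0 < 4 - x1 ^ 2 := by nlinarith
  set s : ℂ → ℂ := fun z => (4 - X z ^ 2) ^ (1 / 2 : ℂ) with hs
  set κ : ℂ → ℂ := fun z => (3 / (4 - X z ^ 2)) ^ (1 / 2 : ℂ) with hκ
  have hsq : ∀ w : ℂ, w ≠ 0 → (w ^ (1 / 2 : ℂ)) ^ 2 = w := by
    intro w hw
    rw [← Complex.cpow_nat_mul]
    norm_num
  have e4 : (4 : ℂ) - X z1 ^ 2 = ((4 - x1 ^ 2 : ℝ) : ℂ) := by rw [hx1]; push_cast; ring
  have sp1 : (4 : ℂ) - X z1 ^ 2 ∈ Complex.slitPlane := by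
    rw [e4]; exact Complex.ofReal_mem_slitPlane.mpr hx14
  have sp2 : (3 : ℂ) / (4 - X z1 ^ 2) ∈ Complex.slitPlane := by
    have : (3 : ℂ) / (4 - X z1 ^ 2) = ((3 / (4 - x1 ^ 2) : ℝ) : ℂ) := by rw [e4]; push_cast; ring
    rw [this]; exact Complex.ofReal_mem_slitPlane.mpr (by positivity)
  have aX1 := aX z1 hz1U
  have aY1 := aY z1 hz1U
  have aZ1 := aZ z1 hz1U
  have a4 : AnalyticAt ℂ (fun z => (4 : ℂ) - X z ^ 2) z1 := analyticAt_const.sub (aX1.pow 2)
  have as : AnalyticAt ℂ s z1 := a4.cpow analyticAt_const sp1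
  have n4 : (4 : ℂ) - X z1 ^ 2 ≠ 0 := Complex.slitPlane_ne_zero sp1
  have aκ : AnalyticAt ℂ κ z1 := (analyticAt_const.div a4 n4).cpow analyticAt_const sp2
  set u : ℂ → ℂ := fun z => (X z + Complex.I * s z) / 2 with hu
  set v : ℂ → ℂ := fun z => (X z - Complex.I * s z) / 2 with hv
  have au : AnalyticAt ℂ u z1 := (aX1.add (analyticAt_const.mul as)).div_const
  have av : AnalyticAt ℂ v z1 := (aX1.sub (analyticAt_const.mul as)).div_const
  have huv : ∀ z, (4 : ℂ) - X z ^ 2 ≠ 0 → u z * v z = 1 := by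
    intro z hz
    have h := hsq _ hz
    have hI2 : Complex.I * Complex.I = -1 := Complex.I_mul_I
    simp only [hu, hv, hs]
    linear_combination (1 / 4 : ℂ) * h - (1 / 4) * ((4 - X z ^ 2) ^ (1 / 2 : ℂ)) ^ 2 * hI2
  -- α, E
  set α : ℂ → ℂ := fun z => (Z z - v z * Y z) / (u z - v z) with hα
  set β : ℂ → ℂ := fun z => (u z * Y z - Z z) / (u z - v z) with hβ
  have hud : ∀ z, u z - v z = Complex.I * s z := by intro z; simp only [hu, hv]; ring
  have hs0 : ∀ z, (4 : ℂ) - X z ^ 2 ≠ 0 → s z ≠ 0 := by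
    intro z hz h
    have := hsq _ hz
    rw [show (4 - X z ^ 2) ^ (1 / 2 : ℂ) = 0 from h] at this
    exact hz (by rw [← this]; ring)
  have hud0 : ∀ z, (4 : ℂ) - X z ^ 2 ≠ 0 → u z - v z ≠ 0 := by
    intro z hz
    rw [hud]
    exact mul_ne_zero Complex.I_ne_zero (hs0 z hz)
  have hαβ : ∀ z ∈ U, (4 : ℂ) - X z ^ 2 ≠ 0 → α z * β z * (4 - X z ^ 2) = 1 - X z ^ 2 := by
    intro z hz h4
    have h := hI z hz
    simp only [mk3] at h
    have k1 := huv z h4
    have k2 : (u z - v z) ^ 2 = -(4 - X z ^ 2) := by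
      rw [hud, mul_pow, Complex.I_sq]
      have := hsq _ h4
      rw [show s z = (4 - X z ^ 2) ^ (1 / 2 : ℂ) from rfl, this]; ring
    have k3 : u z + v z = X z := by simp only [hu, hv]; ring
    have k4 : α z * β z * (u z - v z) ^ 2 = (Z z - v z * Y z) * (u z * Y z - Z z) := by
      simp only [hα, hβ]
      have := hud0 z h4
      field_simp
    rw [k2] at k4
    linear_combination -k4 + (Y z) ^ 2 * k1 - (Y z * Z z) * k3 + h
  have hα1 : α z1 ≠ 0 := by
    intro h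
    have := hαβ z1 hz1U n4
    rw [h, hx1] at this
    simp only [zero_mul] at this
    have h2 : (1 - x1 ^ 2 : ℝ) = 0 := by exact_mod_cast this.symm
    nlinarith
  have aα : AnalyticAt ℂ α z1 := (aZ1.sub (av.mul aY1)).div (au.sub av) (hud0 z1 n4)
  set E : ℂ → ℂ := fun z => (1 + κ z) / α z with hE
  have aE : AnalyticAt ℂ E z1 := (analyticAt_const.add aκ).div aα hα1
  have hquad : ∀ z ∈ U, (4 : ℂ) - X z ^ 2 ≠ 0 → α z ≠ 0 →
      α z * E z ^ 2 - 2 * E z + β z = 0 := by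
    intro z hz h4 hα0
    have h := hαβ z hz h4
    have k1 : κ z ^ 2 * (4 - X z ^ 2) = 3 := by
      simp only [hκ]
      rw [hsq _ (div_ne_zero (by norm_num) h4), div_mul_cancel₀ _ h4]
    have k2 : α z * (α z * E z ^ 2 - 2 * E z + β z) = 0 := by
      have e1 : α z * E z = 1 + κ z := by simp only [hE]; field_simp
      have e2 : α z * (α z * E z ^ 2 - 2 * E z + β z)
          = (α z * E z) ^ 2 - 2 * (α z * E z) + α z * β z := by ring
      rw [e2, e1]
      have e3 : ((1 + κ z) ^ 2 - 2 * (1 + κ z) + α z * β z) * (4 - X z ^ 2) = 0 := by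
        linear_combination h + k1
      exact (mul_eq_zero.mp e3).resolve_right h4
    exact (mul_eq_zero.mp k2).resolve_left hα0
  have hE1 : E z1 ≠ 0 := by
    intro h
    have h1 := hquad z1 hz1U n4 hα1
    rw [h] at h1
    have h2 : β z1 = 0 := by linear_combination h1
    have := hαβ z1 hz1U n4
    rw [h2, hx1] at this
    simp only [mul_zero, zero_mul] at this
    have h2 : (1 - x1 ^ 2 : ℝ) = 0 := by exact_mod_cast this.symm
    nlinarith
  have hu1 : u z1 ≠ 0 := left_ne_zero_of_mul_eq_one (huv z1 n4)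
  -- logarithms
  set θ : ℂ → ℂ := fun z => Complex.log (u z / u z1) with hθ
  set Λ : ℂ → ℂ := fun z => Complex.log (E z / E z1) with hΛ
  have aθ : AnalyticAt ℂ θ z1 := (au.div_const).clog (by rw [div_self hu1]; simp)
  have aΛ : AnalyticAt ℂ Λ z1 := (aE.div_const).clog (by rw [div_self hE1]; simp)
  have hθ1 : θ z1 = 0 := by simp [hθ]
  have hΛ1 : Λ z1 = 0 := by simp [hΛ]
  -- good neighbourhood
  have hVn : ∀ᶠ z in 𝓝 z1, z ∈ U ∧ dist z z0 < δ ∧ ‖X z - 2‖ < δ ∧ (4 : ℂ) - X z ^ 2 ≠ 0 ∧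
      α z ≠ 0 ∧ E z ≠ 0 := by
    refine Filter.Eventually.and (hU.mem_nhds hz1U) (Filter.Eventually.and ?_
      (Filter.Eventually.and ?_ (Filter.Eventually.and ?_ (Filter.Eventually.and ?_ ?_))))
    · exact (continuous_id.dist continuous_const).continuousAt.eventually_lt
        continuousAt_const hz1d
    · have hcX : ContinuousAt (fun z => ‖X z - 2‖) z1 :=
        (aX1.continuousAt.sub continuousAt_const).norm
      exact hcX.eventually_lt continuousAt_const (by rw [hx1]; exact hx1c)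
    · exact a4.continuousAt.eventually_ne n4
    · exact aα.continuousAt.eventually_ne hα1
    · exact aE.continuousAt.eventually_ne hE1
  have hnc : ¬ ∀ᶠ z in 𝓝 z1, θ z = 0 := by
    intro hcon
    have h1 : ∀ᶠ z in 𝓝 z1, X z = X z1 := by
      filter_upwards [hcon, hVn] with z hz hz2
      obtain ⟨-, -, -, h4, -, -⟩ := hz2
      have hu0 : u z ≠ 0 := left_ne_zero_of_mul_eq_one (huv z h4)
      have h2 : u z / u z1 = 1 := by
        have := Complex.exp_log (div_ne_zero hu0 hu1)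
        rw [show Complex.log (u z / u z1) = 0 from hz, Complex.exp_zero] at this
        exact this.symm
      have h3 : u z = u z1 := by rwa [div_eq_one_iff_eq hu1] at h2
      have h5 : v z = v z1 := by
        have k1 := huv z h4
        have k2 := huv z1 n4
        rw [h3] at k1
        exact mul_left_cancel₀ hu1 (k1.trans k2.symm)
      have k3 : u z + v z = X z := by simp only [hu, hv]; ring
      have k4 : u z1 + v z1 = X z1 := by simp only [hu, hv]; ring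
      rw [← k3, ← k4, h3, h5]
    have := aX.eqOn_of_preconnected_of_eventuallyEq (analyticOnNhd_const (v := X z1)) hUc hz1U h1
    have h2 := this h0
    simp only [hX0, hx1] at h2
    have h3 : (2 : ℝ) = x1 := by exact_mod_cast h2
    linarith
  -- constants
  have hu1n : ‖u z1‖ = 1 := by
    have hs1 : s z1 = ((√(4 - x1 ^ 2) : ℝ) : ℂ) := by
      simp only [hs]
      rw [e4, Real.sqrt_eq_rpow, Complex.ofReal_cpow hx14.le]
      norm_num
    have h1 : u z1 = ((x1 / 2 : ℝ) : ℂ) + ((√(4 - x1 ^ 2) / 2 : ℝ) : ℂ) * Complex.I := by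
      simp only [hu]; rw [hs1, hx1]; push_cast; ring
    have h2 : ‖u z1‖ ^ 2 = 1 := by
      rw [h1, ← Complex.normSq_eq_norm_sq, Complex.normSq_add_mul_I, div_pow, div_pow,
        Real.sq_sqrt hx14.le]
      ring
    have h3 : 0 ≤ ‖u z1‖ := norm_nonneg _
    nlinarith
  set e : ℕ → ℂ := fun n => -(n : ℂ)⁻¹ with he
  set c : ℕ → ℂ := fun n => Complex.log (E z1 / u z1 ^ n) * (n : ℂ)⁻¹ with hc
  have hn0 : Tendsto (fun n : ℕ => (n : ℂ)⁻¹) atTop (𝓝 0) := by
    rw [tendsto_zero_iff_norm_tendsto_zero]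
    simp only [norm_inv, Complex.norm_natCast]
    exact tendsto_inv_atTop_zero.comp tendsto_natCast_atTop_atTop
  have he0 : Tendsto e atTop (𝓝 0) := by
    have := hn0.neg
    rwa [neg_zero] at this
  have hc0 : Tendsto c atTop (𝓝 0) := by
    refine Filter.Tendsto.zero_mul_isBoundedUnder_le (f := fun n : ℕ => (n : ℂ)⁻¹)
      (g := fun n => Complex.log (E z1 / u z1 ^ n)) hn0 ?_ |>.congr ?_
    · refine isBoundedUnder_of ⟨|Real.log ‖E z1‖| + Real.pi, fun n => ?_⟩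
      show ‖Complex.log (E z1 / u z1 ^ n)‖ ≤ _
      refine (Complex.norm_le_abs_re_add_abs_im _).trans ?_
      rw [Complex.log_re, norm_div, norm_pow, hu1n, one_pow, div_one]
      refine add_le_add le_rfl ?_
      rw [Complex.log_im]
      exact Complex.abs_arg_le_pi _
    · intro n; simp only [hc]; ring
  obtain ⟨n, hn, hn1⟩ := ((perturb_open aθ aΛ hθ1 hΛ1 hnc hVn he0 hc0).and
    (eventually_ge_atTop 1)).exists
  obtain ⟨z, hz, hzeq⟩ := hn
  obtain ⟨hzU, hzd, hzX, hz4, hzα, hzE⟩ := hz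
  refine ⟨z, hzU, hzd, n, ?_, hzX⟩
  have hnC : (n : ℂ) ≠ 0 := by exact_mod_cast (by omega : n ≠ 0)
  have hu0 : u z ≠ 0 := left_ne_zero_of_mul_eq_one (huv z hz4)
  have hkey : (n : ℂ) * θ z = Λ z + Complex.log (E z1 / u z1 ^ n) := by
    simp only [he, hc] at hzeq
    field_simp at hzeq
    linear_combination hzeq
  have hun : u z ^ n = E z := by
    have h1 : Complex.exp ((n : ℂ) * θ z) = (u z / u z1) ^ n := by
      rw [Complex.exp_nat_mul, Complex.exp_log (div_ne_zero hu0 hu1)]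
    rw [hkey, Complex.exp_add, Complex.exp_log (div_ne_zero hzE hE1),
      Complex.exp_log (div_ne_zero hE1 (pow_ne_zero _ hu1))] at h1
    have h2 : (u z / u z1) ^ n = u z ^ n / u z1 ^ n := div_pow (u z) (u z1) n
    rw [h2, div_mul_div_cancel₀ hE1, div_left_inj' (pow_ne_zero n hu1)] at h1
    exact h1.symm
  have hvinv : (u z)⁻¹ = v z := inv_eq_of_mul_eq_one_right (huv z hz4)
  have hpd := (PD_iter n (X z) (Y z) (Z z) (u z) hu0 (by
    rw [hvinv]; simp only [hu, hv]; ring) (by rw [hvinv]; exact hud0 z hz4)).2.1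
  rw [hpd, inv_pow, hun, hvinv]
  have hq := hquad z hzU hz4 hzα
  have e1 : (Z z - v z * Y z) / (u z - v z) = α z := rfl
  have e2 : (u z * Y z - Z z) / (u z - v z) = β z := rfl
  rw [e1, e2]
  field_simp
  linear_combination hq

end Pool.Agent.Y473.MC
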