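import Pool.Agent.Y473.MC.Auto

/-!
# The local unstable manifold of the point `(1,0,0)` for `F^6`
-/

namespace Pool.Agent.Y473.MC

open Matrix Topology Filter

/-- the golden mean -/
noncomputable def gm : ℝ := (1 + √5) / 2

theorem gm_sq : gm ^ 2 = gm + 1 := by
  have h : (√5 : ℝ) ^ 2 = 5 := Real.sq_sqrt (by norm_num)
  unfold gm
  linear_combination (1 / 4) * h

theorem gm_gt : 8 / 5 < gm := by
  have h : (11 / 5 : ℝ) < √5 := by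
    rw [Real.lt_sqrt (by norm_num)]; norm_num
  unfold gm; linarith

theorem gm_lt : gm < 2 := by
  have h : (√5 : ℝ) < 3 := by
    rw [Real.sqrt_lt' (by norm_num)]; norm_num
  unfold gm; linarith

/-- the unstable multiplier of `F^6` at `(1,0,0)` -/
noncomputable def lam : ℝ := gm + 1

theorem lam_gt : 13 / 5 < lam := by unfold lam; linarith [gm_gt]
theorem lam_lt : lam < 3 := by unfold lam; linarith [gm_lt]
theorem lam_pos : 0 < lam := by linarith [lam_gt]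

/-- the base point -/
def q0 : ℂ × ℂ × ℂ := (1, 0, 0)

/-- first order approximation of the unstable manifold -/
noncomputable def w0 (ζ : ℂ) : ℂ × ℂ × ℂ := (1, (gm : ℂ) * ζ, ζ)

/-- the sixth iterate -/
def G6 : ℂ × ℂ × ℂ → ℂ × ℂ × ℂ := PF^[6]

/-- second order jets -/
def Jet (f : ℂ → ℂ) (a b : ℂ) : Prop := ∃ Q : ℂ → ℂ, Continuous Q ∧ ∀ ζ, f ζ = a + b * ζ + ζ ^ 2 * Q ζ

theorem Jet.mul_sub {f g h : ℂ → ℂ} {a b a' b' a'' b'' : ℂ} (hf : Jet f a b) (hg : Jet g a' b')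
    (hh : Jet h a'' b'') : Jet (fun ζ => f ζ * g ζ - h ζ) (a * a' - a'')
      (a * b' + b * a' - b'') := by
  obtain ⟨Q, hQ, hQ'⟩ := hf
  obtain ⟨R, hR, hR'⟩ := hg
  obtain ⟨S, hS, hS'⟩ := hh
  refine ⟨fun ζ => b * b' + Q ζ * (a' + b' * ζ + ζ ^ 2 * R ζ) + (a + b * ζ) * R ζ - S ζ,
    by fun_prop, ?_⟩
  intro ζ
  simp only [hQ', hR', hS']
  ring

theorem Jet.cast {f : ℂ → ℂ} {a b a' b' : ℂ} (hf : Jet f a b) (h : a = a') (h' : b = b') :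
    Jet f a' b' := by subst h; subst h'; exact hf

theorem Jet.bound {f : ℂ → ℂ} {a b : ℂ} (hf : Jet f a b) : ∃ C : ℝ, 0 ≤ C ∧ ∀ ζ : ℂ, ‖ζ‖ ≤ 1 →
    ‖f ζ - (a + b * ζ)‖ ≤ C * ‖ζ‖ ^ 2 := by
  obtain ⟨Q, hQ, hQ'⟩ := hf
  obtain ⟨C, hC⟩ := (isCompact_closedBall (0 : ℂ) 1).exists_bound_of_continuousOn hQ.continuousOn
  refine ⟨max C 0, le_max_right _ _, ?_⟩
  intro ζ hζ
  rw [hQ', add_sub_cancel_left, norm_mul, norm_pow, mul_comm]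
  exact mul_le_mul_of_nonneg_right ((hC ζ (by simpa using hζ)).trans (le_max_left _ _))
    (by positivity)

theorem G6_w0 : ∃ C : ℝ, 0 < C ∧ ∀ ζ : ℂ, ‖ζ‖ ≤ 1 →
    ‖G6 (w0 ζ) - w0 ((lam : ℂ) * ζ)‖ ≤ C * ‖ζ‖ ^ 2 := by
  have hg : ((gm : ℂ)) ^ 2 = gm + 1 := by exact_mod_cast congrArg (fun x : ℝ => (x : ℂ)) gm_sq
  let t0 : ℂ → ℂ := fun _ => 1
  let t1 : ℂ → ℂ := fun ζ => (gm : ℂ) * ζ
  let t2 : ℂ → ℂ := fun ζ => ζ
  let t3 : ℂ → ℂ := fun ζ => t1 ζ * t2 ζ - t0 ζ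
  let t4 : ℂ → ℂ := fun ζ => t2 ζ * t3 ζ - t1 ζ
  let t5 : ℂ → ℂ := fun ζ => t3 ζ * t4 ζ - t2 ζ
  let t6 : ℂ → ℂ := fun ζ => t4 ζ * t5 ζ - t3 ζ
  let t7 : ℂ → ℂ := fun ζ => t5 ζ * t6 ζ - t4 ζ
  let t8 : ℂ → ℂ := fun ζ => t6 ζ * t7 ζ - t5 ζ
  have j0 : Jet t0 1 0 := ⟨fun _ => 0, continuous_const, fun ζ => by simp [t0]⟩
  have j1 : Jet t1 0 gm := ⟨fun _ => 0, continuous_const, fun ζ => by simp [t1]⟩
  have j2 : Jet t2 0 1 := ⟨fun _ => 0, continuous_const, fun ζ => by simp [t2]⟩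
  have j3 : Jet t3 (-1) 0 := (j1.mul_sub j2 j0).cast (by ring) (by ring)
  have j4 : Jet t4 0 (-1 - gm) := (j2.mul_sub j3 j1).cast (by ring) (by ring)
  have j5 : Jet t5 0 gm := (j3.mul_sub j4 j2).cast (by ring) (by ring)
  have j6 : Jet t6 1 0 := (j4.mul_sub j5 j3).cast (by ring) (by ring)
  have j7 : Jet t7 0 (1 + 2 * gm) := (j5.mul_sub j6 j4).cast (by ring) (by ring)
  have j8 : Jet t8 0 (1 + gm) := (j6.mul_sub j7 j5).cast (by ring) (by ring)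
  obtain ⟨C6, h6, b6⟩ := j6.bound
  obtain ⟨C7, h7, b7⟩ := j7.bound
  obtain ⟨C8, h8, b8⟩ := j8.bound
  refine ⟨C6 + C7 + C8 + 1, by positivity, ?_⟩
  intro ζ hζ
  have e : G6 (w0 ζ) = (t6 ζ, t7 ζ, t8 ζ) := rfl
  have e' : w0 ((lam : ℂ) * ζ) = (1 + 0 * ζ, 0 + (1 + 2 * gm) * ζ, 0 + (1 + gm) * ζ) := by
    simp only [w0, lam]
    push_cast
    refine Prod.ext (by simp) (Prod.ext ?_ ?_)
    · simp only; linear_combination ζ * hg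
    · simp only; ring
  have hn : 0 ≤ ‖ζ‖ ^ 2 := by positivity
  rw [e, e']
  have k6 := b6 ζ hζ
  have k7 := b7 ζ hζ
  have k8 := b8 ζ hζ
  have hm : ∀ a b c : ℂ, ‖((a, b, c) : ℂ × ℂ × ℂ)‖ = max ‖a‖ (max ‖b‖ ‖c‖) := fun a b c => rfl
  rw [Prod.mk_sub_mk, Prod.mk_sub_mk, hm]
  refine max_le ?_ (max_le ?_ ?_)
  · nlinarith
  · nlinarith
  · nlinarith

/-- the derivative of `PF` -/
noncomputable def JF (w : ℂ × ℂ × ℂ) : (ℂ × ℂ × ℂ) →L[ℂ] (ℂ × ℂ × ℂ) :=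
  ((ContinuousLinearMap.fst ℂ ℂ ℂ).comp (ContinuousLinearMap.snd ℂ ℂ (ℂ × ℂ))).prod
    (((ContinuousLinearMap.snd ℂ ℂ ℂ).comp (ContinuousLinearMap.snd ℂ ℂ (ℂ × ℂ))).prod
      (w.2.1 • ((ContinuousLinearMap.snd ℂ ℂ ℂ).comp (ContinuousLinearMap.snd ℂ ℂ (ℂ × ℂ)))
        + w.2.2 • ((ContinuousLinearMap.fst ℂ ℂ ℂ).comp (ContinuousLinearMap.snd ℂ ℂ (ℂ × ℂ)))
        - ContinuousLinearMap.fst ℂ ℂ (ℂ × ℂ)))

theorem JF_apply (w v : ℂ × ℂ × ℂ) :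
    JF w v = (v.2.1, v.2.2, w.2.1 * v.2.2 + w.2.2 * v.2.1 - v.1) := rfl

theorem hasStrictFDerivAt_PF (w : ℂ × ℂ × ℂ) : HasStrictFDerivAt PF (JF w) w := by
  have h1 : HasStrictFDerivAt (fun v : ℂ × ℂ × ℂ => v.2.1)
      ((ContinuousLinearMap.fst ℂ ℂ ℂ).comp (ContinuousLinearMap.snd ℂ ℂ (ℂ × ℂ))) w :=
    ((ContinuousLinearMap.fst ℂ ℂ ℂ).comp
      (ContinuousLinearMap.snd ℂ ℂ (ℂ × ℂ))).hasStrictFDerivAt
  have h2 : HasStrictFDerivAt (fun v : ℂ × ℂ × ℂ => v.2.2)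
      ((ContinuousLinearMap.snd ℂ ℂ ℂ).comp (ContinuousLinearMap.snd ℂ ℂ (ℂ × ℂ))) w :=
    ((ContinuousLinearMap.snd ℂ ℂ ℂ).comp
      (ContinuousLinearMap.snd ℂ ℂ (ℂ × ℂ))).hasStrictFDerivAt
  have h0 : HasStrictFDerivAt (fun v : ℂ × ℂ × ℂ => v.1)
      (ContinuousLinearMap.fst ℂ ℂ (ℂ × ℂ)) w :=
    (ContinuousLinearMap.fst ℂ ℂ (ℂ × ℂ)).hasStrictFDerivAt
  exact h1.prodMk (h2.prodMk ((h1.mul h2).sub h0))

theorem lip_G6 : ∃ s ∈ 𝓝 q0, LipschitzOnWith 4 G6 s := by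
  have hP : ∀ w w', PF w = w' → HasStrictFDerivAt PF (JF w') (PF w) := by
    rintro w _ rfl; exact hasStrictFDerivAt_PF _
  have e0 : PF q0 = (0, 0, -1) := by simp [PF, q0]
  have e1 : PF (0, 0, -1) = (0, -1, 0) := by simp [PF]
  have e2 : PF (0, -1, 0) = (-1, 0, 0) := by simp [PF]
  have e3 : PF (-1, 0, 0) = (0, 0, 1) := by simp [PF]
  have e4 : PF (0, 0, 1) = (0, 1, 0) := by simp [PF]
  have h0 := hasStrictFDerivAt_PF q0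
  have h1 := (hP _ _ e0).comp q0 h0
  have h2 := (show HasStrictFDerivAt PF (JF (0, -1, 0)) ((PF ∘ PF) q0) by
    simp only [Function.comp, e0, e1]; exact hasStrictFDerivAt_PF _).comp q0 h1
  have h3 := (show HasStrictFDerivAt PF (JF (-1, 0, 0)) ((PF ∘ PF ∘ PF) q0) by
    simp only [Function.comp, e0, e1, e2]; exact hasStrictFDerivAt_PF _).comp q0 h2
  have h4 := (show HasStrictFDerivAt PF (JF (0, 0, 1)) ((PF ∘ PF ∘ PF ∘ PF) q0) by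
    simp only [Function.comp, e0, e1, e2, e3]; exact hasStrictFDerivAt_PF _).comp q0 h3
  have h5 := (show HasStrictFDerivAt PF (JF (0, 1, 0)) ((PF ∘ PF ∘ PF ∘ PF ∘ PF) q0) by
    simp only [Function.comp, e0, e1, e2, e3, e4]; exact hasStrictFDerivAt_PF _).comp q0 h4
  have hG : G6 = PF ∘ PF ∘ PF ∘ PF ∘ PF ∘ PF := rfl
  rw [hG]
  refine h5.exists_lipschitzOnWith_of_nnnorm_lt 4 ?_
  have : ‖(JF (0, 1, 0)).comp ((JF (0, 0, 1)).comp ((JF (-1, 0, 0)).comp ((JF (0, -1, 0)).comp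
      ((JF (0, 0, -1)).comp (JF q0)))))‖ ≤ 3 := by
    refine ContinuousLinearMap.opNorm_le_bound _ (by norm_num) ?_
    intro v
    simp only [ContinuousLinearMap.comp_apply, JF_apply, q0]
    obtain ⟨v1, v2, v3⟩ := v
    have hm : ∀ a b c : ℂ, ‖((a, b, c) : ℂ × ℂ × ℂ)‖ = max ‖a‖ (max ‖b‖ ‖c‖) := fun a b c => rfl
    rw [hm, hm]
    simp only
    have m1 : ‖v1‖ ≤ max ‖v1‖ (max ‖v2‖ ‖v3‖) := le_max_left _ _
    have m2 : ‖v2‖ ≤ max ‖v1‖ (max ‖v2‖ ‖v3‖) := (le_max_left _ _).trans (le_max_right _ _)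
    have m3 : ‖v3‖ ≤ max ‖v1‖ (max ‖v2‖ ‖v3‖) := (le_max_right _ _).trans (le_max_right _ _)
    set m := max ‖v1‖ (max ‖v2‖ ‖v3‖) with hmdef
    have n1 := norm_nonneg v1
    refine max_le ?_ (max_le ?_ ?_)
    · ring_nf
      linarith
    · ring_nf
      calc ‖v3 + v2 * 2‖ ≤ ‖v3‖ + ‖v2 * 2‖ := norm_add_le _ _
        _ = ‖v3‖ + ‖v2‖ * 2 := by rw [norm_mul]; norm_num
        _ ≤ _ := by linarith
    · ring_nf
      calc ‖v3 + v2‖ ≤ ‖v3‖ + ‖v2‖ := norm_add_le _ _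
        _ ≤ _ := by linarith
  rw [← NNReal.coe_lt_coe, coe_nnnorm]
  refine lt_of_le_of_lt this ?_
  norm_num

end Pool.Agent.Y473.MC
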